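import Pool.Agent.Run7.h143.Step

/-!
Chains of stable ideals of the symmetric algebra.
-/

set_option autoImplicit false
set_option linter.unusedSectionVars false
set_option linter.unusedSimpArgs false
set_option linter.unusedVariables false

namespace Run7.h143

open AddMonoidAlgebra

section disc

variable (F : Type*) [Field F] (ι : Type) [Fintype ι] [DecidableEq ι]

/-- The discriminant of the points. -/
noncomputable def Dc : PR F ι :=
  ∏ a : ι, ∏ b : ι, if a = b then 1 else (((sP F ι).z a : PR F ι) - (sP F ι).z b)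

/-- The twist of the discriminant. -/
noncomputable def Dg : ℤ → PR F ι :=
  ∑ a : ι, ∑ b : ι, if a = b then 0 else fun l => gg l ((sP F ι).z a) ((sP F ι).z b)

lemma SI_Dc : SI (sP F ι) (Dc F ι) (Dg F ι) := by
  unfold Dc Dg
  refine SI.prod (fun a _ => SI.prod (fun b _ => ?_))
  split_ifs
  · exact SI.one
  · exact SI.sub_z _ a b

lemma Dg_mem : Dg F ι ∈ Tw (sP F ι) := by
  unfold Dg
  refine AddSubmonoid.sum_mem _ (fun a _ => AddSubmonoid.sum_mem _ (fun b _ => ?_))
  split_ifs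
  · exact AddSubmonoid.zero_mem _
  · exact Tw_gg _ a b

/-- The functional of a power of the discriminant. -/
noncomputable def fi (N : ℕ) : PR F ι →ₗ[F] SA F :=
  ((E (MvPolynomial.X : ℤ → SA F) : PR F ι →ₗ[SA F] SA F).restrictScalars F) ∘ₗ
    LinearMap.mulLeft F (Dc F ι ^ N)

/-- The twist of the functional. -/
noncomputable def gN (N : ℕ) : ℤ → PR F ι :=
  N • Dg F ι + ∑ a : ι, fun l => - gg l ((sP F ι).z a) ((sP F ι).z a)

variable {F ι}

lemma gN_mem (N : ℕ) : gN F ι N ∈ Tw (sP F ι) :=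
  AddSubmonoid.add_mem _ (AddSubmonoid.nsmul_mem _ (Dg_mem F ι) N)
    (AddSubmonoid.sum_mem _ (fun a _ => Tw_neg _ a))

lemma fi_apply (N : ℕ) (t : PR F ι) : fi F ι N t = E (MvPolynomial.X : ℤ → SA F) (Dc F ι ^ N * t) :=
  rfl

lemma fi_x (N : ℕ) (m : ℤ) (t : PR F ι) :
    fi F ι N ((sP F ι).x m * t) = MvPolynomial.X m * fi F ι N t := by
  rw [fi_apply, fi_apply, mul_left_comm]
  exact E_C_mul _ _ _

lemma fi_d (N : ℕ) (l : ℤ) (t : PR F ι) :
    dS F l (fi F ι N t) = fi F ι N ((sP F ι).d l t + gN F ι N l * t) := by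
  rw [fi_apply, fi_apply, E_der (dS F) (fun l m => dS_X l m) l]
  congr 1
  have h1 : dd (dS F) l (Dc F ι ^ N * t) = Dc F ι ^ N * (sP F ι).d l t +
      t * ((N • Dg F ι) l * Dc F ι ^ N) := by
    rw [← (SI_Dc F ι).pow N l]
    exact ((sP F ι).d l).leibniz _ _
  have h2 : (∑ a : ι, ((l : ℤ) : PR F ι) * ((Z a ^ (l - 1) : (PR F ι)ˣ) : PR F ι)) =
      - (∑ a : ι, fun l => - gg l ((sP F ι).z a) ((sP F ι).z a)) l := by
    rw [Finset.sum_apply, Finset.sum_neg_distrib, neg_neg]
    apply Finset.sum_congr rfl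
    intro a _
    rw [gg_self]
    rfl
  rw [h1, h2]
  unfold gN
  rw [Pi.add_apply]
  ring

end disc

section ind

variable {F : Type*} [Field F] {ι : Type} [Fintype ι] [DecidableEq ι] (i : ι)

lemma E_mu (r : PR F (Rm i)) (m : ℤ) :
    E (MvPolynomial.X : ℤ → SA F) (mu F (Subtype.val : Rm i → ι) r *
      ((Z i ^ m : (PR F ι)ˣ) : PR F ι)) =
      MvPolynomial.X m * E (MvPolynomial.X : ℤ → SA F) r := by
  induction r using AddMonoidAlgebra.induction_linear with
  | zero => simp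
  | add p q hp hq => rw [map_add, add_mul, map_add, hp, hq, map_add, mul_add]
  | single n b =>
    rw [mu_val_single, Z_zpow, single_mul_single, E_single, E_single, mul_one,
      Fintype.prod_eq_mul_prod_subtype_ne _ i, Pi.add_apply, exq_self, zero_add, Pi.single_eq_same,
      mul_left_comm]
    congr 2
    apply Finset.prod_congr rfl
    intro a _
    rw [Pi.add_apply, exq_ne, Pi.single_eq_of_ne a.2, add_zero]

/-- The map from one variable polynomials. -/
noncomputable def PhI : LP (PR F (Rm i)) Unit →+* PR F ι :=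
  lf ((mu F (Subtype.val : Rm i → ι) : PR F (Rm i) →ₐ[F] PR F ι) : PR F (Rm i) →+* PR F ι)
    (fun _ => Z i)

lemma E_PhI (q : LP (PR F (Rm i)) Unit) : E (MvPolynomial.X : ℤ → SA F) (PhI i q) =
    E (MvPolynomial.X : ℤ → SA F) (xf (sP F (Rm i)).x q) := by
  induction q using LP1_induction with
  | h0 => simp
  | hadd p q hp hq => rw [map_add, map_add, hp, hq, map_add, map_add]
  | hm r m =>
    have h1 : PhI i (single 0 r * ((yy ^ m : (LP (PR F (Rm i)) Unit)ˣ) : LP (PR F (Rm i)) Unit)) =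
        mu F (Subtype.val : Rm i → ι) r * ((Z i ^ m : (PR F ι)ˣ) : PR F ι) := by
      unfold PhI
      rw [map_mul, lf_C, lf_Zz]
      rfl
    have h3 : (sP F (Rm i)).x m = single 0 (MvPolynomial.X m) := rfl
    rw [h1, E_mu, xf_C_mul, xf_yy, h3, mul_comm r, E_C_mul]

lemma Dc_split : Dc F ι = (-1) ^ (Fintype.card (Rm i)) * (mu F (Subtype.val : Rm i → ι)
    (Dc F (Rm i)) * (∏ a : Rm i, (((sP F ι).z i : PR F ι) - (sP F ι).z a.1)) ^ 2) := by
  unfold Dc
  rw [Fintype.prod_eq_mul_prod_subtype_ne _ i, Fintype.prod_eq_mul_prod_subtype_ne _ i, if_pos rfl,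
    one_mul]
  have h1 : ∀ a : Rm i, (∏ b : ι, if a.1 = b then 1 else (((sP F ι).z a.1 : PR F ι) - (sP F ι).z b)) =
      (- (((sP F ι).z i : PR F ι) - (sP F ι).z a.1)) * mu F (Subtype.val : Rm i → ι)
        (∏ b : Rm i, if a = b then 1 else (((sP F (Rm i)).z a : PR F (Rm i)) - (sP F (Rm i)).z b)) := by
    intro a
    rw [Fintype.prod_eq_mul_prod_subtype_ne _ i, if_neg a.2, neg_sub, map_prod]
    congr 1
    apply Finset.prod_congr rfl
    intro b _
    by_cases h : a = b
    · rw [if_pos h, if_pos (by rw [h]), map_one]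
    · rw [if_neg h, if_neg (fun h' => h (Subtype.ext h')), map_sub]
      rw [(mu_hom (Subtype.val : Rm i → ι)).z, (mu_hom (Subtype.val : Rm i → ι)).z]
  simp_rw [h1]
  rw [Finset.prod_mul_distrib, ← map_prod, Finset.prod_neg, Finset.card_univ]
  have h2 : (∏ b : Rm i, if i = b.1 then 1 else (((sP F ι).z i : PR F ι) - (sP F ι).z b.1)) =
      ∏ a : Rm i, (((sP F ι).z i : PR F ι) - (sP F ι).z a.1) := by
    apply Finset.prod_congr rfl
    intro b _
    rw [if_neg (Ne.symm b.2)]
  rw [h2]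
  ring

/-- The roots with multiplicity. -/
noncomputable def zt (N : ℕ) : Fin (Fintype.card (Rm i × Fin (2 * N))) → Rm i :=
  fun t => ((Fintype.equivFin (Rm i × Fin (2 * N))).symm t).1

lemma ch0_zt (N : ℕ) : (ch0 (zt i N) : LP (PR F (Rm i)) Unit) =
    (∏ a : Rm i, (((yy : (LP (PR F (Rm i)) Unit)ˣ) : LP (PR F (Rm i)) Unit) -
      single 0 ((sP F (Rm i)).z a : PR F (Rm i)))) ^ (2 * N) := by
  unfold ch0 ch zt
  rw [(Fintype.equivFin (Rm i × Fin (2 * N))).symm.prod_comp (fun p : Rm i × Fin (2 * N) =>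
    (((yy : (LP (PR F (Rm i)) Unit)ˣ) : LP (PR F (Rm i)) Unit) -
      single 0 ((sP F (Rm i)).z p.1 : PR F (Rm i)))), Fintype.prod_prod_type]
  simp only [Finset.prod_const, Finset.card_univ, Fintype.card_fin]
  rw [Finset.prod_pow]

lemma PhI_ch0 (N : ℕ) : PhI i (ch0 (zt i N) : LP (PR F (Rm i)) Unit) =
    (∏ a : Rm i, (((sP F ι).z i : PR F ι) - (sP F ι).z a.1)) ^ (2 * N) := by
  rw [ch0_zt, map_pow, map_prod]
  congr 1
  apply Finset.prod_congr rfl
  intro a _
  unfold PhI
  rw [map_sub, lf_Z, lf_C]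
  congr 1
  exact (mu_hom (Subtype.val : Rm i → ι)).z a

lemma PhI_C (r : PR F (Rm i)) : PhI i (single 0 r) = mu F (Subtype.val : Rm i → ι) r := by
  unfold PhI
  rw [lf_C]
  rfl

lemma PhI_yy (m : ℤ) : PhI i ((yy ^ m : (LP (PR F (Rm i)) Unit)ˣ) : LP (PR F (Rm i)) Unit) =
    ((Z i ^ m : (PR F ι)ˣ) : PR F ι) := by
  unfold PhI
  rw [lf_Zz]

omit [Fintype ι] [DecidableEq ι] in
lemma fi_aux {R : Type*} [CommRing R] (a b c d : R) (N k : ℕ) :
    a ^ N * b * (c ^ (2 * N) * d) = ((-1) ^ k * (a * c ^ 2)) ^ N * ((-1) ^ (k * N) * (b * d)) := by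
  have h3 : ((-1 : R) ^ (k * N)) * ((-1) ^ (k * N)) = 1 := by
    rw [← mul_pow]
    simp
  rw [mul_pow, mul_pow, ← pow_mul, ← pow_mul]
  linear_combination (-(a ^ N * b * (c ^ (2 * N) * d))) * h3

lemma fi_ch0 (N : ℕ) (t : PR F (Rm i)) (m : ℤ) :
    fi F (Rm i) N (t * xf (sP F (Rm i)).x (ch0 (zt i N) *
      ((yy ^ m : (LP (PR F (Rm i)) Unit)ˣ) : LP (PR F (Rm i)) Unit))) =
      fi F ι N ((-1) ^ (Fintype.card (Rm i) * N) * (mu F (Subtype.val : Rm i → ι) t *
        ((Z i ^ m : (PR F ι)ˣ) : PR F ι))) := by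
  rw [fi_apply, fi_apply, ← mul_assoc, ← xf_C_mul, ← E_PhI]
  congr 1
  have h1 : (PhI i (single 0 (Dc F (Rm i) ^ N * t) * (ch0 (zt i N) *
      ((yy ^ m : (LP (PR F (Rm i)) Unit)ˣ) : LP (PR F (Rm i)) Unit))) : PR F ι) =
      mu F (Subtype.val : Rm i → ι) (Dc F (Rm i) ^ N * t) * (PhI i (ch0 (zt i N)) *
        ((Z i ^ m : (PR F ι)ˣ) : PR F ι)) := by
    refine (map_mul (PhI i) _ _).trans (congrArg₂ (· * ·) (PhI_C i _) ?_)
    exact (map_mul (PhI i) _ _).trans (congrArg₂ (· * ·) rfl (PhI_yy i m))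
  have h2 : mu F (Subtype.val : Rm i → ι) (Dc F (Rm i) ^ N * t) =
      mu F (Subtype.val : Rm i → ι) (Dc F (Rm i)) ^ N * mu F (Subtype.val : Rm i → ι) t := by
    rw [map_mul, map_pow]
  rw [h1, PhI_ch0, Dc_split i, h2]
  exact fi_aux _ _ _ _ _ _

end ind

section main

variable {F : Type*} [Field F]

/-- Stable subspaces of the symmetric algebra. -/
structure St0 (I : Submodule F (SA F)) : Prop where
  hx : ∀ m : ℤ, ∀ v ∈ I, MvPolynomial.X m * v ∈ I
  hd : ∀ l, ∀ v ∈ I, dS F l v ∈ I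

lemma St0.sup {I J : Submodule F (SA F)} (hI : St0 I) (hJ : St0 J) : St0 (I ⊔ J) where
  hx := by
    intro m v hv
    rw [Submodule.mem_sup] at hv
    obtain ⟨a, ha, b, hb, rfl⟩ := hv
    rw [mul_add]
    exact Submodule.add_mem_sup (hI.hx m a ha) (hJ.hx m b hb)
  hd := by
    intro l v hv
    rw [Submodule.mem_sup] at hv
    obtain ⟨a, ha, b, hb, rfl⟩ := hv
    rw [map_add]
    exact Submodule.add_mem_sup (hI.hd l a ha) (hJ.hd l b hb)

variable {ι : Type} [Fintype ι] [DecidableEq ι]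

lemma St0.comap {I : Submodule F (SA F)} (hI : St0 I) (N : ℕ) :
    Stab (sP F ι) (gN F ι N) (I.comap (fi F ι N)) where
  hx := by
    intro m v hv
    rw [Submodule.mem_comap] at hv ⊢
    rw [fi_x]
    exact hI.hx m _ hv
  hd := by
    intro l v hv
    rw [Submodule.mem_comap] at hv ⊢
    rw [← fi_d]
    exact hI.hd l _ hv

lemma St0_range (N : ℕ) : St0 (LinearMap.range (fi F ι N)) where
  hx := by
    rintro m _ ⟨v, rfl⟩
    exact ⟨_, fi_x N m v⟩
  hd := by
    rintro l _ ⟨v, rfl⟩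
    exact ⟨_, (fi_d N l v).symm⟩

lemma nF_le_comap (i : ι) (N : ℕ) {I : Submodule F (SA F)} (hI : ∀ t, fi F ι N t ∈ I) :
    nF F (zt i N) ≤ I.comap (fi F (Rm i) N) := by
  intro v hv
  rw [mem_nF] at hv
  rw [Submodule.mem_comap]
  have key : ∀ t : PR F (Rm i), fi F (Rm i) N (t * v) ∈ I := by
    unfold nn nI at hv
    induction hv using Submodule.span_induction with
    | mem v hv =>
      obtain ⟨m, rfl⟩ := hv
      intro t
      beta_reduce
      rw [fi_ch0]
      exact hI _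
    | zero => intro t; rw [mul_zero, map_zero]; exact I.zero_mem
    | add u v _ _ hu hv => intro t; rw [mul_add, map_add]; exact I.add_mem (hu t) (hv t)
    | smul a v _ hv => intro t; rw [smul_eq_mul, ← mul_assoc]; exact hv (t * a)
  have := key 1
  rwa [one_mul] at this

/-- Chains of stable subspaces containing the values at the multiples of a power of the
discriminant. -/
theorem comm_ch [CharZero F] (n : ℕ) : ∀ {ι : Type} [Fintype ι] [DecidableEq ι],
    Fintype.card ι = n → ∀ (N : ℕ) (c : ℕ → Submodule F (SA F)), Monotone c → (∀ j, St0 (c j)) →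
    (∀ j, ∀ t : PR F ι, fi F ι N t ∈ c j) → Stz c := by
  induction n with
  | zero =>
    intro ι _ _ hn N c hc hst hV
    have hem : IsEmpty ι := Fintype.card_eq_zero_iff.mp hn
    have htop : ∀ j, c j = ⊤ := by
      intro j
      rw [eq_top_iff]
      intro b _
      have h1 := hV j (single 0 b)
      rw [fi_apply] at h1
      have h2 : Dc F ι = 1 := by
        unfold Dc
        rw [Finset.univ_eq_empty, Finset.prod_empty]
      rw [h2, one_pow, one_mul, E_single, Finset.univ_eq_empty, Finset.prod_empty, mul_one] at h1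
      exact h1
    exact ⟨0, fun m _ => by rw [htop, htop]⟩
  | succ n ih =>
    intro ι _ _ hn N c hc hst hV
    obtain ⟨i⟩ : Nonempty ι := Fintype.card_pos_iff.mp (by omega)
    have hcard : Fintype.card (Rm i) = n := by
      rw [Fintype.card_subtype_compl, Fintype.card_subtype_eq, hn]
      rfl
    apply Stz_mod hc (LinearMap.range (fi F (Rm i) N))
    · apply ih hcard N
      · exact fun j k hjk => sup_le_sup_right (hc hjk) _
      · exact fun j => (hst j).sup (St0_range N)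
      · exact fun j t => Submodule.mem_sup_right ⟨t, rfl⟩
    · have h1 := NN_all (F := F) _ (zt i N) rfl (gN F (Rm i) N) (gN_mem N)
        (fun j => (c j).comap (fi F (Rm i) N)) (fun j k hjk => Submodule.comap_mono (hc hjk))
        (fun j => (hst j).comap N) (fun j => nF_le_comap i N (hV j))
      obtain ⟨M, hM⟩ := h1
      refine ⟨M, fun m hm => ?_⟩
      have h2 : ∀ m, c m ⊓ LinearMap.range (fi F (Rm i) N) =
          ((c m).comap (fi F (Rm i) N)).map (fi F (Rm i) N) := by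
        intro m
        rw [Submodule.map_comap_eq, inf_comm]
      have h3 := hM m hm
      beta_reduce at h3 ⊢
      rw [h2, h2, h3]

end main

end Run7.h143
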