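import Pool.Agent.Run7.h143.Det

/-!
The conductor: an algebra containing the coefficients of the polynomial, with a good multiplier.
-/

set_option autoImplicit false
set_option linter.unusedSectionVars false

namespace Run7.h143

open AddMonoidAlgebra

section interp

variable {F : Type*} [Field F] [CharZero F] {O : Type*} [CommRing O] [Algebra F O]

lemma coeff_mem_of_eval (W : Submodule F O) (P : Polynomial O)
    (h : ∀ τ : F, P.eval (algebraMap F O τ) ∈ W) (j : ℕ) : P.coeff j ∈ W := by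
  by_cases hj : j < P.natDegree + 1
  swap
  · rw [Polynomial.coeff_eq_zero_of_natDegree_lt (by omega)]
    exact W.zero_mem
  set n := P.natDegree + 1 with hn
  let τ : Fin n → F := fun i => ((i : ℕ) : F)
  have hτ : Function.Injective τ := by
    intro a b hab
    exact Fin.ext (Nat.cast_injective hab)
  have hdet : (Matrix.vandermonde τ).det ≠ 0 := Matrix.det_vandermonde_ne_zero_iff.mpr hτ
  have hinv : (Matrix.vandermonde τ)⁻¹ * Matrix.vandermonde τ = 1 :=
    Matrix.nonsing_inv_mul _ (isUnit_iff_ne_zero.mpr hdet)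
  have hv : ∀ i, P.eval (algebraMap F O (τ i)) =
      ∑ k : Fin n, Matrix.vandermonde τ i k • P.coeff k := by
    intro i
    rw [Polynomial.eval_eq_sum_range' (n := n) (by omega), Finset.sum_range]
    apply Finset.sum_congr rfl
    intro k _
    rw [Matrix.vandermonde_apply, Algebra.smul_def, map_pow, mul_comm]
  have e : P.coeff j = ∑ i, (Matrix.vandermonde τ)⁻¹ ⟨j, hj⟩ i • P.eval (algebraMap F O (τ i)) := by
    simp_rw [hv, Finset.smul_sum, smul_smul]
    rw [Finset.sum_comm]
    simp_rw [← Finset.sum_smul, ← Matrix.mul_apply, hinv]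
    rw [Finset.sum_eq_single ⟨j, hj⟩]
    · simp
    · intro k _ hk
      rw [Matrix.one_apply_ne hk.symm, zero_smul]
    · simp
  rw [e]
  exact W.sum_mem (fun i _ => W.smul_mem _ (h _))

end interp

section sysL

/-- Laurent polynomials as a system with zero sequence. -/
noncomputable def sysL (F : Type*) [Field F] (κ : Type) [Fintype κ] [DecidableEq κ] :
    Sys F κ (LP F κ) where
  z := Z
  x _ := 0
  d := dd (fun _ => 0)
  dz l i := dd_Z _ _ _
  dx l m := by simp

lemma mp_dd {F : Type*} [Field F] {O : Type*} [CommRing O] [Algebra F O] {κ : Type} [Fintype κ]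
    [DecidableEq κ] (d : ℤ → Derivation F O O) (l : ℤ) (g : LP F κ) :
    dd d l (mp (algebraMap F O) g) = mp (algebraMap F O) (dd (fun _ => (0 : Derivation F F F)) l g) := by
  induction g using AddMonoidAlgebra.induction_linear with
  | zero => simp
  | add p q hp hq => rw [map_add, map_add, hp, hq, map_add, map_add]
  | single n b =>
    rw [mp_single, dd_single, dd_single, map_add, map_mul, mp_single, mp_single,
      Derivation.map_algebraMap]
    congr 1
    · simp
    · rw [th_apply, th_apply, map_sum]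
      congr 1
      apply Finset.sum_congr rfl
      intro i _
      rw [map_mul, mp_Zz, map_intCast]

end sysL

section cond

variable {F : Type*} [Field F] {ι : Type} {O : Type*} [CommRing O] [Algebra F O]
  (s : Sys F ι O) (ν : ℕ)

/-- The values of the functional at multiples of the Vandermonde determinant. -/
noncomputable def Dp : LP F (Fin ν) →ₗ[F] O where
  toFun g := E s.x (mp (algebraMap F O) (g * Vd F ν))
  map_add' a b := by rw [add_mul, map_add, map_add]
  map_smul' c a := by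
    have h : (c • a : LP F (Fin ν)) = single 0 c * a := by
      rw [← one_mul a, ← smul_mul_assoc, one_def, smul_single, smul_eq_mul, mul_one, ← one_def, one_mul]
    rw [h, mul_assoc, map_mul, mp_single, E_C_mul, RingHom.id_apply, Algebra.smul_def]

lemma Dp_apply (g : LP F (Fin ν)) : Dp s ν g = E s.x (mp (algebraMap F O) (g * Vd F ν)) := rfl

variable {ν} (ζ : Fin ν → ι)

/-- The product of one variable monomials. -/
lemma prod_io_yy {C : Type*} [CommRing C] (n : Fin ν → ℤ) :
    (∏ a, (io a ((yy ^ (n a) : (LP C Unit)ˣ) : LP C Unit) : LP C (Fin ν))) = single n 1 := by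
  have : ∀ a, (io a ((yy ^ (n a) : (LP C Unit)ˣ) : LP C Unit) : LP C (Fin ν)) =
      single (Pi.single a (n a)) 1 := by
    intro a
    rw [io_yy, Z_zpow]
  simp_rw [this]
  rw [prod_single_pi (fun a => n a) (fun _ => (1 : C))]
  simp

lemma Dp_single (n : Fin ν → ℤ) (c : F) : Dp s ν (single n c) = algebraMap F O c *
    hd s.x (fun a => ((yy ^ (n a) : (LP O Unit)ˣ) : LP O Unit))
      (fun b => ((yy ^ ((b : ℕ) : ℤ) : (LP O Unit)ˣ) : LP O Unit)) := by
  rw [Dp_apply, map_mul, mp_Vd, mp_single]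
  have : (single n (algebraMap F O c) : LP O (Fin ν)) = single 0 (algebraMap F O c) *
      ∏ a, (io a ((yy ^ (n a) : (LP O Unit)ˣ) : LP O Unit) : LP O (Fin ν)) := by
    rw [prod_io_yy, single_mul_single, zero_add, mul_one]
  rw [this, mul_assoc, E_C_mul, E_Vd]

lemma Dp_lin [Nontrivial O] (hK : Kl s.x (ch (fun t => s.z (ζ t)) Finset.univ)) (α β : F)
    (g : LP F (Fin ν)) :
    (∏ t, (algebraMap F O α + algebraMap F O β * s.z (ζ t))) * Dp s ν g =
      Dp s ν ((∏ a, (single 0 α + single 0 β * ((Z a : (LP F (Fin ν))ˣ) : LP F (Fin ν)))) * g) := by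
  induction g using AddMonoidAlgebra.induction_linear with
  | zero => simp
  | add p q hp hq => rw [map_add, mul_add, hp, hq, mul_add, map_add]
  | single n c =>
    have key : mp (algebraMap F O) ((∏ a, (single 0 α + single 0 β * ((Z a : (LP F (Fin ν))ˣ) :
        LP F (Fin ν)))) * single n c * Vd F ν) = single 0 (algebraMap F O c) *
        ((∏ a, (io a ((single 0 (algebraMap F O α) + single 0 (algebraMap F O β) *
          ((yy : (LP O Unit)ˣ) : LP O Unit)) * ((yy ^ (n a) : (LP O Unit)ˣ) : LP O Unit)) :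
            LP O (Fin ν))) * Vd O ν) := by
      rw [map_mul, map_mul, mp_Vd, mp_single, map_prod, ← mul_assoc]
      congr 1
      have h2 : ∀ a : Fin ν, (io a ((single 0 (algebraMap F O α) + single 0 (algebraMap F O β) *
          ((yy : (LP O Unit)ˣ) : LP O Unit)) * ((yy ^ (n a) : (LP O Unit)ˣ) : LP O Unit)) :
            LP O (Fin ν)) = mp (algebraMap F O) (single 0 α + single 0 β *
              ((Z a : (LP F (Fin ν))ˣ) : LP F (Fin ν))) *
                io a ((yy ^ (n a) : (LP O Unit)ˣ) : LP O Unit) := by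
        intro a
        have h1 := io_yy (O := O) a 1
        rw [zpow_one, zpow_one] at h1
        rw [map_mul, map_add, map_mul, io_C, io_C, h1, map_add, map_mul, mp_single, mp_single, mp_Z]
      simp_rw [h2]
      rw [Finset.prod_mul_distrib, prod_io_yy]
      have : (single n (algebraMap F O c) : LP O (Fin ν)) = single 0 (algebraMap F O c) *
          single n 1 := by
        rw [single_mul_single, zero_add, mul_one]
      rw [this, mul_left_comm]
    rw [Dp_single, mul_left_comm, ← hd_newton s.x (fun t => s.z (ζ t)), ← hd_lin hK,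
      hd_newton s.x (fun t => s.z (ζ t)), ← E_Vd, Dp_apply, key, E_C_mul]

lemma SI_Vd : SI (sysL F (Fin ν)) (Vd F ν)
    (∑ i : Fin ν, ∑ j ∈ Finset.Ioi i, fun l => gg l (Z j) (Z i)) := by
  unfold Vd
  rw [Matrix.det_vandermonde]
  exact SI.prod (fun i _ => SI.prod (fun j _ => SI.sub_z (sysL F (Fin ν)) j i))

lemma Dp_der (l : ℤ) (g : LP F (Fin ν)) : ∃ g', s.d l (Dp s ν g) = Dp s ν g' := by
  rw [Dp_apply, E_der s.d s.dx, mp_dd]
  have h1 : dd (fun _ => (0 : Derivation F F F)) l (g * Vd F ν) =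
      (dd (fun _ => (0 : Derivation F F F)) l g + g *
        (∑ i : Fin ν, ∑ j ∈ Finset.Ioi i, fun l => gg l (Z j) (Z i)) l) * Vd F ν := by
    have h := SI_Vd (F := F) (ν := ν) l
    change dd (fun _ => (0 : Derivation F F F)) l (Vd F ν) = _ at h
    rw [Derivation.leibniz, h, smul_eq_mul, smul_eq_mul]
    ring
  refine ⟨dd (fun _ => (0 : Derivation F F F)) l g + g *
        (∑ i : Fin ν, ∑ j ∈ Finset.Ioi i, fun l => gg l (Z j) (Z i)) l -
    (∑ a : Fin ν, ((l : ℤ) : LP F (Fin ν)) * ((Z a ^ (l - 1) : (LP F (Fin ν))ˣ) : LP F (Fin ν))) * g,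
    ?_⟩
  rw [Dp_apply, h1]
  congr 1
  rw [sub_mul, map_sub, mul_assoc (∑ a : Fin ν, ((l : ℤ) : LP F (Fin ν)) *
    ((Z a ^ (l - 1) : (LP F (Fin ν))ˣ) : LP F (Fin ν))), map_mul (mp (algebraMap F O)) (∑ a : Fin ν,
    ((l : ℤ) : LP F (Fin ν)) * ((Z a ^ (l - 1) : (LP F (Fin ν))ˣ) : LP F (Fin ν)))]
  congr 2
  rw [map_sum]
  apply Finset.sum_congr rfl
  intro a _
  rw [map_mul, mp_Zz, map_intCast]

lemma prod_beta_mem [Nontrivial O] (hK : Kl s.x (ch (fun t => s.z (ζ t)) Finset.univ)) :
    (∏ t, xf s.x (ch (fun t => s.z (ζ t)) (Finset.univ.erase t))) ∈ LinearMap.range (Dp s ν) := by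
  rw [← hd_tri hK]
  obtain ⟨e, he⟩ := hd_newton' s.x (fun t => s.z (ζ t)) (fun b => ch (fun t => s.z (ζ t)) (Finset.Iio b))
  rw [he, hd_newton, ← zsmul_eq_mul]
  apply Submodule.smul_of_tower_mem
  refine ⟨single (fun a => ((a : ℕ) : ℤ)) 1, ?_⟩
  rw [Dp_single, map_one, one_mul]

/-- The algebra generated by the sequence. -/
noncomputable def Sb : Subalgebra F O := Algebra.adjoin F (Set.range s.x)

lemma x_mem_Sb (m : ℤ) : s.x m ∈ Sb s := Algebra.subset_adjoin ⟨m, rfl⟩

lemma d_Sb (l : ℤ) {g : O} (hg : g ∈ Sb s) : s.d l g ∈ Sb s := by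
  unfold Sb at hg
  induction hg using Algebra.adjoin_induction with
  | mem x hx =>
    obtain ⟨m, rfl⟩ := hx
    rw [s.dx, ← zsmul_eq_mul]
    exact (Sb s).zsmul_mem (x_mem_Sb s _) _
  | algebraMap r => rw [Derivation.map_algebraMap]; exact Subalgebra.zero_mem _
  | add x y _ _ hx hy => rw [map_add]; exact Subalgebra.add_mem _ hx hy
  | mul x y hx' hy' hx hy =>
    rw [Derivation.leibniz, smul_eq_mul, smul_eq_mul]
    exact Subalgebra.add_mem _ (Subalgebra.mul_mem _ hx' hy) (Subalgebra.mul_mem _ hy' hx)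

lemma Dp_mem_Sb (g : LP F (Fin ν)) : Dp s ν g ∈ Sb s := by
  rw [Dp_apply]
  generalize g * Vd F ν = t
  induction t using AddMonoidAlgebra.induction_linear with
  | zero => rw [map_zero, map_zero]; exact Subalgebra.zero_mem _
  | add p q hp hq => rw [map_add, map_add]; exact Subalgebra.add_mem _ hp hq
  | single n b =>
    rw [mp_single, E_single]
    exact Subalgebra.mul_mem _ (Subalgebra.algebraMap_mem _ _)
      (Subalgebra.prod_mem _ (fun i _ => x_mem_Sb s _))

/-- The conductor module. -/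
noncomputable def DD (ν : ℕ) : Submodule F O := (Sb s).toSubmodule * LinearMap.range (Dp s ν)

lemma mem_DD_of {v : O} (hv : v ∈ LinearMap.range (Dp s ν)) : v ∈ DD s ν := by
  have h1 : (1 : O) ∈ (Sb s).toSubmodule := Subalgebra.one_mem (Sb s)
  have := Submodule.mul_mem_mul h1 hv
  rwa [one_mul] at this

lemma DD_le : DD s ν ≤ (Sb s).toSubmodule := by
  unfold DD
  rw [Submodule.mul_le]
  rintro a ha _ ⟨g, rfl⟩
  exact Subalgebra.mul_mem _ ha (Dp_mem_Sb s g)

lemma DD_induction {P : O → Prop} (hm : ∀ a ∈ Sb s, ∀ g, P (a * Dp s ν g))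
    (hadd : ∀ a b, P a → P b → P (a + b)) {v : O} (hv : v ∈ DD s ν) : P v := by
  unfold DD at hv
  refine Submodule.mul_induction_on hv ?_ hadd
  rintro a ha _ ⟨g, rfl⟩
  exact hm a ha g

lemma DD_mul_mem (a : O) (ha : a ∈ Sb s) (g : LP F (Fin ν)) : a * Dp s ν g ∈ DD s ν :=
  Submodule.mul_mem_mul ha ⟨g, rfl⟩

lemma DD_der (l : ℤ) {v : O} (hv : v ∈ DD s ν) : s.d l v ∈ DD s ν := by
  refine DD_induction s (P := fun v => s.d l v ∈ DD s ν) ?_ ?_ hv
  · intro a ha g
    rw [Derivation.leibniz, smul_eq_mul, smul_eq_mul, mul_comm (Dp s ν g)]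
    obtain ⟨g', hg'⟩ := Dp_der s l g
    rw [hg']
    exact Submodule.add_mem _ (DD_mul_mem s a ha g') (DD_mul_mem s _ (d_Sb s l ha) g)
  · intro a b ha hb
    rw [map_add]
    exact Submodule.add_mem _ ha hb

/-- The algebra of multipliers. -/
def GG {α : Type*} (W : Submodule F O) (p : α → Derivation F O O) : Subalgebra F O where
  carrier := {g | (∀ v ∈ W, g * v ∈ W) ∧ ∀ i, p i g = 0}
  mul_mem' := by
    rintro a b ⟨ha, ha'⟩ ⟨hb, hb'⟩
    refine ⟨fun v hv => ?_, fun i => ?_⟩
    · rw [mul_assoc]; exact ha _ (hb v hv)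
    · rw [Derivation.leibniz, ha', hb', smul_zero, smul_zero, add_zero]
  add_mem' := by
    rintro a b ⟨ha, ha'⟩ ⟨hb, hb'⟩
    refine ⟨fun v hv => ?_, fun i => ?_⟩
    · rw [add_mul]; exact W.add_mem (ha v hv) (hb v hv)
    · rw [map_add, ha', hb', add_zero]
  algebraMap_mem' := by
    intro r
    refine ⟨fun v hv => ?_, fun i => Derivation.map_algebraMap _ _⟩
    rw [← Algebra.smul_def]
    exact W.smul_mem _ hv

lemma mem_GG {α : Type*} {W : Submodule F O} {p : α → Derivation F O O} {g : O} :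
    g ∈ GG W p ↔ (∀ v ∈ W, g * v ∈ W) ∧ ∀ i, p i g = 0 := Iff.rfl

variable {α : Type*} (p : α → Derivation F O O)

lemma GG_d (cc : α → ℤ → O) (hp : ∀ i l v, p i (s.d l v) = s.d l (p i v) + cc i l * p i v) (l : ℤ)
    {g : O} (hg : g ∈ GG (DD s ν) p) : s.d l g ∈ GG (DD s ν) p := by
  obtain ⟨h1, h2⟩ := hg
  refine ⟨fun v hv => ?_, fun i => ?_⟩
  · have e : s.d l g * v = s.d l (g * v) - g * s.d l v := by
      rw [Derivation.leibniz, smul_eq_mul, smul_eq_mul]; ring
    rw [e]
    exact Submodule.sub_mem _ (DD_der s l (h1 v hv)) (h1 _ (DD_der s l hv))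
  · rw [hp, h2, map_zero, mul_zero, add_zero]

lemma GG_x (hp : ∀ i m, p i (s.x m) = 0) (m : ℤ) : s.x m ∈ GG (DD s ν) p := by
  refine ⟨fun v hv => ?_, fun i => hp i m⟩
  refine DD_induction s (P := fun v => s.x m * v ∈ DD s ν) ?_ ?_ hv
  · intro a ha g
    rw [← mul_assoc]
    exact DD_mul_mem s _ (Subalgebra.mul_mem _ (x_mem_Sb s m) ha) g
  · intro a b ha hb
    rw [mul_add]
    exact Submodule.add_mem _ ha hb

lemma GG_lin [Nontrivial O] (hK : Kl s.x (ch (fun t => s.z (ζ t)) Finset.univ))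
    (hp : ∀ i t, p i (s.z (ζ t) : O) = 0) (α' β : F) :
    (∏ t, (algebraMap F O α' + algebraMap F O β * s.z (ζ t))) ∈ GG (DD s ν) p := by
  refine ⟨fun v hv => ?_, fun i => ?_⟩
  · refine DD_induction s (P := fun v => _ * v ∈ DD s ν) ?_ ?_ hv
    · intro a ha g
      rw [mul_left_comm, Dp_lin s ζ hK]
      exact DD_mul_mem s _ ha _
    · intro a b ha hb
      rw [mul_add]
      exact Submodule.add_mem _ ha hb
  · rw [der_prod]
    apply Finset.sum_eq_zero
    intro t _
    rw [map_add, Derivation.leibniz, Derivation.map_algebraMap, Derivation.map_algebraMap, hp,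
      smul_zero, smul_zero, add_zero, add_zero, zero_mul]

lemma GG_coeff [CharZero F] [Nontrivial O] (hK : Kl s.x (ch (fun t => s.z (ζ t)) Finset.univ))
    (hp : ∀ i t, p i (s.z (ζ t) : O) = 0) (j : ℕ) :
    (cp (fun t => s.z (ζ t)) Finset.univ).coeff j ∈ GG (DD s ν) p := by
  apply coeff_mem_of_eval (Subalgebra.toSubmodule (GG (DD s ν) p))
  intro τ
  have h := GG_lin s ζ p hK hp τ (-1)
  rw [Subalgebra.mem_toSubmodule]
  convert h using 1
  unfold cp
  rw [Polynomial.eval_prod]
  apply Finset.prod_congr rfl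
  intro t _
  rw [Polynomial.eval_sub, Polynomial.eval_X, Polynomial.eval_C, map_neg, map_one]
  ring

lemma GG_inv [Nontrivial O] (hK : Kl s.x (ch (fun t => s.z (ζ t)) Finset.univ))
    (hp : ∀ i t, p i (s.z (ζ t) : O) = 0) :
    ((∏ t, (s.z (ζ t))⁻¹ : Oˣ) : O) ∈ GG (DD s ν) p := by
  refine ⟨fun v hv => ?_, fun i => ?_⟩
  · refine DD_induction s (P := fun v => _ * v ∈ DD s ν) ?_ ?_ hv
    · intro a ha g
      have h1 := Dp_lin s ζ hK 0 1 (((∏ t, (Z t)⁻¹ : (LP F (Fin ν))ˣ) : LP F (Fin ν)) * g)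
      have h2 : (∏ a, (single 0 (0 : F) + single 0 (1 : F) * ((Z a : (LP F (Fin ν))ˣ) :
          LP F (Fin ν)))) * (((∏ t, (Z t)⁻¹ : (LP F (Fin ν))ˣ) : LP F (Fin ν)) * g) = g := by
        have h3 : (∏ a, (single 0 (0 : F) + single 0 (1 : F) * ((Z a : (LP F (Fin ν))ˣ) :
          LP F (Fin ν)))) = ((∏ t, Z t : (LP F (Fin ν))ˣ) : LP F (Fin ν)) := by
          rw [Units.coe_prod]
          apply Finset.prod_congr rfl
          intro a _
          rw [single_zero, zero_add, ← one_def, one_mul]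
        rw [h3, ← mul_assoc, ← Units.val_mul, ← Finset.prod_mul_distrib]
        simp
      rw [h2] at h1
      rw [← h1]
      have h3 : ((∏ t, (s.z (ζ t))⁻¹ : Oˣ) : O) * (∏ t, (algebraMap F O 0 + algebraMap F O 1 *
          s.z (ζ t))) = 1 := by
        have h4 : (∏ t, (algebraMap F O 0 + algebraMap F O 1 * (s.z (ζ t) : O))) =
            ((∏ t, s.z (ζ t) : Oˣ) : O) := by
          rw [Units.coe_prod]
          apply Finset.prod_congr rfl
          intro a _
          rw [map_zero, map_one, zero_add, one_mul]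
        rw [h4, ← Units.val_mul, ← Finset.prod_mul_distrib]
        simp
      rw [mul_left_comm, ← mul_assoc (((∏ t, (s.z (ζ t))⁻¹ : Oˣ) : O)), h3, one_mul]
      exact DD_mul_mem s _ ha _
    · intro a b ha hb
      rw [mul_add]
      exact Submodule.add_mem _ ha hb
  · rw [Units.coe_prod, der_prod]
    apply Finset.sum_eq_zero
    intro t _
    rw [der_inv, hp, mul_zero, neg_zero, zero_mul]

lemma GG_mul_mem [Nontrivial O] (hK : Kl s.x (ch (fun t => s.z (ζ t)) Finset.univ)) {g : O}
    (hg : g ∈ GG (DD s ν) p) :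
    (∏ t, xf s.x (ch (fun t => s.z (ζ t)) (Finset.univ.erase t))) * g ∈ Sb s := by
  rw [mul_comm]
  exact DD_le s (hg.1 _ (mem_DD_of s (prod_beta_mem s ζ hK)))

end cond

end Run7.h143
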