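import Pool.Agent.Run7.h143.Func

/-!
Determinants: the conductor of the coefficients of the polynomial with the given roots.
-/

set_option autoImplicit false
set_option linter.unusedSectionVars false

namespace Run7.h143

open AddMonoidAlgebra

section dets

variable {O : Type*} [CommRing O] {ν : ℕ} (x : ℤ → O) (r : Fin ν → Oˣ)

/-- The embedding of a one variable polynomial at a variable. -/
noncomputable def io {κ : Type} [Fintype κ] [DecidableEq κ] (a : κ) : LP O Unit →+* LP O κ :=
  lf (singleZeroRingHom : O →+* LP O κ) (fun _ => Z a)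

lemma io_single {κ : Type} [Fintype κ] [DecidableEq κ] (a : κ) (n : Unit → ℤ) (b : O) :
    (io a (single n b) : LP O κ) = single (Pi.single a (n ())) b := by
  unfold io
  rw [lf_single]
  simp only [Finset.univ_unique, Finset.prod_singleton, PUnit.default_eq_unit]
  rw [Z_zpow]
  change single 0 b * _ = _
  rw [single_mul_single, zero_add, mul_one]

lemma io_C {κ : Type} [Fintype κ] [DecidableEq κ] (a : κ) (b : O) :
    (io a (single 0 b) : LP O κ) = single 0 b := by
  rw [io_single]
  simp

lemma io_yy {κ : Type} [Fintype κ] [DecidableEq κ] (a : κ) (n : ℤ) :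
    (io a ((yy ^ n : (LP O Unit)ˣ) : LP O Unit) : LP O κ) = ((Z a ^ n : (LP O κ)ˣ) : LP O κ) := by
  rw [yy_zpow, io_single, Z_zpow]

lemma prod_single_pi {κ : Type} [Fintype κ] [DecidableEq κ] (p : κ → ℤ) (c : κ → O) :
    (∏ a, single (Pi.single a (p a)) (c a) : LP O κ) = single p (∏ a, c a) := by
  rw [prod_single, Finset.univ_sum_single]

/-- The product functional on products of one variable polynomials. -/
lemma E_prod {κ : Type} [Fintype κ] [DecidableEq κ] (g : κ → LP O Unit) :
    E x (∏ a, (io a (g a) : LP O κ)) = ∏ a, xf x (g a) := by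
  classical
  have h1 : ∀ a, g a = ∑ n ∈ (g a).coeff.support, single n ((g a).coeff n) := by
    intro a
    conv_lhs => rw [← sum_coeff_single (g a)]
    rfl
  have h2 : ∀ a, (io a (g a) : LP O κ) =
      ∑ n ∈ (g a).coeff.support, single (Pi.single a (n ())) ((g a).coeff n) := by
    intro a
    conv_lhs => rw [h1 a]
    rw [map_sum]
    exact Finset.sum_congr rfl (fun n _ => io_single a n _)
  have h3 : ∀ a, xf x (g a) = ∑ n ∈ (g a).coeff.support, (g a).coeff n * x (n ()) := by
    intro a
    conv_lhs => rw [h1 a]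
    rw [map_sum]
    exact Finset.sum_congr rfl (fun n _ => xf_single x n _)
  simp_rw [h2, h3]
  rw [Finset.prod_univ_sum, Finset.prod_univ_sum, map_sum]
  apply Finset.sum_congr rfl
  intro p _
  rw [prod_single_pi (fun a => p a ()) (fun a => (g a).coeff (p a)), E_single,
    Finset.prod_mul_distrib]

/-- The Vandermonde determinant of the variables. -/
noncomputable def Vd (C : Type*) [CommRing C] (ν : ℕ) : LP C (Fin ν) :=
  (Matrix.vandermonde (fun a : Fin ν => ((Z a : (LP C (Fin ν))ˣ) : LP C (Fin ν)))).det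

lemma mp_Vd {C C' : Type*} [CommRing C] [CommRing C'] (f : C →+* C') (ν : ℕ) :
    mp f (Vd C ν) = Vd C' ν := by
  unfold Vd
  rw [Matrix.det_vandermonde, Matrix.det_vandermonde, map_prod]
  apply Finset.prod_congr rfl
  intro i _
  rw [map_prod]
  apply Finset.prod_congr rfl
  intro j _
  rw [map_sub, mp_Z, mp_Z]

/-- The determinant of the functional. -/
noncomputable def hd (f g : Fin ν → LP O Unit) : O :=
  (Matrix.of fun a b : Fin ν => xf x (f a * g b)).det

lemma E_Vd (f : Fin ν → LP O Unit) :
    E x ((∏ a, (io a (f a) : LP O (Fin ν))) * Vd O ν) =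
      hd x f (fun b => ((yy ^ ((b : ℕ) : ℤ) : (LP O Unit)ˣ) : LP O Unit)) := by
  unfold hd Vd
  rw [Matrix.det_apply, Matrix.det_apply, Finset.mul_sum, map_sum]
  apply Finset.sum_congr rfl
  intro σ _
  have h1 : (∏ i, Matrix.vandermonde (fun a : Fin ν => ((Z a : (LP O (Fin ν))ˣ) : LP O (Fin ν)))
      (σ i) i) = ∏ a, (io a ((yy ^ (((σ.symm a : Fin ν) : ℕ) : ℤ) : (LP O Unit)ˣ) : LP O Unit) :
        LP O (Fin ν)) := by
    refine Eq.trans ?_ (Equiv.prod_comp σ _)
    apply Finset.prod_congr rfl
    intro i _
    rw [io_yy, Matrix.vandermonde_apply, σ.symm_apply_apply, zpow_natCast,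
      Units.val_pow_eq_pow_val]
  rw [h1, mul_smul_comm, ← Finset.prod_mul_distrib, Units.smul_def, Units.smul_def, map_zsmul]
  congr 1
  simp_rw [← map_mul]
  rw [E_prod]
  refine (Equiv.prod_comp σ _).symm.trans ?_
  apply Finset.prod_congr rfl
  intro i _
  rw [Matrix.of_apply, σ.symm_apply_apply]

/-- Evaluation of polynomials at the variable. -/
noncomputable def pe : Polynomial O →+* LP O Unit :=
  Polynomial.eval₂RingHom (singleZeroRingHom : O →+* LP O Unit) ((yy : (LP O Unit)ˣ) : LP O Unit)

lemma pe_eq_sum {P : Polynomial O} {n : ℕ} (h : P.natDegree < n) :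
    pe P = ∑ k : Fin n, single 0 (P.coeff k) * ((yy ^ ((k : ℕ) : ℤ) : (LP O Unit)ˣ) : LP O Unit) := by
  unfold pe
  rw [Polynomial.coe_eval₂RingHom, Polynomial.eval₂_eq_sum_range' _ h, Finset.sum_range]
  apply Finset.sum_congr rfl
  intro k _
  rw [zpow_natCast, Units.val_pow_eq_pow_val]
  rfl

/-- The polynomial with given roots. -/
noncomputable def cp (T : Finset (Fin ν)) : Polynomial O :=
  ∏ s ∈ T, (Polynomial.X - Polynomial.C (r s : O))

lemma pe_cp (T : Finset (Fin ν)) : pe (cp r T) = ch r T := by
  unfold cp ch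
  rw [map_prod]
  apply Finset.prod_congr rfl
  intro s _
  unfold pe
  simp

lemma cp_monic (T : Finset (Fin ν)) : (cp r T).Monic :=
  Polynomial.monic_prod_of_monic _ _ (fun _ _ => Polynomial.monic_X_sub_C _)

lemma cp_natDegree [Nontrivial O] (T : Finset (Fin ν)) : (cp r T).natDegree = T.card := by
  unfold cp
  rw [Polynomial.natDegree_prod_of_monic _ _ (fun _ _ => Polynomial.monic_X_sub_C _)]
  simp

/-- Change to the Newton basis in the second argument. -/
lemma hd_newton [Nontrivial O] (f : Fin ν → LP O Unit) :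
    hd x f (fun b => ch r (Finset.Iio b)) =
      hd x f (fun b => ((yy ^ ((b : ℕ) : ℤ) : (LP O Unit)ˣ) : LP O Unit)) := by
  unfold hd
  have h1 : (Matrix.of fun a b : Fin ν => xf x (f a * ch r (Finset.Iio b))) =
      (Matrix.of fun a b : Fin ν => xf x (f a * ((yy ^ ((b : ℕ) : ℤ) : (LP O Unit)ˣ) : LP O Unit))) *
      (Matrix.of fun i j : Fin ν => (cp r (Finset.Iio j)).coeff i) := by
    ext a b
    rw [Matrix.mul_apply, Matrix.of_apply, ← pe_cp, pe_eq_sum (n := ν)
      (by rw [cp_natDegree, Fin.card_Iio]; exact b.2), Finset.mul_sum, map_sum]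
    apply Finset.sum_congr rfl
    intro k _
    rw [mul_left_comm, xf_C_mul, Matrix.of_apply, Matrix.of_apply, mul_comm]
  rw [h1, Matrix.det_mul, Matrix.det_matrixOfPolynomials _ (fun i => by
    rw [cp_natDegree, Fin.card_Iio]) (fun i => cp_monic r _), mul_one]

lemma hd_newton' [Nontrivial O] (g : Fin ν → LP O Unit) :
    ∃ e : ℤˣ, hd x (fun a => ch r (Finset.Ioi a)) g = ((e : ℤ) : O) *
      hd x (fun a => ((yy ^ ((a : ℕ) : ℤ) : (LP O Unit)ˣ) : LP O Unit)) g := by
  refine ⟨Equiv.Perm.sign (Fin.revPerm : Equiv.Perm (Fin ν)), ?_⟩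
  unfold hd
  have h2 : (Matrix.of fun i j : Fin ν => (cp r (Finset.Ioi (Fin.rev j))).coeff i).det = 1 :=
    Matrix.det_matrixOfPolynomials _ (fun i => by
      rw [cp_natDegree, Fin.card_Ioi, Fin.val_rev]
      omega) (fun i => cp_monic r _)
  have h3 : (Matrix.of fun a k : Fin ν => (cp r (Finset.Ioi a)).coeff k) =
      ((Matrix.of fun i j : Fin ν => (cp r (Finset.Ioi (Fin.rev j))).coeff i).transpose).submatrix
        (Fin.revPerm : Equiv.Perm (Fin ν)) id := by
    ext a k
    simp
  have h1 : (Matrix.of fun a b : Fin ν => xf x (ch r (Finset.Ioi a) * g b)) =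
      (Matrix.of fun a k : Fin ν => (cp r (Finset.Ioi a)).coeff k) *
      (Matrix.of fun a b : Fin ν => xf x (((yy ^ ((a : ℕ) : ℤ) : (LP O Unit)ˣ) : LP O Unit) * g b)) := by
    ext a b
    rw [Matrix.mul_apply, Matrix.of_apply, ← pe_cp, pe_eq_sum (n := ν)
      (by rw [cp_natDegree, Fin.card_Ioi]; omega), Finset.sum_mul, map_sum]
    apply Finset.sum_congr rfl
    intro k _
    rw [mul_assoc, xf_C_mul, Matrix.of_apply, Matrix.of_apply]
  rw [h1, Matrix.det_mul, h3, Matrix.det_permute, Matrix.det_transpose, h2, mul_one]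

variable {x r}

lemma ch_insert {σ : Type*} [DecidableEq σ] (r : σ → Oˣ) {T : Finset σ} {a : σ} (ha : a ∉ T) :
    ch r (insert a T) = (((yy : (LP O Unit)ˣ) : LP O Unit) - single 0 (r a : O)) * ch r T := by
  unfold ch
  rw [Finset.prod_insert ha]

/-- Multiplication by a linear polynomial. -/
lemma hd_lin (hK : Kl x (ch r Finset.univ)) (f : Fin ν → LP O Unit) (α β : O) :
    hd x (fun a => (single 0 α + single 0 β * ((yy : (LP O Unit)ˣ) : LP O Unit)) * f a)
      (fun b => ch r (Finset.Iio b)) =
    (∏ s, (α + β * r s)) * hd x f (fun b => ch r (Finset.Iio b)) := by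
  unfold hd
  have h1 : (Matrix.of fun a b : Fin ν =>
        xf x ((single 0 α + single 0 β * ((yy : (LP O Unit)ˣ) : LP O Unit)) * f a *
          ch r (Finset.Iio b))) =
      (Matrix.of fun a b : Fin ν => xf x (f a * ch r (Finset.Iio b))) *
      (Matrix.of fun c b : Fin ν => (if c = b then α + β * (r b : O) else 0) +
        (if (c : ℕ) = b + 1 then β else 0)) := by
    ext a b
    rw [Matrix.mul_apply]
    simp only [Matrix.of_apply, mul_add, Finset.sum_add_distrib, mul_ite, mul_zero]
    rw [Finset.sum_ite_eq' Finset.univ b, if_pos (Finset.mem_univ _)]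
    have e1 : (single 0 α + single 0 β * ((yy : (LP O Unit)ˣ) : LP O Unit)) * f a *
        ch r (Finset.Iio b) = single 0 (α + β * (r b : O)) * (f a * ch r (Finset.Iio b)) +
        single 0 β * (f a * ch r (insert b (Finset.Iio b))) := by
      rw [ch_insert r (by simp), single_add]
      have : (single 0 (β * (r b : O)) : LP O Unit) = single 0 β * single 0 (r b : O) := by
        rw [single_mul_single, add_zero]
      rw [this]
      ring
    rw [e1, map_add, xf_C_mul, xf_C_mul]
    have e2 : xf x (f a * ch r (insert b (Finset.Iio b))) =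
        ∑ c : Fin ν, if (c : ℕ) = b + 1 then xf x (f a * ch r (Finset.Iio c)) else 0 := by
      by_cases hb : (b : ℕ) + 1 < ν
      · rw [Finset.sum_eq_single (⟨(b : ℕ) + 1, hb⟩ : Fin ν)]
        · rw [if_pos rfl]
          congr 3
          ext c
          simp only [Finset.mem_insert, Finset.mem_Iio, Fin.lt_def, Fin.ext_iff]
          omega
        · intro c _ hc
          rw [if_neg]
          intro h
          exact hc (Fin.ext h)
        · simp
      · have e3 : insert b (Finset.Iio b) = Finset.univ := by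
          ext c
          simp only [Finset.mem_insert, Finset.mem_Iio, Fin.lt_def, Fin.ext_iff, Finset.mem_univ,
            iff_true]
          omega
        rw [e3, mul_comm, hK, Finset.sum_eq_zero]
        intro c _
        rw [if_neg]
        omega
    rw [e2, Finset.mul_sum, mul_comm (α + β * (r b : O))]
    simp only [mul_add]
    congr 1
    apply Finset.sum_congr rfl
    intro c _
    split_ifs
    · rw [mul_comm]
    · rw [mul_zero]
  rw [h1, Matrix.det_mul, mul_comm]
  congr 1
  rw [Matrix.det_of_isLowerTriangular]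
  · apply Finset.prod_congr rfl
    intro s _
    simp
  · intro i j hij
    have hij' : i < j := hij
    simp only [Matrix.of_apply]
    rw [if_neg hij'.ne, if_neg, add_zero]
    intro h
    rw [Fin.lt_def] at hij'
    omega

/-- The triangular determinant. -/
lemma hd_tri (hK : Kl x (ch r Finset.univ)) :
    hd x (fun a => ch r (Finset.Ioi a)) (fun b => ch r (Finset.Iio b)) =
      ∏ s, xf x (ch r (Finset.univ.erase s)) := by
  unfold hd
  have hd : ∀ a b : Fin ν, ch r (Finset.Ioi a) * ch r (Finset.Iio b) =
      ch r (Finset.Ioi a ∪ Finset.Iio b) * ch r (Finset.Ioi a ∩ Finset.Iio b) := by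
    intro a b
    unfold ch
    exact (Finset.prod_union_inter).symm
  rw [Matrix.det_of_isLowerTriangular]
  · apply Finset.prod_congr rfl
    intro s _
    rw [Matrix.of_apply, hd]
    have e1 : Finset.Ioi s ∪ Finset.Iio s = Finset.univ.erase s := by
      ext c
      simp only [Finset.mem_union, Finset.mem_Ioi, Finset.mem_Iio, Finset.mem_erase,
        Finset.mem_univ, and_true]
      constructor
      · rintro (h | h)
        · exact h.ne'
        · exact h.ne
      · intro h
        exact (lt_or_gt_of_ne h).symm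
    have e2 : Finset.Ioi s ∩ Finset.Iio s = ∅ := by
      ext c
      simp only [Finset.mem_inter, Finset.mem_Ioi, Finset.mem_Iio, Finset.notMem_empty, iff_false]
      intro h
      exact lt_asymm h.1 h.2
    rw [e1, e2]
    simp [ch]
  · intro i j hij
    have hij' : i < j := hij
    rw [Matrix.of_apply, hd]
    have e1 : Finset.Ioi i ∪ Finset.Iio j = Finset.univ := by
      ext c
      simp only [Finset.mem_union, Finset.mem_Ioi, Finset.mem_Iio, Finset.mem_univ, iff_true]
      rcases lt_or_ge i c with h | h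
      · exact Or.inl h
      · exact Or.inr (lt_of_le_of_lt h hij')
    rw [e1]
    exact hK _

end dets

end Run7.h143
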