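import Pool.Agent.Run7.h143.MainAbs

/-!
Functionals on Laurent polynomials given by a sequence, and their compatibility with derivations.
-/

set_option autoImplicit false
set_option linter.unusedSectionVars false

namespace Run7.h143

open AddMonoidAlgebra

section

variable {F : Type*} [Field F] {B : Type*} [CommRing B] [Algebra F B] {κ : Type} [Fintype κ]
  [DecidableEq κ]

/-- The additive map defining the derivations. -/
noncomputable def th (l : ℤ) : (κ → ℤ) →+ LP B κ where
  toFun n := ∑ i, ((n i : ℤ) : LP B κ) * ((Z i ^ (l - 1) : (LP B κ)ˣ) : LP B κ)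
  map_zero' := by simp
  map_add' := by
    intro m n
    rw [← Finset.sum_add_distrib]
    apply Finset.sum_congr rfl
    intro i _
    rw [Pi.add_apply]
    push_cast
    ring

lemma th_apply (l : ℤ) (n : κ → ℤ) : (th l n : LP B κ) =
    ∑ i, ((n i : ℤ) : LP B κ) * ((Z i ^ (l - 1) : (LP B κ)ˣ) : LP B κ) := rfl

/-- The derivations. -/
noncomputable def dd (d : ℤ → Derivation F B B) (l : ℤ) : Derivation F (LP B κ) (LP B κ) :=
  mkD (d l) (th l)

lemma dd_single (d : ℤ → Derivation F B B) (l : ℤ) (n : κ → ℤ) (b : B) :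
    dd d l (single n b) = single n (d l b) + th l n * single n b := mkD_single _ _ _ _

@[simp] lemma dd_C (d : ℤ → Derivation F B B) (l : ℤ) (b : B) :
    dd d l (single (0 : κ → ℤ) b) = single 0 (d l b) := mkD_C _ _ _

@[simp] lemma dd_Z (d : ℤ → Derivation F B B) (l : ℤ) (i : κ) :
    dd d l ((Z i : (LP B κ)ˣ) : LP B κ) = ((Z i ^ l : (LP B κ)ˣ) : LP B κ) := by
  unfold dd
  rw [mkD_Z, th_apply, Finset.sum_eq_single i]
  · rw [Pi.single_eq_same, Int.cast_one, one_mul, ← Units.val_mul, ← zpow_add_one, sub_add_cancel]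
  · intro j _ hj
    rw [Pi.single_eq_of_ne hj, Int.cast_zero, zero_mul]
  · simp

/-- The product functional of a sequence. -/
noncomputable def E (x : ℤ → B) : LP B κ →ₗ[B] B :=
  lin (fun n => LinearMap.toSpanSingleton B B (∏ a, x (n a)))

@[simp] lemma E_single (x : ℤ → B) (n : κ → ℤ) (b : B) : E x (single n b) = b * ∏ a, x (n a) := by
  simp [E]

lemma E_C_mul (x : ℤ → B) (b : B) (t : LP B κ) : E x (single 0 b * t) = b * E x t := by
  have h : (single 0 b * t : LP B κ) = b • t := by
    induction t using AddMonoidAlgebra.induction_linear with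
    | zero => simp
    | add p q hp hq => rw [mul_add, hp, hq, smul_add]
    | single n r => rw [single_mul_single, zero_add, smul_single, smul_eq_mul]
  rw [h, map_smul, smul_eq_mul]

lemma E_zmul (x : ℤ → B) (k : ℤ) (t : LP B κ) : E x ((k : LP B κ) * t) = (k : B) * E x t := by
  rw [← zsmul_eq_mul, map_zsmul, zsmul_eq_mul]

lemma E_der (d : ℤ → Derivation F B B) {x : ℤ → B}
    (hx : ∀ l m, d l (x m) = ((m - l : ℤ) : B) * x (m + l - 1)) (l : ℤ) (t : LP B κ) :
    d l (E x t) = E x (dd d l t -
      (∑ a, ((l : ℤ) : LP B κ) * ((Z a ^ (l - 1) : (LP B κ)ˣ) : LP B κ)) * t) := by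
  induction t using AddMonoidAlgebra.induction_linear with
  | zero => simp
  | add p q hp hq =>
    rw [map_add, map_add, hp, hq, map_add, ← map_add]
    congr 1
    ring
  | single n b =>
    have key : ∀ a, E x (((Z a ^ (l - 1) : (LP B κ)ˣ) : LP B κ) * single n b) =
        b * (x (n a + l - 1) * ∏ c ∈ Finset.univ.erase a, x (n c)) := by
      intro a
      rw [Z_zpow, single_mul_single, one_mul, E_single, ← Finset.mul_prod_erase _ _ (Finset.mem_univ a)]
      congr 2
      · rw [Pi.add_apply, Pi.single_eq_same]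
        congr 1
        ring
      · apply Finset.prod_congr rfl
        intro c hc
        rw [Pi.add_apply, Pi.single_eq_of_ne (Finset.ne_of_mem_erase hc), zero_add]
    rw [dd_single, th_apply, E_single, Derivation.leibniz, der_prod, smul_eq_mul, smul_eq_mul,
      add_sub_assoc, ← sub_mul, map_add, E_single, ← Finset.sum_sub_distrib, Finset.sum_mul, map_sum,
      Finset.mul_sum, add_comm]
    congr 1
    · rw [mul_comm]
    · apply Finset.sum_congr rfl
      intro a _
      rw [hx, ← sub_mul, ← Int.cast_sub]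
      have e1 : E x (((n a - l : ℤ) : LP B κ) * ((Z a ^ (l - 1) : (LP B κ)ˣ) : LP B κ) * single n b) =
          ((n a - l : ℤ) : B) * (b * (x (n a + l - 1) * ∏ c ∈ Finset.univ.erase a, x (n c))) := by
        rw [mul_assoc, E_zmul, key]
      rw [e1]
      ring

/-- Change of coefficients. -/
noncomputable def mp {B' : Type*} [CommRing B'] (f : B →+* B') : LP B κ →+* LP B' κ :=
  mapRingHom (κ → ℤ) f

@[simp] lemma mp_single {B' : Type*} [CommRing B'] (f : B →+* B') (n : κ → ℤ) (b : B) :
    mp f (single n b) = single n (f b) := by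
  simp [mp]

@[simp] lemma mp_Z {B' : Type*} [CommRing B'] (f : B →+* B') (i : κ) :
    mp f ((Z i : (LP B κ)ˣ) : LP B κ) = ((Z i : (LP B' κ)ˣ) : LP B' κ) := by
  rw [Z_val, mp_single, map_one, Z_val]

lemma mp_map_Z {B' : Type*} [CommRing B'] (f : B →+* B') (i : κ) :
    Units.map ((mp f : LP B κ →+* LP B' κ) : LP B κ →* LP B' κ) (Z i) = (Z i : (LP B' κ)ˣ) := by
  ext1
  exact mp_Z f i

lemma mp_Zz {B' : Type*} [CommRing B'] (f : B →+* B') (i : κ) (n : ℤ) :
    mp f ((Z i ^ n : (LP B κ)ˣ) : LP B κ) = ((Z i ^ n : (LP B' κ)ˣ) : LP B' κ) := by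
  rw [Z_zpow, mp_single, map_one, Z_zpow]

lemma E_map {B' : Type*} [CommRing B'] (f : B →+* B') (x : ℤ → B) (t : LP B κ) :
    f (E x t) = E (fun m => f (x m)) (mp f t) := by
  induction t using AddMonoidAlgebra.induction_linear with
  | zero => simp
  | add p q hp hq => rw [map_add, map_add, hp, hq, map_add, map_add]
  | single n b => rw [E_single, mp_single, E_single, map_mul, map_prod]

/-- The constants, as units. -/
noncomputable def Cu (u : Bˣ) : (LP B κ)ˣ :=
  Units.map (singleZeroRingHom : B →+* LP B κ).toMonoidHom u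

lemma Cu_val (u : Bˣ) : ((Cu u : (LP B κ)ˣ) : LP B κ) = single 0 (u : B) := rfl

lemma Cu_zpow (u : Bˣ) (n : ℤ) : ((Cu u ^ n : (LP B κ)ˣ) : LP B κ) = single 0 ((u ^ n : Bˣ) : B) := by
  unfold Cu
  rw [← map_zpow]
  rfl

end

section one

variable {F : Type*} [Field F] {B : Type*} [CommRing B] [Algebra F B]

/-- The functional of a sequence. -/
noncomputable def xf (x : ℤ → B) : LP B Unit →ₗ[B] B := E x

@[simp] lemma xf_single (x : ℤ → B) (n : Unit → ℤ) (b : B) : xf x (single n b) = b * x (n ()) := by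
  simp [xf]

/-- The variable. -/
noncomputable abbrev yy : (LP B Unit)ˣ := Z ()

lemma yy_zpow (n : ℤ) : ((yy ^ n : (LP B Unit)ˣ) : LP B Unit) = single (fun _ => n) 1 := by
  rw [Z_zpow]
  congr 1

lemma xf_yy (x : ℤ → B) (n : ℤ) : xf x ((yy ^ n : (LP B Unit)ˣ) : LP B Unit) = x n := by
  rw [yy_zpow, xf_single, one_mul]

lemma xf_C_mul (x : ℤ → B) (b : B) (t : LP B Unit) : xf x (single 0 b * t) = b * xf x t :=
  E_C_mul x b t

/-- Induction for one variable. -/
lemma LP1_induction {P : LP B Unit → Prop} (p : LP B Unit) (h0 : P 0)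
    (hadd : ∀ p q, P p → P q → P (p + q))
    (hm : ∀ (b : B) (n : ℤ), P (single 0 b * ((yy ^ n : (LP B Unit)ˣ) : LP B Unit))) : P p := by
  induction p using AddMonoidAlgebra.induction_linear with
  | zero => exact h0
  | add p q hp hq => exact hadd p q hp hq
  | single n b =>
    have h := hm b (n ())
    rw [yy_zpow, single_mul_single, mul_one, zero_add] at h
    exact h

/-- Evaluation. -/
noncomputable def ev1 (u : Bˣ) : LP B Unit →+* B := lf (RingHom.id B) (fun _ => u)

@[simp] lemma ev1_C (u : Bˣ) (b : B) : ev1 u (single 0 b) = b := by simp [ev1]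

lemma ev1_yy (u : Bˣ) (n : ℤ) : ev1 u ((yy ^ n : (LP B Unit)ˣ) : LP B Unit) = ((u ^ n : Bˣ) : B) := by
  simp [ev1]

@[simp] lemma ev1_y (u : Bˣ) : ev1 u ((yy : (LP B Unit)ˣ) : LP B Unit) = u := by
  simp [ev1]

lemma ev1_map_y (u : Bˣ) : Units.map (ev1 u : LP B Unit →* B) yy = u := by
  ext; exact ev1_y u

lemma ev1_map_C (u v : Bˣ) : Units.map (ev1 u : LP B Unit →* B) (Cu v) = v := by
  ext; exact ev1_C u v

/-- Division by `y - u`. -/
noncomputable def dv (u : Bˣ) : LP B Unit →ₗ[B] LP B Unit :=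
  lin (fun n => LinearMap.toSpanSingleton B (LP B Unit) (gg (n ()) yy (Cu u)))

lemma smul_eq_C (b : B) (t : LP B Unit) : b • t = single 0 b * t := by
  induction t using AddMonoidAlgebra.induction_linear with
  | zero => simp
  | add p q hp hq => rw [mul_add, ← hp, ← hq, smul_add]
  | single n r => rw [single_mul_single, zero_add, smul_single, smul_eq_mul]

lemma dv_single (u : Bˣ) (n : Unit → ℤ) (b : B) :
    dv u (single n b) = single 0 b * gg (n ()) yy (Cu u) := by
  unfold dv
  rw [lin_single, LinearMap.toSpanSingleton_apply, smul_eq_C]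

lemma div_eq (u : Bˣ) (q : LP B Unit) :
    q = single 0 (ev1 u q) + dv u q * (((yy : (LP B Unit)ˣ) : LP B Unit) - single 0 (u : B)) := by
  induction q using AddMonoidAlgebra.induction_linear with
  | zero => simp
  | add p q hp hq =>
    rw [map_add, map_add, single_add]
    linear_combination hp + hq
  | single n b =>
    have h := gg_mul (n ()) (yy : (LP B Unit)ˣ) (Cu u)
    rw [Cu_val, Cu_zpow, yy_zpow] at h
    rw [dv_single, mul_assoc, h]
    have h2 : ev1 u (single n b) = b * ((u ^ n () : Bˣ) : B) := by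
      unfold ev1
      rw [lf_single]
      simp
    rw [h2, mul_sub, single_mul_single, single_mul_single, zero_add, mul_one, zero_add]
    abel

/-- An element killed by the functional. -/
def Kl (x : ℤ → B) (q : LP B Unit) : Prop := ∀ p, xf x (q * p) = 0

lemma Kl.mul {x : ℤ → B} {q : LP B Unit} (h : Kl x q) (p : LP B Unit) : Kl x (q * p) := by
  intro r; rw [mul_assoc]; exact h _

lemma Kl.mul' {x : ℤ → B} {q : LP B Unit} (h : Kl x q) (p : LP B Unit) : Kl x (p * q) := by
  rw [mul_comm]; exact h.mul p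

lemma Kl_of {x : ℤ → B} {q : LP B Unit}
    (h : ∀ m : ℤ, xf x (q * ((yy ^ m : (LP B Unit)ˣ) : LP B Unit)) = 0) : Kl x q := by
  intro p
  induction p using LP1_induction with
  | h0 => simp
  | hadd p r hp hr => rw [mul_add, map_add, hp, hr, add_zero]
  | hm b n => rw [mul_left_comm, xf_C_mul, h, mul_zero]

/-- Evaluation through the functional. -/
lemma xf_eval {x : ℤ → B} {p : LP B Unit} (u : Bˣ)
    (h : Kl x ((((yy : (LP B Unit)ˣ) : LP B Unit) - single 0 (u : B)) * p)) (q : LP B Unit) :
    xf x (q * p) = ev1 u q * xf x p := by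
  conv_lhs => rw [div_eq u q]
  rw [add_mul, map_add, xf_C_mul]
  have : xf x (dv u q * (((yy : (LP B Unit)ˣ) : LP B Unit) - single 0 (u : B)) * p) = 0 := by
    rw [mul_assoc, mul_comm]; exact h _
  rw [this, add_zero]

/-- Products of linear factors. -/
noncomputable def ch {σ : Type*} (r : σ → Bˣ) (T : Finset σ) : LP B Unit :=
  ∏ s ∈ T, (((yy : (LP B Unit)ˣ) : LP B Unit) - single 0 (r s : B))

lemma mp_ch {B' : Type*} [CommRing B'] (f : B →+* B') {σ : Type*} (r : σ → Bˣ) (T : Finset σ) :
    mp f (ch r T) = ch (fun s => Units.map (f : B →* B') (r s)) T := by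
  unfold ch
  rw [map_prod]
  apply Finset.prod_congr rfl
  intro s _
  rw [map_sub, mp_Z, mp_single]
  rfl

lemma xf_map {B' : Type*} [CommRing B'] (f : B →+* B') (x : ℤ → B) (t : LP B Unit) :
    f (xf x t) = xf (fun m => f (x m)) (mp f t) := E_map f x t

end one

section sys

variable {F : Type*} [Field F] {ι : Type} {O : Type*} [CommRing O] [Algebra F O]

/-- The extension of a system by a variable. -/
noncomputable def Sys.ext (s : Sys F ι O) : Sys F (ι ⊕ Unit) (LP O Unit) where
  z := Sum.elim (fun i => Cu (s.z i)) (fun _ => yy)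
  x m := single 0 (s.x m)
  d := dd s.d
  dz := by
    intro l i
    rcases i with i | i
    · simp only [Sum.elim_inl]
      rw [Cu_val, dd_C, s.dz, Cu_zpow]
    · simp only [Sum.elim_inr]
      rw [dd_Z]
  dx := by
    intro l m
    rw [dd_C, s.dx]
    have h : (((m - l : ℤ)) : LP O Unit) = single 0 ((m - l : ℤ) : O) :=
      (map_intCast (singleZeroRingHom : O →+* LP O Unit) (m - l)).symm
    rw [h, single_mul_single, add_zero]

variable (s : Sys F ι O) {σ : Type*} (ζ : σ → ι)

lemma SI_ch (T : Finset σ) : SI s.ext (ch (fun t => s.z (ζ t)) T)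
    (∑ t ∈ T, fun l => gg l yy (Cu (s.z (ζ t)))) :=
  SI.prod (fun t _ => SI.sub_z s.ext (Sum.inr ()) (Sum.inl (ζ t)))

lemma xf_der (l : ℤ) (t : LP O Unit) :
    s.d l (xf s.x t) = xf s.x (s.ext.d l t - ((l : ℤ) : LP O Unit) *
      ((yy ^ (l - 1) : (LP O Unit)ˣ) : LP O Unit) * t) := by
  have := E_der s.d s.dx l t
  simp only [Finset.univ_unique, Finset.sum_singleton] at this
  exact this

/-- Semi-invariance of the values at products of linear factors. -/
lemma SI_beta [DecidableEq σ] (T : Finset σ) {a : σ} (ha : a ∉ T)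
    (h : Kl s.x (ch (fun t => s.z (ζ t)) (insert a T))) :
    SI s (xf s.x (ch (fun t => s.z (ζ t)) T)) ((∑ t ∈ T, fun l => gg l (s.z (ζ a)) (s.z (ζ t))) +
      fun l => - gg l (s.z (ζ a)) (s.z (ζ a))) := by
  intro l
  rw [xf_der, SI_ch s ζ T l, ← sub_mul]
  have h' : Kl s.x ((((yy : (LP O Unit)ˣ) : LP O Unit) - single 0 (s.z (ζ a) : O)) *
      ch (fun t => s.z (ζ t)) T) := by
    unfold ch at h ⊢
    rwa [Finset.prod_insert ha] at h
  rw [xf_eval _ h']
  congr 1
  rw [map_sub, map_mul, ev1_yy, map_intCast, Finset.sum_apply, map_sum, Pi.add_apply,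
    Finset.sum_apply, gg_self, sub_eq_add_neg]
  congr 1
  apply Finset.sum_congr rfl
  intro t _
  rw [gg_map, ev1_map_y, ev1_map_C]

end sys

end Run7.h143
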