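import Pool.Agent.Run7.h143.Pts

/-!
The kernel of the differential operator.
-/

set_option autoImplicit false
set_option linter.unusedSectionVars false
set_option linter.unusedSimpArgs false
set_option linter.unusedVariables false

namespace Run7.h143

open AddMonoidAlgebra

variable {F : Type*} [Field F] {ι : Type} [Fintype ι] [DecidableEq ι] {ν : ℕ} (ζ : Fin ν → ι)

lemma pd_comm (i j : ι) (v : PR F ι) : pd F i (pd F j v) = pd F j (pd F i v) := by
  have h : ⁅pd F i, pd F j⁆ = 0 := by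
    apply der_ext (sP F ι) sP_gen
    · intro m
      rw [Derivation.commutator_apply, pd_x, pd_x, map_zero, map_zero, sub_zero,
        Derivation.zero_apply]
    · intro k
      rw [Derivation.commutator_apply, pd_z, pd_z]
      split_ifs <;> simp
  have h1 := congrArg (fun D : Derivation F (PR F ι) (PR F ι) => D v) h
  simp only [Derivation.commutator_apply, Derivation.zero_apply] at h1
  exact sub_eq_zero.mp h1

/-- The local data on the polynomial algebra. -/
noncomputable def locP (F : Type*) [Field F] {ι : Type} [Fintype ι] [DecidableEq ι] {ν : ℕ}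
    (ζ : Fin ν → ι) (w : ι → ℤ) : Loc F (NR ζ) (PR F ι) where
  z a := (sP F ι).z a.1
  ε := 0
  p a := pd F a.1
  pz a b := by
    rw [pd_z]
    by_cases h : a = b
    · rw [if_pos h, if_pos (by rw [h])]
    · rw [if_neg h, if_neg (fun h' => h (Subtype.ext h'))]
  pε a b h := map_zero _
  pp a b v := pd_comm _ _ v
  w a := w a.1

lemma mk_ws (w : ι → ℤ) {κ : ℕ} (φ : Fin κ → NR ζ) (v : PR F ι) :
    Ideal.Quotient.mkₐ F (nn ζ : Ideal (PR F ι)) ((locP F ζ w).ws φ v) =
      ((zd F ζ).loc w).ws φ (Ideal.Quotient.mkₐ F (nn ζ : Ideal (PR F ι)) v) := by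
  induction κ with
  | zero => simp [Loc.ws]
  | succ κ ih =>
    rw [Loc.ws_succ, Loc.ws_succ, ← ih]
    generalize (locP F ζ w).ws (fun a => φ a.succ) v = y
    by_cases hw : w (φ 0).1 = 0
    · have h1 : (locP F ζ w).Dl (φ 0) = (pd F (φ 0).1 : PR F ι →ₗ[F] PR F ι) := if_pos hw
      have h2 : ((zd F ζ).loc w).Dl (φ 0) = ((zd F ζ).p (φ 0) : _ →ₗ[F] _) := if_pos hw
      rw [h1, h2]
      exact (pq_apply ζ (φ 0).1 (φ 0).2 y).symm
    · have h1 : (locP F ζ w).Dl (φ 0) = 1 := if_neg hw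
      have h2 : ((zd F ζ).loc w).Dl (φ 0) = 1 := if_neg hw
      rw [h1, h2]
      rfl

/-- The factors of the operator. -/
noncomputable def zh (w : ι → ℤ) (a : NR ζ) : PR F ι :=
  if w a.1 = 0 then ((sP F ι).z a.1 : PR F ι) else 1

/-- The differential operator on the polynomial algebra. -/
noncomputable def DP (F : Type*) [Field F] {ι : Type} [Fintype ι] [DecidableEq ι] {ν : ℕ}
    (ζ : Fin ν → ι) (w : ι → ℤ) {κ : ℕ} (e0 : Fin κ ≃ NR ζ) : PR F ι →ₗ[F] PR F ι :=
  LinearMap.mulLeft F (∏ a, zh ζ w a) ∘ₗ (locP F ζ w).ws e0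

lemma mk_DP (w : ι → ℤ) {κ : ℕ} (e0 : Fin κ ≃ NR ζ) (v : PR F ι) :
    Ideal.Quotient.mkₐ F (nn ζ : Ideal (PR F ι)) (DP F ζ w e0 v) =
      (zd F ζ).Dz w e0 (Ideal.Quotient.mkₐ F (nn ζ : Ideal (PR F ι)) v) := by
  rw [Zd.Dz_apply, ← mk_ws]
  unfold DP
  rw [LinearMap.comp_apply, LinearMap.mulLeft_apply, map_mul, map_prod]
  congr 1
  apply Finset.prod_congr rfl
  intro a _
  unfold zh
  by_cases h : w a.1 = 0
  · have h' : w ((zd F ζ).j a) = 0 := h
    rw [if_pos h, if_pos h']; rfl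
  · have h' : ¬ w ((zd F ζ).j a) = 0 := h
    rw [if_neg h, if_neg h', map_one]

/-- The eigenvalues. -/
def eg (w : ι → ℤ) {κ : ℕ} (φ : Fin κ → NR ζ) (n : ι → ℤ) : ℤ :=
  ∏ a, if w (φ a).1 = 0 then n (φ a).1 else 1

lemma ws_single (w : ι → ℤ) {κ : ℕ} (φ : Fin κ → NR ζ) (hφ : Function.Injective φ) (n : ι → ℤ)
    (b : SA F) : (∏ a, zh ζ w (φ a)) * (locP F ζ w).ws φ (single n b) =
      eg ζ w φ n • (single n b : PR F ι) := by
  induction κ with
  | zero => simp [Loc.ws, eg]
  | succ κ ih =>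
    have ih' := ih (fun a => φ a.succ) (hφ.comp (Fin.succ_injective κ))
    have h0 : (locP F ζ w).p (φ 0) (∏ a : Fin κ, zh ζ w (φ a.succ)) = 0 := by
      change pd F (φ 0).1 _ = 0
      rw [der_prod]
      apply Finset.sum_eq_zero
      intro a _
      unfold zh
      split_ifs
      · rw [pd_z, if_neg (fun h => (Fin.succ_ne_zero a) (hφ (Subtype.ext h)).symm), zero_mul]
      · rw [Derivation.map_one_eq_zero, zero_mul]
    rw [Fin.prod_univ_succ, Loc.ws_succ, mul_assoc, ← Loc.Dl_mul _ h0, ih', map_zsmul]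
    unfold eg
    rw [Fin.prod_univ_succ, mul_comm (if w (φ 0).1 = 0 then n (φ 0).1 else 1), mul_smul, mul_smul_comm]
    congr 1
    unfold zh
    by_cases hw : w (φ 0).1 = 0
    · have h1 : (locP F ζ w).Dl (φ 0) = (pd F (φ 0).1 : PR F ι →ₗ[F] PR F ι) := if_pos hw
      rw [if_pos hw, if_pos hw, h1, Derivation.coeFn_coe, pd_single, mul_smul_comm]
      congr 1
      change ((Z (φ 0).1 : (PR F ι)ˣ) : PR F ι) * _ = _
      rw [Z_val, single_mul_single, one_mul, add_sub_cancel]
    · have h1 : (locP F ζ w).Dl (φ 0) = 1 := if_neg hw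
      rw [if_neg hw, if_neg hw, h1, one_mul, one_smul]
      rfl

lemma DP_single (w : ι → ℤ) {κ : ℕ} (e0 : Fin κ ≃ NR ζ) (n : ι → ℤ) (b : SA F) :
    DP F ζ w e0 (single n b) = eg ζ w e0 n • (single n b : PR F ι) := by
  rw [← ws_single ζ w e0 e0.injective]
  unfold DP
  rw [LinearMap.comp_apply, LinearMap.mulLeft_apply]
  congr 1
  exact (Equiv.prod_comp e0 (fun a => (zh ζ w a : PR F ι))).symm

lemma DP_coeff (w : ι → ℤ) {κ : ℕ} (e0 : Fin κ ≃ NR ζ) (v : PR F ι) (n : ι → ℤ) :
    (DP F ζ w e0 v).coeff n = eg ζ w e0 n • v.coeff n := by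
  induction v using AddMonoidAlgebra.induction_linear with
  | zero => simp
  | add p q hp hq =>
    rw [map_add, coeff_add, coeff_add, Finsupp.add_apply, Finsupp.add_apply, hp, hq, smul_add]
  | single m b =>
    rw [DP_single, coeff_smul, Finsupp.smul_apply, coeff_single]
    by_cases hmn : m = n
    · rw [hmn]
    · rw [Finsupp.single_eq_of_ne (Ne.symm hmn), smul_zero, smul_zero]

lemma DP_Dg [CharZero F] (w : ι → ℤ) {κ : ℕ} (e0 : Fin κ ≃ NR ζ) (f : PR F ι) :
    ∃ q : Polynomial F, q.eval 0 ≠ 0 ∧ DP F ζ w e0 (Polynomial.aeval (DP F ζ w e0) q f) = 0 := by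
  induction f using AddMonoidAlgebra.induction_linear with
  | zero => exact ⟨1, by simp, by simp⟩
  | add f g hf hg =>
    obtain ⟨q, hq0, hq⟩ := hf
    obtain ⟨r, hr0, hr⟩ := hg
    refine ⟨q * r, by rw [Polynomial.eval_mul]; exact mul_ne_zero hq0 hr0, ?_⟩
    have e1 : ∀ (q r : Polynomial F) (f : PR F ι), DP F ζ w e0 (Polynomial.aeval (DP F ζ w e0) q f) = 0 →
        DP F ζ w e0 (Polynomial.aeval (DP F ζ w e0) (q * r) f) = 0 := by
      intro q r f h
      have h1 : DP F ζ w e0 (Polynomial.aeval (DP F ζ w e0) (q * r) f) =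
          Polynomial.aeval (DP F ζ w e0) r (DP F ζ w e0 (Polynomial.aeval (DP F ζ w e0) q f)) := by
        have h2 : (DP F ζ w e0) * (Polynomial.aeval (DP F ζ w e0) (q * r)) =
            Polynomial.aeval (DP F ζ w e0) r * (DP F ζ w e0 * Polynomial.aeval (DP F ζ w e0) q) := by
          have h3 : (DP F ζ w e0) = Polynomial.aeval (DP F ζ w e0) (Polynomial.X : Polynomial F) := by
            rw [Polynomial.aeval_X]
          conv_lhs => rw [h3]
          conv_rhs => rw [h3]
          simp only [Polynomial.aeval_X]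
          conv_lhs => rw [← Polynomial.aeval_X (R := F) (DP F ζ w e0)]
          rw [Polynomial.aeval_X]
          rw [map_mul]
          have h4 : Commute (DP F ζ w e0) (Polynomial.aeval (DP F ζ w e0) r) := by
            have := Commute.all (Polynomial.X : Polynomial F) r
            have h5 := this.map (Polynomial.aeval (DP F ζ w e0))
            rwa [Polynomial.aeval_X] at h5
          have h5 : Commute (Polynomial.aeval (DP F ζ w e0) q) (Polynomial.aeval (DP F ζ w e0) r) :=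
            (Commute.all q r).map (Polynomial.aeval (DP F ζ w e0))
          rw [h5.eq, ← mul_assoc, h4.eq, mul_assoc]
        exact congrArg (fun T : Module.End F (PR F ι) => T f) h2
      rw [h1, h, map_zero]
    rw [map_add, map_add, e1 q r f hq, mul_comm q r, e1 r q g hr, add_zero]
  | single n b =>
    by_cases hc : eg ζ w e0 n = 0
    · refine ⟨1, by simp, ?_⟩
      rw [map_one, Module.End.one_apply, DP_single, hc, zero_smul]
    · refine ⟨Polynomial.X - Polynomial.C ((eg ζ w e0 n : ℤ) : F), ?_, ?_⟩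
      · rw [Polynomial.eval_sub, Polynomial.eval_X, Polynomial.eval_C, zero_sub, neg_ne_zero,
          Int.cast_ne_zero]
        exact hc
      · rw [map_sub, Polynomial.aeval_X, Polynomial.aeval_C, LinearMap.sub_apply,
          Module.algebraMap_end_apply, DP_single, Int.cast_smul_eq_zsmul, sub_self, map_zero]

lemma mk_aeval (w : ι → ℤ) {κ : ℕ} (e0 : Fin κ ≃ NR ζ) (q : Polynomial F) (f : PR F ι) :
    Ideal.Quotient.mkₐ F (nn ζ : Ideal (PR F ι)) (Polynomial.aeval (DP F ζ w e0) q f) =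
      Polynomial.aeval ((zd F ζ).Dz w e0) q (Ideal.Quotient.mkₐ F (nn ζ : Ideal (PR F ι)) f) := by
  induction q using Polynomial.induction_on generalizing f with
  | C a =>
    rw [Polynomial.aeval_C, Polynomial.aeval_C, Module.algebraMap_end_apply,
      Module.algebraMap_end_apply, map_smul]
  | add p q hp hq =>
    rw [map_add, map_add, LinearMap.add_apply, LinearMap.add_apply, map_add, hp, hq]
  | monomial n a ih =>
    have e1 : ∀ {V : Type _} [AddCommGroup V] [Module F V] (D : Module.End F V) (v : V),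
        Polynomial.aeval D (Polynomial.C a * Polynomial.X ^ (n + 1)) v =
          Polynomial.aeval D (Polynomial.C a * Polynomial.X ^ n) (D v) := by
      intro V _ _ D v
      rw [pow_succ, ← mul_assoc, map_mul, Polynomial.aeval_X, Module.End.mul_apply]
    refine (congrArg (Ideal.Quotient.mkₐ F (nn ζ : Ideal (PR F ι)))
      (e1 (DP F ζ w e0) f)).trans ?_
    rw [ih, mk_DP]
    exact (e1 ((zd F ζ).Dz w e0) _).symm

lemma Dz_Dg [CharZero F] (w : ι → ℤ) {κ : ℕ} (e0 : Fin κ ≃ NR ζ)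
    (f : PR F ι ⧸ (nn ζ : Ideal (PR F ι))) :
    ∃ q : Polynomial F, q.eval 0 ≠ 0 ∧
      (zd F ζ).Dz w e0 (Polynomial.aeval ((zd F ζ).Dz w e0) q f) = 0 := by
  obtain ⟨f, rfl⟩ := Ideal.Quotient.mkₐ_surjective F (nn ζ : Ideal (PR F ι)) f
  obtain ⟨q, hq0, hq⟩ := DP_Dg ζ w e0 f
  refine ⟨q, hq0, ?_⟩
  rw [← mk_aeval, ← mk_DP, hq, map_zero]

/-- The image of the weights. -/
lemma mk_wt (w : ι → ℤ) (l : ℤ) : Ideal.Quotient.mkₐ F (nn ζ : Ideal (PR F ι)) (wt (sP F ι) w l) =
    wt (sQ F ι ζ) w l := by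
  unfold wt
  rw [map_sum]
  apply Finset.sum_congr rfl
  intro i _
  rw [map_mul, map_mul, map_intCast, map_intCast]
  congr 2
  have h1 : ((sQ F ι ζ).z i) ^ (l - 1) = Units.map ((Ideal.Quotient.mk (nn ζ : Ideal (PR F ι)) :
      PR F ι →+* PR F ι ⧸ (nn ζ : Ideal (PR F ι))) : PR F ι →* PR F ι ⧸ (nn ζ : Ideal (PR F ι)))
      ((sP F ι).z i ^ (l - 1)) := by
    rw [map_zpow, mk_units]
  rw [h1]
  rfl

lemma DP_nF (w : ι → ℤ) {κ : ℕ} (e0 : Fin κ ≃ NR ζ) {v : PR F ι} (hv : v ∈ nF F ζ) :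
    DP F ζ w e0 v ∈ nF F ζ := by
  rw [← mk_nF] at hv ⊢
  rw [mk_DP, hv, map_zero]

/-- The sum of the relations and the subalgebras missing a point. -/
noncomputable def MM (F : Type*) [Field F] {ι : Type} [Fintype ι] [DecidableEq ι] {ν : ℕ}
    (ζ : Fin ν → ι) (T : Finset (NR ζ)) : Submodule F (PR F ι) :=
  nF F ζ ⊔ ⨆ a ∈ T, LinearMap.range (mu F (Subtype.val : Rm a.1 → ι)).toLinearMap

lemma ker_le [CharZero F] (w : ι → ℤ) {κ : ℕ} (e0 : Fin κ ≃ NR ζ) {v : PR F ι}
    (hv : DP F ζ w e0 v ∈ nF F ζ) :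
    v ∈ MM F ζ (Finset.univ.filter (fun a : NR ζ => w a.1 = 0)) := by
  -- elements of the kernel
  have hk : ∀ v : PR F ι, DP F ζ w e0 v = 0 → v ∈ MM F ζ (Finset.univ.filter
      (fun a : NR ζ => w a.1 = 0)) := by
    intro v hv
    rw [← sum_coeff_single v, Finsupp.sum]
    apply Submodule.sum_mem
    intro n hn
    rw [Finsupp.mem_support_iff] at hn
    have h1 := DP_coeff ζ w e0 v n
    rw [hv, coeff_zero, Finsupp.zero_apply] at h1
    have h2 : eg ζ w e0 n = 0 := by
      by_contra hne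
      rw [← Int.cast_smul_eq_zsmul F] at h1
      rcases smul_eq_zero.mp h1.symm with h3 | h3
      · exact hne (Int.cast_eq_zero.mp h3)
      · exact hn h3
    unfold eg at h2
    rw [Finset.prod_eq_zero_iff] at h2
    obtain ⟨k, _, hk⟩ := h2
    by_cases hw : w (e0 k).1 = 0
    · rw [if_pos hw] at hk
      apply Submodule.mem_sup_right
      apply Submodule.mem_iSup_of_mem (e0 k)
      apply Submodule.mem_iSup_of_mem (by simp [hw])
      exact mem_range_mu _ hk _
    · rw [if_neg hw] at hk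
      exact absurd hk one_ne_zero
  obtain ⟨q, hq0, hq⟩ := DP_Dg ζ w e0 v
  have hpow : ∀ p : Polynomial F, ∀ u ∈ nF F ζ, Polynomial.aeval (DP F ζ w e0) p u ∈ nF F ζ := by
    intro p
    induction p using Polynomial.induction_on with
    | C a =>
      intro u hu
      rw [Polynomial.aeval_C]
      exact Submodule.smul_mem _ a hu
    | add p q hp hq =>
      intro u hu
      rw [map_add]; exact Submodule.add_mem _ (hp u hu) (hq u hu)
    | monomial n a ih =>
      intro u hu
      rw [pow_succ, ← mul_assoc, map_mul, Polynomial.aeval_X]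
      exact ih _ (DP_nF ζ w e0 hu)
  have e1 : Polynomial.aeval (DP F ζ w e0) q v = Polynomial.aeval (DP F ζ w e0) q.divX (DP F ζ w e0 v) +
      (q.eval 0) • v := by
    conv_lhs => rw [← Polynomial.divX_mul_X_add q]
    rw [map_add, map_mul, Polynomial.aeval_X, Polynomial.aeval_C, Polynomial.coeff_zero_eq_eval_zero]
    rfl
  have e2 : (q.eval 0) • v = Polynomial.aeval (DP F ζ w e0) q v -
      Polynomial.aeval (DP F ζ w e0) q.divX (DP F ζ w e0 v) := by
    rw [e1]; abel
  rw [← Submodule.smul_mem_iff _ hq0, e2]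
  exact Submodule.sub_mem _ (hk _ hq) (Submodule.mem_sup_left (hpow _ _ hv))

lemma Stab_MM (w : ι → ℤ) (T : Finset (NR ζ)) (hT : ∀ a ∈ T, w a.1 = 0) :
    Stab (sP F ι) (wt (sP F ι) w) (MM F ζ T) := by
  classical
  induction T using Finset.induction_on with
  | empty =>
    have : MM F ζ ∅ = nF F ζ := by simp [MM]
    rw [this]
    exact Stab_nF ζ _
  | insert a T ha ih =>
    have h1 : MM F ζ (insert a T) = MM F ζ T ⊔
        LinearMap.range (mu F (Subtype.val : Rm a.1 → ι)).toLinearMap := by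
      unfold MM
      rw [Finset.iSup_insert, sup_left_comm, sup_comm]
    rw [h1]
    apply (ih (fun b hb => hT b (Finset.mem_insert_of_mem hb))).sup
    rw [← Submodule.map_top]
    refine (mu_hom (Subtype.val : Rm a.1 → ι)).map (γ := wt (sP F (Rm a.1)) (fun k => w k))
      (fun l => mu_wt a.1 w (hT a (Finset.mem_insert_self _ _)) l) ?_
    exact ⟨fun _ _ _ => trivial, fun _ _ _ => trivial⟩

lemma chain_one (w : ι → ℤ) (a : NR ζ) (hwa : w a.1 = 0)
    (hNN : NN F (fun t => (⟨ζ t, a.2 t⟩ : Rm a.1)))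
    (c : ℕ → Submodule F (PR F ι)) (hc : Monotone c) 
    (hst : ∀ n, Stab (sP F ι) (wt (sP F ι) w) (c n)) (hn : ∀ n, nF F ζ ≤ c n) :
    Stz (fun n => (c n).comap (mu F (Subtype.val : Rm a.1 → ι)).toLinearMap) := by
  have hst' : ∀ n, Stab (sP F (Rm a.1)) (wt (sP F (Rm a.1)) (fun k => w k))
      ((c n).comap (mu F (Subtype.val : Rm a.1 → ι)).toLinearMap) :=
    fun n => (mu_hom (Subtype.val : Rm a.1 → ι)).comap (fun l => mu_wt a.1 w hwa l) (hst n)
  have hn' : ∀ n, nF F (fun t => (⟨ζ t, a.2 t⟩ : Rm a.1)) ≤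
      (c n).comap (mu F (Subtype.val : Rm a.1 → ι)).toLinearMap := by
    intro n v hv
    rw [Submodule.mem_comap, AlgHom.toLinearMap_apply]
    apply hn n
    exact mu_mem_nn (fun t => (⟨ζ t, a.2 t⟩ : Rm a.1)) (Subtype.val : Rm a.1 → ι) hv
  exact hNN _ (wt_mem _ _) _ (fun i j hij => Submodule.comap_mono (hc hij)) hst' hn'

/-- Chains in the sum of the relations and the subalgebras missing a point. -/
lemma chain_MM (w : ι → ℤ) (hNN : ∀ a : NR ζ, NN F (fun t => (⟨ζ t, a.2 t⟩ : Rm a.1)))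
    (T : Finset (NR ζ)) (hT : ∀ a ∈ T, w a.1 = 0) :
    ∀ c : ℕ → Submodule F (PR F ι), Monotone c → (∀ n, Stab (sP F ι) (wt (sP F ι) w) (c n)) →
      (∀ n, nF F ζ ≤ c n) → (∀ n, c n ≤ MM F ζ T) → Stz c := by
  classical
  induction T using Finset.induction_on with
  | empty =>
    intro c hc hst hn hM
    have h0 : MM F ζ ∅ = nF F ζ := by simp [MM]
    have h1 : ∀ n, c n = nF F ζ := fun n => le_antisymm ((hM n).trans h0.le) (hn n)
    exact ⟨0, fun n _ => by rw [h1, h1]⟩
  | insert a T ha ih =>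
    intro c hc hst hn hM
    have hT' : ∀ b ∈ T, w b.1 = 0 := fun b hb => hT b (Finset.mem_insert_of_mem hb)
    have hwa : w a.1 = 0 := hT a (Finset.mem_insert_self _ _)
    have hMst : Stab (sP F ι) (wt (sP F ι) w) (MM F ζ T) := Stab_MM ζ w T hT'
    have h1 : MM F ζ (insert a T) = MM F ζ T ⊔
        LinearMap.range (mu F (Subtype.val : Rm a.1 → ι)).toLinearMap := by
      unfold MM
      rw [Finset.iSup_insert, sup_left_comm, sup_comm]
    have hnM : nF F ζ ≤ MM F ζ T := le_sup_left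
    apply Stz_mod hc (MM F ζ T)
    · -- the sums
      have h2 := chain_one ζ w a hwa (hNN a) (fun n => c n ⊔ MM F ζ T)
        (fun i j hij => sup_le_sup_right (hc hij) _) (fun n => (hst n).sup hMst)
        (fun n => (hn n).trans le_sup_left)
      obtain ⟨N, hN⟩ := h2
      refine ⟨N, fun n hn => ?_⟩
      have h3 : ∀ n, c n ⊔ MM F ζ T = MM F ζ T ⊔ ((c n ⊔ MM F ζ T).comap
          (mu F (Subtype.val : Rm a.1 → ι)).toLinearMap).map
            (mu F (Subtype.val : Rm a.1 → ι)).toLinearMap := by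
        intro n
        rw [Submodule.map_comap_eq]
        have h4 : c n ⊔ MM F ζ T ≤ MM F ζ T ⊔
            LinearMap.range (mu F (Subtype.val : Rm a.1 → ι)).toLinearMap :=
          sup_le ((hM n).trans h1.le) le_sup_left
        have h5 : MM F ζ T ≤ c n ⊔ MM F ζ T := le_sup_right
        rw [← sup_inf_assoc_of_le _ h5, inf_eq_right.mpr h4]
      have h4 := hN n hn
      beta_reduce at h4 ⊢
      rw [h3 n, h3 N, h4]
    · exact ih hT' _ (fun i j hij => inf_le_inf_right _ (hc hij)) (fun n => (hst n).inf hMst)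
        (fun n => le_inf (hn n) hnM) (fun n => inf_le_right)

/-- Chains in the kernel of the operator. -/
theorem hkch [CharZero F] (w : ι → ℤ) {κ : ℕ} (e0 : Fin κ ≃ NR ζ)
    (hNN : ∀ a : NR ζ, NN F (fun t => (⟨ζ t, a.2 t⟩ : Rm a.1)))
    (c : ℕ → Submodule F (PR F ι ⧸ (nn ζ : Ideal (PR F ι)))) (hc : Monotone c)
    (hst : ∀ n, Stab (sQ F ι ζ) (wt (sQ F ι ζ) w) (c n))
    (hk : ∀ n, c n ≤ LinearMap.ker ((zd F ζ).Dz w e0)) : Stz c := by
  apply Stz_surj (Ideal.Quotient.mkₐ F (nn ζ : Ideal (PR F ι))).toLinearMap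
    (Ideal.Quotient.mkₐ_surjective F _)
  refine chain_MM ζ w hNN (Finset.univ.filter (fun a : NR ζ => w a.1 = 0)) (fun a ha => by
    simpa using ha) _ (fun i j hij => Submodule.comap_mono (hc hij))
    (fun n => (sQ_hom ζ).comap (mk_wt ζ w) (hst n)) ?_ ?_
  · intro n v hv
    rw [Submodule.mem_comap, AlgHom.toLinearMap_apply, (mk_nF ζ).mpr hv]
    exact Submodule.zero_mem _
  · intro n v hv
    rw [Submodule.mem_comap, AlgHom.toLinearMap_apply] at hv
    apply ker_le ζ w e0
    have h1 := hk n hv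
    rw [LinearMap.mem_ker, ← mk_DP] at h1
    exact (mk_nF ζ).mp h1

end Run7.h143
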