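import Mathlib

/-!
Laurent polynomials in several variables with coefficients in a commutative ring, their
homomorphisms and derivations.
-/

set_option autoImplicit false
set_option linter.unusedSectionVars false

namespace Run7.h143

open AddMonoidAlgebra

/-- Laurent polynomials over `B` in variables indexed by `κ`. -/
abbrev LP (B : Type*) [CommRing B] (κ : Type) := AddMonoidAlgebra B (κ → ℤ)

section lin

variable {F : Type*} [CommRing F] {B : Type*} [CommRing B] [Algebra F B] {κ : Type}
  {M : Type*} [AddCommGroup M] [Module F M]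

/-- Linear maps given on monomials. -/
noncomputable def lin (g : (κ → ℤ) → B →ₗ[F] M) : LP B κ →ₗ[F] M :=
  (Finsupp.lsum F g) ∘ₗ (coeffLinearEquiv F : LP B κ ≃ₗ[F] _).toLinearMap

@[simp] lemma lin_single (g : (κ → ℤ) → B →ₗ[F] M) (n : κ → ℤ) (b : B) :
    lin g (single n b) = g n b := by
  simp [lin]

end lin

section ring

variable {B : Type*} [CommRing B] {κ : Type} [DecidableEq κ]

/-- The variables, as units. -/
noncomputable def Z (i : κ) : (LP B κ)ˣ where
  val := single (Pi.single i 1) 1
  inv := single (- Pi.single i 1) 1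
  val_inv := by rw [single_mul_single, add_neg_cancel, one_mul]; rfl
  inv_val := by rw [single_mul_single, neg_add_cancel, one_mul]; rfl

lemma Z_val (i : κ) : ((Z i : (LP B κ)ˣ) : LP B κ) = single (Pi.single i 1) 1 := rfl

lemma Z_inv (i : κ) : (((Z i)⁻¹ : (LP B κ)ˣ) : LP B κ) = single (- Pi.single i 1) 1 := rfl

lemma Z_zpow (i : κ) (n : ℤ) : ((Z i ^ n : (LP B κ)ˣ) : LP B κ) = single (Pi.single i n) 1 := by
  induction n using Int.induction_on with
  | zero => simp [one_def]
  | succ n ih =>
    rw [zpow_add_one, Units.val_mul, ih, Z_val, single_mul_single, ← Pi.single_add, one_mul]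
  | pred n ih =>
    rw [zpow_sub_one, Units.val_mul, ih, Z_inv, single_mul_single, ← Pi.single_neg,
      ← Pi.single_add, one_mul, sub_eq_add_neg]

variable [Fintype κ]

lemma single_eq (n : κ → ℤ) (b : B) :
    (single n b : LP B κ) = single 0 b * ∏ i, ((Z i ^ (n i) : (LP B κ)ˣ) : LP B κ) := by
  simp_rw [Z_zpow]
  rw [prod_single, single_mul_single, zero_add]
  congr 1
  · exact (Finset.univ_sum_single n).symm
  · simp

/-- The monomial map. -/
noncomputable def mon {C : Type*} [CommRing C] (u : κ → Cˣ) : Multiplicative (κ → ℤ) →* C where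
  toFun n := ((∏ i, u i ^ (n.toAdd i) : Cˣ) : C)
  map_one' := by simp
  map_mul' := by
    intro m n
    rw [← Units.val_mul, ← Finset.prod_mul_distrib]
    simp [zpow_add]

/-- The homomorphism given by the coefficients and the variables. -/
noncomputable def lf {C : Type*} [CommRing C] (f : B →+* C) (u : κ → Cˣ) : LP B κ →+* C :=
  liftNCRingHom f (mon u) (fun _ _ => Commute.all _ _)

variable {C : Type*} [CommRing C]

omit [DecidableEq κ] in
lemma lf_single (f : B →+* C) (u : κ → Cˣ) (n : κ → ℤ) (b : B) :
    lf f u (single n b) = f b * ((∏ i, u i ^ (n i) : Cˣ) : C) := by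
  unfold lf
  rw [liftNCRingHom_single]
  rfl

@[simp] lemma lf_C (f : B →+* C) (u : κ → Cˣ) (b : B) : lf f u (single 0 b) = f b := by
  rw [lf_single]; simp

@[simp] lemma lf_Z (f : B →+* C) (u : κ → Cˣ) (i : κ) :
    lf f u ((Z i : (LP B κ)ˣ) : LP B κ) = u i := by
  rw [Z_val, lf_single, map_one, one_mul, Finset.prod_eq_single i]
  · simp
  · intro j _ hj; simp [hj]
  · simp

lemma lf_map_Z (f : B →+* C) (u : κ → Cˣ) (i : κ) :
    Units.map (lf f u : LP B κ →* C) (Z i) = u i := by
  ext
  exact lf_Z f u i

@[simp] lemma lf_Zz (f : B →+* C) (u : κ → Cˣ) (i : κ) (n : ℤ) :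
    lf f u ((Z i ^ n : (LP B κ)ˣ) : LP B κ) = ((u i ^ n : Cˣ) : C) := by
  have := congrArg (fun v => ((v ^ n : Cˣ) : C)) (lf_map_Z f u i)
  simp only [← map_zpow] at this
  exact this

/-- Homomorphisms are determined by the coefficients and the variables. -/
lemma hom_ext {f g : LP B κ →+* C} (h1 : ∀ b, f (single 0 b) = g (single 0 b))
    (h2 : ∀ i, f ((Z i : (LP B κ)ˣ) : LP B κ) = g ((Z i : (LP B κ)ˣ) : LP B κ)) : f = g := by
  have h3 : ∀ i, Units.map (f : LP B κ →* C) (Z i) = Units.map (g : LP B κ →* C) (Z i) := by
    intro i; ext; exact h2 i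
  have h4 : ∀ i (n : ℤ), f ((Z i ^ n : (LP B κ)ˣ) : LP B κ) = g ((Z i ^ n : (LP B κ)ˣ) : LP B κ) := by
    intro i n
    have := congrArg (fun v => ((v ^ n : Cˣ) : C)) (h3 i)
    simp only [← map_zpow] at this
    exact this
  refine RingHom.ext fun p => ?_
  induction p using AddMonoidAlgebra.induction_linear with
  | zero => rw [map_zero, map_zero]
  | add p q hp hq => rw [map_add, map_add, hp, hq]
  | single n b =>
    rw [single_eq, map_mul, map_mul, h1, map_prod, map_prod]
    simp_rw [h4]

/-- The induction principle. -/
lemma LP_induction {P : LP B κ → Prop} (hC : ∀ b, P (single 0 b)) (hZ : ∀ i, P (Z i : (LP B κ)ˣ))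
    (hZi : ∀ i, P ((Z i)⁻¹ : (LP B κ)ˣ)) (hadd : ∀ p q, P p → P q → P (p + q))
    (hmul : ∀ p q, P p → P q → P (p * q)) (p : LP B κ) : P p := by
  have h1 : P 1 := by
    rw [one_def]; exact hC 1
  have hz : ∀ i (n : ℤ), P ((Z i ^ n : (LP B κ)ˣ) : LP B κ) := by
    intro i n
    induction n using Int.induction_on with
    | zero => rw [zpow_zero]; exact h1
    | succ n ih => rw [zpow_add_one, Units.val_mul]; exact hmul _ _ ih (hZ i)
    | pred n ih => rw [zpow_sub_one, Units.val_mul]; exact hmul _ _ ih (hZi i)
  induction p using AddMonoidAlgebra.induction_linear with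
  | zero => have := hC 0; rwa [single_zero] at this
  | add p q hp hq => exact hadd p q hp hq
  | single n b =>
    rw [single_eq]
    refine hmul _ _ (hC b) ?_
    apply Finset.prod_induction _ P hmul h1
    intro i _
    exact hz i _

end ring

section der

variable {F : Type*} [Field F] {B : Type*} [CommRing B] [Algebra F B] {κ : Type} [DecidableEq κ]

/-- Derivations extending a derivation of the coefficients. -/
noncomputable def mkD (d : Derivation F B B) (θ : (κ → ℤ) →+ LP B κ) :
    Derivation F (LP B κ) (LP B κ) :=
  Derivation.mk' (lin (fun n =>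
    { toFun := fun b => single n (d b) + θ n * single n b
      map_add' := by
        intro a b
        rw [map_add, single_add, single_add, mul_add]
        abel
      map_smul' := by
        intro r a
        rw [Derivation.map_smul, RingHom.id_apply, smul_add, smul_single, ← smul_single r n a,
          mul_smul_comm] })) (by
    intro a b
    induction a using AddMonoidAlgebra.induction_linear with
    | zero => simp
    | add p q hp hq =>
      rw [add_mul, map_add, hp, hq, map_add]
      simp only [smul_eq_mul]
      ring
    | single n r =>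
      induction b using AddMonoidAlgebra.induction_linear with
      | zero => simp
      | add p q hp hq =>
        rw [mul_add, map_add, hp, hq, map_add]
        simp only [smul_eq_mul]
        ring
      | single m s =>
        rw [single_mul_single, lin_single, lin_single, lin_single]
        simp only [smul_eq_mul, LinearMap.coe_mk, AddHom.coe_mk]
        rw [Derivation.leibniz, map_add, single_add]
        have e1 : (single (n + m) (r * s) : LP B κ) = single n r * single m s := by
          rw [single_mul_single]
        have e2 : (single (n + m) (r • d s) : LP B κ) = single n r * single m (d s) := by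
          rw [single_mul_single, smul_eq_mul]
        have e3 : (single (n + m) (s • d r) : LP B κ) = single m s * single n (d r) := by
          rw [single_mul_single, smul_eq_mul, add_comm]
        rw [e1, e2, e3]
        ring)

lemma mkD_single (d : Derivation F B B) (θ : (κ → ℤ) →+ LP B κ) (n : κ → ℤ) (b : B) :
    mkD d θ (single n b) = single n (d b) + θ n * single n b := by
  unfold mkD
  rw [Derivation.coe_mk', lin_single]
  rfl

lemma mkD_C (d : Derivation F B B) (θ : (κ → ℤ) →+ LP B κ) (b : B) :
    mkD d θ (single 0 b) = single 0 (d b) := by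
  rw [mkD_single, map_zero, zero_mul, add_zero]

lemma mkD_Z (d : Derivation F B B) (θ : (κ → ℤ) →+ LP B κ) (i : κ) :
    mkD d θ ((Z i : (LP B κ)ˣ) : LP B κ) = θ (Pi.single i 1) * ((Z i : (LP B κ)ˣ) : LP B κ) := by
  rw [Z_val, mkD_single]
  simp

end der

end Run7.h143
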