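import Pool.Agent.Run7.h143.Comm
import Pool.Agent.R693.W.Main

/-!
Leading forms of two-sided ideals.
-/

set_option autoImplicit false
set_option linter.unusedSectionVars false
set_option linter.unusedSimpArgs false
set_option linter.unusedVariables false

namespace Run7.h143

open MvPolynomial Pool.Agent.R693

variable {F : Type*} [Field F] {A : Type*} [Ring A] [Algebra F A] {e : ℤ → A}

/-- A word representing a monomial. -/
noncomputable def lsz (α : ℤ →₀ ℕ) : List ℤ := (Finsupp.toMultiset α).toList

lemma lsz_length (α : ℤ →₀ ℕ) : (lsz α).length = α.degree := by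
  unfold lsz
  rw [Multiset.length_toList, Finsupp.card_toMultiset]
  rfl

lemma lsz_perm (α : ℤ →₀ ℕ) (i : ℤ) :
    (lsz (α + Finsupp.single i 1)).Perm (i :: lsz α) := by
  unfold lsz
  rw [← Multiset.coe_eq_coe, Multiset.coe_toList, ← Multiset.cons_coe, Multiset.coe_toList, map_add,
    Finsupp.toMultiset_single, one_smul, add_comm, Multiset.singleton_add]

lemma lsz_perm' (w : List ℤ) : (lsz (Multiset.toFinsupp (w : Multiset ℤ))).Perm w := by
  unfold lsz
  rw [← Multiset.coe_eq_coe, Multiset.coe_toList, Multiset.toFinsupp_toMultiset]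

variable (F e) in
/-- The symbol map. -/
noncomputable def sg : SA F →ₗ[F] A :=
  (MvPolynomial.basisMonomials ℤ F).constr F (fun α => W.wd e (lsz α))

lemma sg_monomial (α : ℤ →₀ ℕ) (a : F) : sg F e (monomial α a) = a • W.wd e (lsz α) := by
  have h : (monomial α a : SA F) = a • MvPolynomial.basisMonomials ℤ F α := by
    rw [MvPolynomial.coe_basisMonomials, MvPolynomial.smul_monomial, smul_eq_mul, mul_one]
  rw [h, map_smul]
  congr 1
  exact Module.Basis.constr_basis _ _ _ _

lemma sg_C (a : F) : sg F e (C a) = a • (1 : A) := by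
  have h : (C a : SA F) = monomial 0 a := rfl
  rw [h, sg_monomial]
  simp [lsz, W.wd]

lemma hcz_monomial (j : ℕ) (α : ℤ →₀ ℕ) (a : F) :
    homogeneousComponent j (monomial α a) = if α.degree = j then monomial α a else 0 := by
  classical
  ext d
  rw [coeff_homogeneousComponent]
  split_ifs with h1 h2 h2
  · rfl
  · rw [coeff_monomial, if_neg (by rintro rfl; exact h2 h1), coeff_zero]
  · rw [coeff_monomial, if_neg (by rintro rfl; exact h1 h2)]
  · rw [coeff_zero]

lemma hcz_mul_X (i : ℤ) (j : ℕ) (f : SA F) :
    homogeneousComponent (j + 1) (f * X i) = homogeneousComponent j f * X i := by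
  induction f using MvPolynomial.induction_on' with
  | monomial α a =>
    have h1 : (monomial α a : SA F) * X i = monomial (α + Finsupp.single i 1) a := by
      rw [MvPolynomial.X, monomial_mul, mul_one]
    rw [h1, hcz_monomial, hcz_monomial, map_add, Finsupp.degree_single]
    by_cases h : α.degree = j
    · rw [if_pos (by omega), if_pos h, h1]
    · rw [if_neg (by omega), if_neg h, zero_mul]
  | add p q hp hq =>
    rw [add_mul, map_add, map_add, hp, hq, add_mul]

lemma hcz_mul_X_zero (i : ℤ) (f : SA F) :
    homogeneousComponent 0 (f * X i) = 0 := by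
  induction f using MvPolynomial.induction_on' with
  | monomial α a =>
    have h1 : (monomial α a : SA F) * X i = monomial (α + Finsupp.single i 1) a := by
      rw [MvPolynomial.X, monomial_mul, mul_one]
    rw [h1, hcz_monomial, map_add, Finsupp.degree_single, if_neg (by omega)]
  | add p q hp hq =>
    rw [add_mul, map_add, hp, hq, add_zero]

section

variable [CharZero F]

lemma sg_mul_X (he : W.IsW F e) (i : ℤ) (j : ℕ) (f : SA F) :
    sg F e (homogeneousComponent j f * X i) - e i * sg F e (homogeneousComponent j f) ∈
      W.Fl F e (j + 1) := by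
  induction f using MvPolynomial.induction_on' with
  | monomial α a =>
    rw [hcz_monomial]
    split_ifs with h
    · have h1 : (monomial α a : SA F) * X i = monomial (α + Finsupp.single i 1) a := by
        rw [MvPolynomial.X, monomial_mul, mul_one]
      rw [h1, sg_monomial, sg_monomial, mul_smul_comm, ← smul_sub]
      apply Submodule.smul_mem
      have h2 := W.perm_mem he (lsz_perm α i)
      rw [lsz_length, W.wd_cons] at h2
      have h3 : (α + Finsupp.single i 1).degree = j + 1 := by
        rw [map_add, h, Finsupp.degree_single]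
      rwa [h3] at h2
    · simp
  | add p q hp hq =>
    rw [map_add, add_mul, map_add, map_add, mul_add]
    have := Submodule.add_mem _ hp hq
    rwa [sub_add_sub_comm] at this

/-- The commutator with a generator preserves the filtration. -/
lemma ad_Fl (he : W.IsW F e) (l : ℤ) {k : ℕ} {x : A} (hx : x ∈ W.Fl F e k) :
    W.ad e l x ∈ W.Fl F e k := by
  have hw : ∀ w : List ℤ, W.ad e l (W.wd e w) ∈ W.Fl F e (w.length + 1) := by
    intro w
    induction w with
    | nil =>
      have : W.wd e ([] : List ℤ) = 1 := by simp [W.wd]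
      rw [this, W.ad_one]
      exact Submodule.zero_mem _
    | cons v w ih =>
      rw [W.wd_cons, W.ad_mul]
      refine Submodule.add_mem _ ?_ (by
        rw [List.length_cons]; exact W.e_mul_mem v ih)
      have h1 : W.ad e l (e v) = ((v - l : ℤ) : F) • e (l + v - 1) :=
        he l v (l + v - 1) (by
          have : (W.Lab.one : ℤ) = 1 := rfl
          rw [this]; ring)
      rw [h1, smul_mul_assoc, ← W.wd_cons]
      exact Submodule.smul_mem _ _ (W.wd_mem (by simp))
  unfold W.Fl at hx
  induction hx using Submodule.span_induction with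
  | mem y hy =>
    obtain ⟨w, hwk, rfl⟩ := hy
    exact W.Fl_mono hwk (hw w)
  | zero => rw [W.ad_zero]; exact Submodule.zero_mem _
  | add y z _ _ hy hz => rw [W.ad_add]; exact Submodule.add_mem _ hy hz
  | smul a y _ hy => rw [W.ad_smul]; exact Submodule.smul_mem _ _ hy

/-- The symbol map and the derivations. -/
lemma sg_dS (he : W.IsW F e) (l : ℤ) (f : SA F) : ∀ j, W.ad e l (sg F e (homogeneousComponent j f)) -
    sg F e (homogeneousComponent j (dS F l f)) ∈ W.Fl F e j := by
  induction f using MvPolynomial.induction_on with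
  | C a =>
    intro j
    have h1 : dS F l (C a) = 0 := Derivation.map_algebraMap _ _
    rw [h1, map_zero, map_zero, sub_zero]
    cases j with
    | zero =>
      rw [homogeneousComponent_zero, coeff_C, if_pos rfl, sg_C, W.ad_smul, W.ad_one, smul_zero]
      exact Submodule.zero_mem _
    | succ j =>
      have h2 : homogeneousComponent (j + 1) (C a : SA F) = 0 := by
        have h3 : (C a : SA F) = monomial 0 a := rfl
        rw [h3, hcz_monomial, map_zero, if_neg (by omega)]
      rw [h2, map_zero, W.ad_zero]
      exact Submodule.zero_mem _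
  | add p q hp hq =>
    intro j
    rw [map_add, map_add, W.ad_add, map_add, map_add, map_add, add_sub_add_comm]
    exact Submodule.add_mem _ (hp j) (hq j)
  | mul_X p i hp =>
    intro j
    have h1 : dS F l (p * X i) = dS F l p * X i + ((i - l : ℤ) : F) • (p * X (i + l - 1)) := by
      rw [Derivation.leibniz, dS_X, smul_eq_mul, smul_eq_mul, MvPolynomial.smul_eq_C_mul, map_intCast]
      ring
    rw [h1]
    cases j with
    | zero =>
      rw [map_add, map_smul, hcz_mul_X_zero, hcz_mul_X_zero, hcz_mul_X_zero, smul_zero, map_zero,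
        add_zero, map_zero, W.ad_zero, sub_zero]
      exact Submodule.zero_mem _
    | succ j =>
      rw [map_add, map_smul, hcz_mul_X, hcz_mul_X, hcz_mul_X, map_add, map_smul]
      set f := homogeneousComponent j p with hf
      -- the three comparisons
      have e1 := sg_mul_X he i j p
      have e2 := sg_mul_X he i j (dS F l p)
      have e3 := sg_mul_X he (i + l - 1) j p
      rw [← hf] at e1 e3
      have e4 := hp j
      rw [← hf] at e4
      have e5 := W.e_mul_mem i e4
      have e6 := ad_Fl he l e1
      have h2 : W.ad e l (e i) = ((i - l : ℤ) : F) • e (i + l - 1) :=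
        he l i (i + l - 1) (by
          have : (W.Lab.one : ℤ) = 1 := rfl
          rw [this]; ring)
      have h3 : W.ad e l (sg F e (f * X i)) - (sg F e (homogeneousComponent j (dS F l p) * X i) +
          ((i - l : ℤ) : F) • sg F e (f * X (i + l - 1))) =
          W.ad e l (sg F e (f * X i) - e i * sg F e f) +
          e i * (W.ad e l (sg F e f) - sg F e (homogeneousComponent j (dS F l p))) -
          (sg F e (homogeneousComponent j (dS F l p) * X i) -
            e i * sg F e (homogeneousComponent j (dS F l p))) -
          ((i - l : ℤ) : F) • (sg F e (f * X (i + l - 1)) - e (i + l - 1) * sg F e f) := by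
        have h4 : W.ad e l (sg F e (f * X i) - e i * sg F e f) =
            W.ad e l (sg F e (f * X i)) - (((i - l : ℤ) : F) • (e (i + l - 1) * sg F e f) +
              e i * W.ad e l (sg F e f)) := by
          rw [← smul_mul_assoc, ← h2, ← W.ad_mul]
          unfold W.ad
          noncomm_ring
        rw [h4, mul_sub, smul_sub]
        abel
      rw [h3]
      exact Submodule.sub_mem _ (Submodule.sub_mem _ (Submodule.add_mem _ e6 e5) e2)
        (Submodule.smul_mem _ _ e3)

/-- The leading forms. -/
noncomputable def ld (he : W.IsW F e) (I : TwoSidedIdeal A) : Submodule F (SA F) where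
  carrier := {f | ∀ j, sg F e (homogeneousComponent j f) ∈ W.subsp F I ⊔ W.Fl F e j}
  add_mem' := by
    intro f g hf hg j
    rw [map_add, map_add]
    exact Submodule.add_mem _ (hf j) (hg j)
  zero_mem' := by
    intro j
    rw [map_zero, map_zero]
    exact Submodule.zero_mem _
  smul_mem' := by
    intro a f hf j
    rw [map_smul, map_smul]
    exact Submodule.smul_mem _ _ (hf j)

lemma mem_ld (he : W.IsW F e) (I : TwoSidedIdeal A) (f : SA F) : f ∈ ld he I ↔
    ∀ j, sg F e (homogeneousComponent j f) ∈ W.subsp F I ⊔ W.Fl F e j := Iff.rfl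

lemma ld_mono (he : W.IsW F e) {I J : TwoSidedIdeal A} (h : I ≤ J) : ld he I ≤ ld he J := by
  intro f hf j
  have h1 : W.subsp F I ≤ W.subsp F J := fun x hx => W.mem_subsp.mpr (h (W.mem_subsp.mp hx))
  have h2 : W.subsp F I ⊔ W.Fl F e j ≤ W.subsp F J ⊔ W.Fl F e j := sup_le_sup_right h1 _
  exact h2 (hf j)

lemma ld_X (he : W.IsW F e) (I : TwoSidedIdeal A) (m : ℤ) {f : SA F} (hf : f ∈ ld he I) :
    X m * f ∈ ld he I := by
  intro j
  rw [mul_comm]
  cases j with
  | zero => rw [hcz_mul_X_zero, map_zero]; exact Submodule.zero_mem _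
  | succ j =>
    rw [hcz_mul_X]
    have h1 := sg_mul_X he m j f
    have h2 : e m * sg F e (homogeneousComponent j f) ∈ W.subsp F I ⊔ W.Fl F e (j + 1) := by
      have h3 := hf j
      rw [Submodule.mem_sup] at h3
      obtain ⟨y, hy, z, hz, hyz⟩ := h3
      rw [← hyz, mul_add]
      refine Submodule.add_mem _ (Submodule.mem_sup_left ?_)
        (Submodule.mem_sup_right (W.e_mul_mem _ hz))
      rw [W.mem_subsp] at hy ⊢
      exact I.mul_mem_left _ _ hy
    have h4 := Submodule.add_mem _ (Submodule.mem_sup_right h1) h2
    rwa [sub_add_cancel] at h4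

lemma ld_dS (he : W.IsW F e) (I : TwoSidedIdeal A) (l : ℤ) {f : SA F} (hf : f ∈ ld he I) :
    dS F l f ∈ ld he I := by
  intro j
  have h1 := sg_dS he l f j
  have h2 : W.ad e l (sg F e (homogeneousComponent j f)) ∈ W.subsp F I ⊔ W.Fl F e j := by
    have h3 := hf j
    rw [Submodule.mem_sup] at h3
    obtain ⟨y, hy, z, hz, hyz⟩ := h3
    rw [← hyz, W.ad_add]
    refine Submodule.add_mem _ (Submodule.mem_sup_left ?_) (Submodule.mem_sup_right (ad_Fl he l hz))
    rw [W.mem_subsp] at hy ⊢
    exact I.sub_mem (I.mul_mem_left _ _ hy) (I.mul_mem_right _ _ hy)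
  have h4 := Submodule.sub_mem _ h2 (Submodule.mem_sup_right h1)
  rwa [sub_sub_cancel] at h4

lemma ld_St0 (he : W.IsW F e) (I : TwoSidedIdeal A) : St0 (ld he I) where
  hx m v hv := ld_X he I m hv
  hd l v hv := ld_dS he I l hv

/-- Elements and their leading forms. -/
lemma sg_repr (he : W.IsW F e) (m : ℕ) {x : A} (hx : x ∈ W.Fl F e (m + 1)) :
    ∃ f : SA F, homogeneousComponent m f = f ∧ x - sg F e f ∈ W.Fl F e m := by
  unfold W.Fl at hx
  induction hx using Submodule.span_induction with
  | mem y hy =>
    obtain ⟨w, hw, rfl⟩ := hy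
    rcases Nat.lt_or_ge w.length m with h | h
    · exact ⟨0, by rw [map_zero], by rw [map_zero, sub_zero]; exact W.wd_mem h⟩
    · have hwm : w.length = m := by omega
      have hdeg : (Multiset.toFinsupp (w : Multiset ℤ)).degree = m := by
        have h1 := lsz_length (Multiset.toFinsupp (w : Multiset ℤ))
        rw [← h1, (lsz_perm' w).length_eq, hwm]
      refine ⟨monomial (Multiset.toFinsupp (w : Multiset ℤ)) 1, ?_, ?_⟩
      · rw [hcz_monomial, if_pos hdeg]
      · rw [sg_monomial, one_smul]
        have h1 := W.perm_mem he (lsz_perm' w).symm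
        rwa [hwm] at h1
  | zero => exact ⟨0, by rw [map_zero], by simp⟩
  | add y z _ _ hy hz =>
    obtain ⟨f, hf1, hf2⟩ := hy
    obtain ⟨g, hg1, hg2⟩ := hz
    refine ⟨f + g, by rw [map_add, hf1, hg1], ?_⟩
    rw [map_add, add_sub_add_comm]
    exact Submodule.add_mem _ hf2 hg2
  | smul a y _ hy =>
    obtain ⟨f, hf1, hf2⟩ := hy
    refine ⟨a • f, by rw [map_smul, hf1], ?_⟩
    rw [map_smul, ← smul_sub]
    exact Submodule.smul_mem _ _ hf2

/-- Equality of the leading forms implies equality. -/
lemma eq_of_ld (he : W.IsW F e) (hgen : ∀ x : A, ∃ k, x ∈ W.Fl F e k) {I J : TwoSidedIdeal A}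
    (hIJ : I ≤ J) (h : ld he J = ld he I) : J = I := by
  refine le_antisymm ?_ hIJ
  have key : ∀ k x, x ∈ J → x ∈ W.Fl F e k → x ∈ I := by
    intro k
    induction k with
    | zero =>
      intro x _ hx
      have : W.Fl F e 0 = ⊥ := by
        unfold W.Fl
        have : {x : A | ∃ w : List ℤ, w.length < 0 ∧ x = W.wd e w} = ∅ := by
          ext z; simp
        rw [this, Submodule.span_empty]
      rw [this, Submodule.mem_bot] at hx
      rw [hx]
      exact I.zero_mem
    | succ k ih =>
      intro x hxJ hx
      obtain ⟨f, hf1, hf2⟩ := sg_repr he k hx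
      have h2 : f ∈ ld he J := by
        rw [mem_ld]
        intro j
        by_cases hj : j = k
        · subst hj
          rw [hf1]
          have h3 : sg F e f = x - (x - sg F e f) := by abel
          rw [h3]
          exact Submodule.sub_mem _ (Submodule.mem_sup_left (W.mem_subsp.mpr hxJ))
            (Submodule.mem_sup_right hf2)
        · have h3 : homogeneousComponent j f = 0 := by
            rw [← hf1]
            ext d
            rw [coeff_homogeneousComponent, coeff_homogeneousComponent, coeff_zero]
            split_ifs with h4 h5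
            · exact absurd (h4.symm.trans h5) hj
            · rfl
            · rfl
          rw [h3, map_zero]
          exact Submodule.zero_mem _
      rw [h, mem_ld] at h2
      have h3 := h2 k
      rw [hf1, Submodule.mem_sup] at h3
      obtain ⟨y, hy, z, hz, hyz⟩ := h3
      have h4 : x - y ∈ W.Fl F e k := by
        have : x - y = (x - sg F e f) + z := by rw [← hyz]; abel
        rw [this]
        exact Submodule.add_mem _ hf2 hz
      have hyI : y ∈ I := W.mem_subsp.mp hy
      have h5 := ih (x - y) (J.sub_mem hxJ (hIJ hyI)) h4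
      have h6 := I.add_mem h5 hyI
      rwa [sub_add_cancel] at h6
  intro x hx
  obtain ⟨k, hk⟩ := hgen x
  exact key k x hx hk

end

end Run7.h143
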