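import Pool.Agent.Run7.h143.Sys

/-!
The abstract form of the main step.
-/

set_option autoImplicit false
set_option linter.unusedSectionVars false

namespace Run7.h143

section

variable {F : Type*} [Field F] {ι : Type} {O : Type*} [CommRing O] [Algebra F O]

/-- The commutator with a multiplication. -/
noncomputable def ad (c : O) (T : O →ₗ[F] O) : O →ₗ[F] O :=
  LinearMap.mulLeft F c ∘ₗ T - T ∘ₗ LinearMap.mulLeft F c

lemma ad_apply (c : O) (T : O →ₗ[F] O) (v : O) : ad c T v = c * T v - T (c * v) := rfl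

/-- Differential operators of order less than `n` with respect to `c`. -/
def Ord (c : O) : ℕ → (O →ₗ[F] O) → Prop
  | 0, T => T = 0
  | n + 1, T => Ord c n (ad c T)

lemma Ord.add {c : O} {n : ℕ} {S T : O →ₗ[F] O} (hS : Ord c n S) (hT : Ord c n T) :
    Ord c n (S + T) := by
  induction n generalizing S T with
  | zero => simp only [Ord] at hS hT ⊢; rw [hS, hT, add_zero]
  | succ n ih =>
    simp only [Ord] at hS hT ⊢
    have : ad c (S + T) = ad c S + ad c T := by
      ext v
      simp only [ad_apply, LinearMap.add_apply]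
      ring
    rw [this]
    exact ih hS hT

lemma Ord.zero (c : O) (n : ℕ) : Ord c n (0 : O →ₗ[F] O) := by
  induction n with
  | zero => simp [Ord]
  | succ n ih =>
    simp only [Ord]
    have : ad c (0 : O →ₗ[F] O) = 0 := by ext v; simp [ad_apply]
    rw [this]; exact ih

lemma Ord.comp {c : O} {m n : ℕ} {S T : O →ₗ[F] O} (hS : Ord c m S) (hT : Ord c n T) :
    Ord c (m + n) (S ∘ₗ T) := by
  induction m generalizing n S T with
  | zero =>
    simp only [Ord] at hS
    rw [hS, LinearMap.zero_comp]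
    exact Ord.zero c _
  | succ m ihm =>
    induction n generalizing T with
    | zero =>
      simp only [Ord] at hT
      rw [hT, LinearMap.comp_zero]
      exact Ord.zero c _
    | succ n ihn =>
      have h1 := ihm hS hT
      have h2 := ihn hT
      rw [show m + 1 + (n + 1) = (m + (n + 1)) + 1 by ring]
      change Ord c (m + (n + 1)) (ad c (S ∘ₗ T))
      have : ad c (S ∘ₗ T) = ad c S ∘ₗ T + S ∘ₗ ad c T := by
        ext v
        simp only [ad_apply, LinearMap.add_apply, LinearMap.comp_apply, map_sub]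
        ring
      rw [this]
      refine Ord.add h1 ?_
      rw [show m + (n + 1) = m + 1 + n by ring]
      exact h2

lemma Ord.one (c : O) : Ord c 1 (LinearMap.id : O →ₗ[F] O) := by
  simp only [Ord]
  ext v; simp [ad_apply]

lemma Ord.der (c : O) (D : Derivation F O O) (b : O) :
    Ord c 2 (LinearMap.mulLeft F b ∘ₗ (D : O →ₗ[F] O)) := by
  simp only [Ord]
  ext v
  simp [ad_apply]
  ring

/-- The part of a subspace that is stable under a subalgebra. -/
def core (Λ : Subalgebra F O) (I : Submodule F O) : Submodule Λ O where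
  carrier := {v | ∀ g : Λ, (g : O) * v ∈ I}
  add_mem' := by
    intro a b ha hb g
    rw [mul_add]
    exact I.add_mem (ha g) (hb g)
  zero_mem' := by
    intro g
    rw [mul_zero]
    exact I.zero_mem
  smul_mem' := by
    intro r a ha g
    have := ha (g * r)
    rw [Subalgebra.smul_def, smul_eq_mul, ← mul_assoc]
    exact this

lemma core_le {Λ : Subalgebra F O} {I : Submodule F O} {v : O} (hv : v ∈ core Λ I) : v ∈ I := by
  have := hv 1
  rwa [OneMemClass.coe_one, one_mul] at this

lemma core_mul {Λ : Subalgebra F O} {I : Submodule F O} {v g : O} (hg : g ∈ Λ)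
    (hv : v ∈ core Λ I) : g * v ∈ core Λ I := (core Λ I).smul_mem ⟨g, hg⟩ hv

/-- Division by a power. -/
def quo {Λ : Subalgebra F O} (L : Submodule Λ O) (c : O) (e : ℕ) : Submodule Λ O where
  carrier := {v | c ^ e * v ∈ L}
  add_mem' := by
    intro a b ha hb
    simp only [Set.mem_ofPred_eq] at ha hb ⊢
    rw [mul_add]
    exact L.add_mem ha hb
  zero_mem' := by
    simp only [Set.mem_ofPred_eq]
    rw [mul_zero]
    exact L.zero_mem
  smul_mem' := by
    intro r a ha
    simp only [Set.mem_ofPred_eq] at ha ⊢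
    rw [mul_smul_comm]
    exact L.smul_mem r ha

lemma quo_mono {Λ : Subalgebra F O} (L : Submodule Λ O) {c : O} (hc : c ∈ Λ) :
    Monotone (quo L c) := by
  apply monotone_nat_of_le_succ
  intro n v hv
  change c ^ (n + 1) * v ∈ L
  rw [pow_succ', mul_assoc]
  exact L.smul_mem ⟨c, hc⟩ hv

lemma Stz_congr {V : Type*} [AddCommGroup V] [Module F V] {c c' : ℕ → Submodule F V} (M : ℕ)
    (h : ∀ n, M ≤ n → c n = c' n) (h' : Stz c') : Stz c := by
  obtain ⟨N, hN⟩ := h'
  refine ⟨max M N, fun n hn => ?_⟩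
  rw [h n (le_trans (le_max_left _ _) hn), h _ (le_max_left _ _),
    hN n (le_trans (le_max_right _ _) hn), hN _ (le_max_right _ _)]

theorem main_abs (s : Sys F ι O) (γ : ℤ → O) (Λ : Subalgebra F O) (hN : IsNoetherian Λ O) (c : O)
    (D : O →ₗ[F] O) (hd : ∀ l, ∀ g ∈ Λ, s.d l g ∈ Λ)
    (hc : c ∈ Λ) (hx : ∀ m, s.x m ∈ Λ)
    (hΘ : ∀ I, Stab s γ I → ∀ g ∈ Λ, ∀ v ∈ I, g * c * D v ∈ I)
    {γc : ℤ → O} (hsc : SI s c γc) (hgood : ∀ e, Ch s γ (pr F (c ^ e)))
    (hDg : ∀ f, ∃ q : Polynomial F, q.eval 0 ≠ 0 ∧ D (Polynomial.aeval D q f) = 0)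
    (hord : ∃ r, Ord c r D) (hker : Stab s γ (LinearMap.ker D))
    (hkch : ∀ ch : ℕ → Submodule F O, Monotone ch → (∀ n, Stab s γ (ch n)) →
      (∀ n, ch n ≤ LinearMap.ker D) → Stz ch) : Ch s γ ⊥ := by
  intro I hI hst _
  -- the cores stabilise
  have h1 : ∃ N, ∀ m, N ≤ m → core Λ (I N) = core Λ (I m) :=
    monotone_stabilizes_iff_noetherian.mpr hN
      ⟨fun i => core Λ (I i), fun i j hij v hv g => hI hij (hv g)⟩
  obtain ⟨N0, hN0⟩ := h1
  set L : Submodule Λ O := core Λ (I N0) with hL
  have hLmul : ∀ g ∈ Λ, ∀ v ∈ L, g * v ∈ L := fun g hg v hv => core_mul hg hv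
  have hLd : ∀ l, ∀ v ∈ L, s.d l v + γ l * v ∈ L := by
    intro l v hv g
    have e1 := (hst N0).hd l _ (hv g)
    have e2 := hv ⟨s.d l g, hd l g g.2⟩
    rw [Derivation.leibniz, smul_eq_mul, smul_eq_mul] at e1
    have e3 := (I N0).sub_mem e1 e2
    convert e3 using 1
    ring
  have hLcD : ∀ v ∈ L, c * D v ∈ L := by
    intro v hv g
    have := hΘ _ (hst N0) g g.2 v (core_le hv)
    rwa [mul_assoc] at this
  -- the saturation
  have h2 : ∃ e0, ∀ m, e0 ≤ m → quo L c e0 = quo L c m :=
    monotone_stabilizes_iff_noetherian.mpr hN ⟨quo L c, quo_mono L hc⟩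
  obtain ⟨e0, he0⟩ := h2
  set Lt : Submodule Λ O := quo L c e0 with hLt
  have hLt1 : ∀ e v, c ^ e * v ∈ L → v ∈ Lt := by
    intro e v hv
    rw [he0 (max e0 e) (le_max_left _ _)]
    exact quo_mono L hc (le_max_right e0 e) hv
  have hLt2 : ∀ v ∈ Lt, c ^ e0 * v ∈ L := fun v hv => hv
  have hLtmul : ∀ g ∈ Λ, ∀ v ∈ Lt, g * v ∈ Lt := fun g hg v hv => Lt.smul_mem ⟨g, hg⟩ hv
  have hLtc : ∀ e v, c ^ e * v ∈ Lt → v ∈ Lt := by
    intro e v hv
    apply hLt1 (e0 + e)
    rw [pow_add, mul_assoc]
    exact hv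
  have hLtd : ∀ l, ∀ v ∈ Lt, s.d l v + γ l * v ∈ Lt := by
    intro l v hv
    apply hLt1 (e0 + 1)
    have e1 := hLmul c hc _ (hLd l _ (hLt2 v hv))
    have e2 := hLmul (s.d l c) (hd l c hc) _ (hLt2 v hv)
    have e3 := hsc.pow e0 l
    rw [Derivation.leibniz, smul_eq_mul, smul_eq_mul, e3] at e1
    have e4 := L.sub_mem e1 (L.smul_of_tower_mem e0 e2)
    convert e4 using 1
    rw [hsc l]
    simp only [Pi.smul_apply, nsmul_eq_mul]
    ring
  have hLtD : ∀ v ∈ Lt, D v ∈ Lt := by
    obtain ⟨r, hr⟩ := hord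
    -- claim A
    have hA : ∀ T : O →ₗ[F] O, (∀ v ∈ L, c * T v ∈ L) → ∀ v ∈ L, c * ad c T v ∈ L := by
      intro T hT v hv
      rw [ad_apply, mul_sub]
      exact L.sub_mem (hLmul c hc _ (hT v hv)) (hT _ (hLmul c hc v hv))
    have hB : ∀ r, ∀ T : O →ₗ[F] O, (∀ v ∈ L, c * T v ∈ L) → Ord c r T →
        ∀ e v, c ^ e * v ∈ L → T v ∈ Lt := by
      intro r
      induction r with
      | zero =>
        intro T _ hT e v _
        simp only [Ord] at hT
        rw [hT]
        exact Lt.zero_mem
      | succ r ih =>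
        intro T hT hT' e
        induction e with
        | zero =>
          intro v hv
          rw [pow_zero, one_mul] at hv
          exact hLt1 1 _ (by rw [pow_one]; exact hT v hv)
        | succ e ihe =>
          intro v hv
          rw [pow_succ, mul_assoc] at hv
          have h3 := ihe (c * v) hv
          have h4 := ih (ad c T) (hA T hT) hT' (e + 1) v (by rw [pow_succ, mul_assoc]; exact hv)
          rw [ad_apply] at h4
          have h5 := Lt.add_mem h4 h3
          rw [sub_add_cancel] at h5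
          exact hLtc 1 _ (by rw [pow_one]; exact h5)
    intro v hv
    exact hB r D hLcD hr e0 v hv
  -- the decomposition
  have hdec : ∀ n, N0 ≤ n → ∀ f ∈ I n, ∃ u ∈ Lt, ∃ k ∈ LinearMap.ker D, u + k = f := by
    intro n hn f hf
    have hDf : D f ∈ Lt := by
      apply hLt1 1
      rw [pow_one, hN0 n hn]
      intro g
      have := hΘ _ (hst n) g g.2 f hf
      rwa [mul_assoc] at this
    obtain ⟨q, hq0, hq⟩ := hDg f
    have hpow : ∀ p : Polynomial F, ∀ u ∈ Lt, Polynomial.aeval D p u ∈ Lt := by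
      intro p u hu
      induction p using Polynomial.induction_on with
      | C a =>
        rw [Polynomial.aeval_C]
        exact Lt.smul_of_tower_mem a hu
      | add p q hp hq => rw [map_add]; exact Lt.add_mem hp hq
      | monomial n a ih =>
        rw [pow_succ', mul_left_comm, map_mul, Polynomial.aeval_X]
        exact hLtD _ ih
    have e1 : Polynomial.aeval D q f = Polynomial.aeval D q.divX (D f) + (q.eval 0) • f := by
      conv_lhs => rw [← Polynomial.divX_mul_X_add q]
      rw [map_add, map_mul, Polynomial.aeval_X, Polynomial.aeval_C, Polynomial.coeff_zero_eq_eval_zero]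
      rfl
    refine ⟨- (q.eval 0)⁻¹ • Polynomial.aeval D q.divX (D f), Lt.smul_of_tower_mem _ (hpow _ _ hDf),
      (q.eval 0)⁻¹ • Polynomial.aeval D q f, ?_, ?_⟩
    · rw [LinearMap.mem_ker, map_smul, hq, smul_zero]
    · rw [e1, smul_add, smul_smul, inv_mul_cancel₀ hq0, one_smul, neg_smul]
      abel
  -- the chain inside the saturation
  set LF : Submodule F O := Lt.restrictScalars F with hLF
  have hLFst : Stab s γ LF := ⟨fun m v hv => hLtmul _ (hx m) v hv, hLtd⟩
  set J : ℕ → Submodule F O := fun n => LF ⊓ (I n ⊔ LinearMap.ker D) with hJ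
  have hJst : Stz J := by
    have hJmono : Monotone J := fun i j hij => inf_le_inf_left _ (sup_le_sup_right (hI hij) _)
    have hJs : ∀ n, Stab s γ (J n) := fun n => hLFst.inf ((hst n).sup hker)
    apply Stz_mod hJmono (pr F (c ^ e0))
    · exact hgood e0 _ (fun i j h => sup_le_sup_right (hJmono h) _)
        (fun n => (hJs n).sup (Stab.pr (hsc.pow e0) γ)) (fun n => le_sup_right)
    · refine Stz_congr (c' := fun _ => LF ⊓ pr F (c ^ e0)) N0 (fun n hn => ?_) ⟨0, fun _ _ => rfl⟩
      apply le_antisymm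
      · exact inf_le_inf_right _ inf_le_left
      · rintro v ⟨hv1, hv2⟩
        refine ⟨⟨hv1, ?_⟩, hv2⟩
        rw [SetLike.mem_coe, mem_pr] at hv2
        obtain ⟨t, rfl⟩ := hv2
        apply Submodule.mem_sup_left
        have h3 : t ∈ Lt := hLtc e0 t hv1
        exact hI hn (core_le (hLt2 t h3))
  have hker2 : Stz (fun n => I n ⊓ LinearMap.ker D) :=
    hkch _ (fun i j h => inf_le_inf_right _ (hI h)) (fun n => (hst n).inf hker)
      (fun n => inf_le_right)
  apply Stz_mod hI (LinearMap.ker D)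
  · refine Stz_congr (c' := fun n => J n ⊔ LinearMap.ker D) N0 (fun n hn => ?_) ?_
    · apply le_antisymm
      · apply sup_le _ le_sup_right
        intro f hf
        obtain ⟨u, hu, k, hk, rfl⟩ := hdec n hn f hf
        refine Submodule.add_mem_sup ⟨hu, ?_⟩ hk
        have : u = (u + k) - k := by abel
        rw [this]
        exact Submodule.sub_mem _ (Submodule.mem_sup_left hf) (Submodule.mem_sup_right hk)
      · exact sup_le (inf_le_right) le_sup_right
    · obtain ⟨N, hN⟩ := hJst
      exact ⟨N, fun n hn => by beta_reduce; rw [hN n hn]⟩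
  · exact hker2

end

end Run7.h143
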