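import Pool.Agent.Run7.h143.ZMain

/-!
Noetherianity over the algebra of symmetric multipliers.
-/

set_option autoImplicit false
set_option linter.unusedSectionVars false
set_option linter.unusedSimpArgs false

namespace Run7.h143

open AddMonoidAlgebra

lemma noeth_mono {F : Type*} [Field F] {O : Type*} [CommRing O] [Algebra F O]
    {Λ₀ Λ : Subalgebra F O} (h : Λ₀ ≤ Λ) (hN : IsNoetherian Λ₀ O) : IsNoetherian Λ O := by
  let _ : Algebra Λ₀ Λ := (Subalgebra.inclusion h).toAlgebra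
  have : IsScalarTower Λ₀ Λ O := ⟨fun a b c => by
    change ((a : O) * (b : O)) * c = (a : O) * ((b : O) * c)
    ring⟩
  exact isNoetherian_of_tower Λ₀ hN

/-- Finiteness over a subalgebra containing the coefficients of a polynomial. -/
lemma noeth_of {F : Type*} [Field F] {O : Type*} [CommRing O] [Nontrivial O] [Algebra F O]
    (Λ₀ : Subalgebra F O) (hfg : Λ₀.FG) {ι : Type*} [Fintype ι] (z : ι → Oˣ)
    (hgen : ∀ T : Subalgebra F O, Λ₀ ≤ T → (∀ i, (z i : O) ∈ T) →
      (∀ i, (((z i)⁻¹ : Oˣ) : O) ∈ T) → T = ⊤)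
    (f : Polynomial O) (hf : f.Monic) (hf0 : ∀ k, f.coeff k ∈ Λ₀) (hfz : ∀ i, f.eval (z i : O) = 0)
    {σ : Type*} [Fintype σ] [DecidableEq σ] (r : σ → ι) (hr : Function.Surjective r)
    (hinv : ((∏ t, (z (r t))⁻¹ : Oˣ) : O) ∈ Λ₀) : IsNoetherian Λ₀ O := by
  -- lift of the polynomial
  have h1 : f ∈ Polynomial.lifts (algebraMap Λ₀ O) := by
    rw [Polynomial.lifts_iff_coeff_lifts]
    intro k
    exact ⟨⟨f.coeff k, hf0 k⟩, rfl⟩
  obtain ⟨g, hg1, _, hg3⟩ := Polynomial.lifts_and_natDegree_eq_and_monic h1 hf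
  have hz : ∀ i, IsIntegral Λ₀ (z i : O) := by
    intro i
    refine ⟨g, hg3, ?_⟩
    rw [Polynomial.eval₂_eq_eval_map, hg1, hfz]
  have hzi : ∀ i, IsIntegral Λ₀ (((z i)⁻¹ : Oˣ) : O) := by
    intro i
    obtain ⟨t, rfl⟩ := hr i
    have e1 : (z (r t))⁻¹ = (∏ t, (z (r t))⁻¹) * ∏ t' ∈ Finset.univ.erase t, z (r t') := by
      rw [← Finset.mul_prod_erase Finset.univ (fun t => (z (r t))⁻¹) (Finset.mem_univ t), mul_assoc,
        ← Finset.prod_mul_distrib]
      simp
    rw [e1, Units.val_mul, Units.coe_prod]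
    refine IsIntegral.mul ?_ ?_
    · have h2 : IsIntegral Λ₀ (algebraMap Λ₀ O ⟨_, hinv⟩) := isIntegral_algebraMap
      rw [Units.coe_prod] at hinv
      have h3 : (∏ t, (((z (r t))⁻¹ : Oˣ) : O)) = ((∏ t, (z (r t))⁻¹ : Oˣ) : O) := by
        rw [Units.coe_prod]
      rw [h3]
      exact h2
    · rw [Units.coe_prod]
      exact IsIntegral.prod _ (fun t' _ => hz _)
  have hgen' : ∀ T' : Subalgebra Λ₀ O, (∀ i, (z i : O) ∈ T') → (∀ i, (((z i)⁻¹ : Oˣ) : O) ∈ T') →
      T' = ⊤ := by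
    intro T' h1 h2
    have h3 := hgen (T'.restrictScalars F) (fun v hv => T'.algebraMap_mem ⟨v, hv⟩) h1 h2
    rw [eq_top_iff]
    intro v _
    have h4 : v ∈ T'.restrictScalars F := by rw [h3]; exact Algebra.mem_top
    exact h4
  have hint : Algebra.IsIntegral Λ₀ O := by
    constructor
    intro v
    have h2 : integralClosure Λ₀ O = ⊤ := hgen' _ hz hzi
    have h3 : v ∈ integralClosure Λ₀ O := by rw [h2]; exact Algebra.mem_top
    exact h3
  classical
  have hft : Algebra.FiniteType Λ₀ O := by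
    refine ⟨⟨Finset.univ.image (fun i => (z i : O)) ∪ Finset.univ.image
      (fun i => (((z i)⁻¹ : Oˣ) : O)), ?_⟩⟩
    apply hgen'
    · intro i
      exact Algebra.subset_adjoin (by simp)
    · intro i
      exact Algebra.subset_adjoin (by simp)
  have hfin : Module.Finite Λ₀ O := Algebra.IsIntegral.finite
  have : Algebra.FiniteType F Λ₀ := (Subalgebra.fg_iff_finiteType Λ₀).mp hfg
  have : IsNoetherianRing Λ₀ := Algebra.FiniteType.isNoetherianRing F Λ₀
  exact isNoetherian_of_isNoetherianRing_of_finite Λ₀ O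

namespace Zd

variable {F : Type*} [Field F] {ι : Type} [DecidableEq ι] [Fintype ι] {O : Type*} [CommRing O]
  [Algebra F O] {s : Sys F ι O} {ν : ℕ} {ζ : Fin ν → ι} {α : Type} [DecidableEq α] [Fintype α]
  (A : Zd s ζ α)

include A in
lemma rec_x [Nontrivial O] (m : ℤ) :
    ∑ k : Fin (ν + 1), (cp (fun t => s.z (ζ t)) Finset.univ).coeff k * s.x (m + k) = 0 := by
  have h1 := A.kill ((yy ^ m : (LP O Unit)ˣ) : LP O Unit)
  rw [← pe_cp, pe_eq_sum (n := ν + 1) (by rw [cp_natDegree]; simp), Finset.sum_mul, map_sum] at h1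
  rw [← h1]
  apply Finset.sum_congr rfl
  intro k _
  rw [mul_assoc, xf_C_mul, ← Units.val_mul, ← zpow_add, xf_yy, add_comm m]

include A in
lemma x_mem [Nontrivial O] (T : Subalgebra F O)
    (hc : ∀ k, (cp (fun t => s.z (ζ t)) Finset.univ).coeff k ∈ T)
    (hi : ((∏ t, (s.z (ζ t))⁻¹ : Oˣ) : O) ∈ T) (hx : ∀ k : Fin ν, s.x ((k : ℕ) : ℤ) ∈ T) (m : ℤ) :
    s.x m ∈ T := by
  have hup : ∀ n : ℕ, s.x (n : ℤ) ∈ T := by
    intro n
    induction n using Nat.strong_induction_on with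
    | _ n ih =>
      by_cases hn : n < ν
      · exact hx ⟨n, hn⟩
      · have h1 := A.rec_x ((n : ℤ) - ν)
        rw [Fin.sum_univ_castSucc] at h1
        have h2 : (cp (fun t => s.z (ζ t)) Finset.univ).coeff ((Fin.last ν : Fin (ν + 1)) : ℕ) = 1 := by
          have h3 := cp_monic (fun t => s.z (ζ t)) Finset.univ
          rw [Polynomial.Monic, Polynomial.leadingCoeff, cp_natDegree] at h3
          simpa using h3
        rw [h2, one_mul] at h1
        have h3 : ((n : ℤ) - ν) + ((Fin.last ν : Fin (ν + 1)) : ℕ) = n := by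
          rw [Fin.val_last]; ring
        rw [h3] at h1
        rw [eq_neg_of_add_eq_zero_right h1]
        apply Subalgebra.neg_mem
        apply Subalgebra.sum_mem
        intro k _
        apply Subalgebra.mul_mem _ (hc _)
        have h4 : ((n : ℤ) - ν) + ((Fin.castSucc k : Fin (ν + 1)) : ℕ) = ((n - ν + k : ℕ) : ℤ) := by
          rw [Fin.val_castSucc]
          push_cast
          rw [Nat.cast_sub (by omega)]
        rw [h4]
        apply ih
        have := k.2
        omega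
  have hdown : ∀ n : ℕ, s.x (-(n : ℤ)) ∈ T := by
    intro n
    induction n using Nat.strong_induction_on with
    | _ n ih =>
      have h1 := A.rec_x (-(n : ℤ))
      rw [Fin.sum_univ_succ] at h1
      have h2 : (cp (fun t => s.z (ζ t)) Finset.univ).coeff ((0 : Fin (ν + 1)) : ℕ) =
          (-1) ^ ν * ((∏ t, s.z (ζ t) : Oˣ) : O) := by
        unfold cp
        rw [Fin.val_zero, Polynomial.coeff_zero_eq_eval_zero, Polynomial.eval_prod]
        simp only [Polynomial.eval_sub, Polynomial.eval_X, Polynomial.eval_C, zero_sub]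
        rw [Finset.prod_neg, Units.coe_prod]
        simp
      by_cases hn0 : n = 0
      · subst hn0
        have := hup 0
        simpa using this
      have h3 : ((0 : Fin (ν + 1)) : ℕ) = 0 := rfl
      rw [h2, h3, Nat.cast_zero, add_zero] at h1
      have h4 : ((∏ t, (s.z (ζ t))⁻¹ : Oˣ) : O) * ((∏ t, s.z (ζ t) : Oˣ) : O) = 1 := by
        rw [← Units.val_mul, ← Finset.prod_mul_distrib]
        simp
      have h6 : ((-1 : O) ^ ν) * (-1) ^ ν = 1 := by
        rw [← mul_pow]; simp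
      have h5 : s.x (-(n : ℤ)) = - ((-1) ^ ν * (((∏ t, (s.z (ζ t))⁻¹ : Oˣ) : O) *
          ∑ k : Fin ν, (cp (fun t => s.z (ζ t)) Finset.univ).coeff ((k.succ : Fin (ν + 1)) : ℕ) *
            s.x (-(n : ℤ) + ((k.succ : Fin (ν + 1)) : ℕ)))) := by
        have h7 := eq_neg_of_add_eq_zero_right h1
        rw [h7]
        linear_combination (- s.x (-(n : ℤ))) * h6 - ((-1 : O) ^ ν * (-1) ^ ν) *
          s.x (-(n : ℤ)) * h4
      rw [h5]
      apply Subalgebra.neg_mem
      apply Subalgebra.mul_mem _ (Subalgebra.pow_mem _ (Subalgebra.neg_mem _ (Subalgebra.one_mem _)) _)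
      apply Subalgebra.mul_mem _ hi
      apply Subalgebra.sum_mem
      intro k _
      apply Subalgebra.mul_mem _ (hc _)
      by_cases hk : n ≤ (k : ℕ) + 1
      · have h8 : -(n : ℤ) + ((k.succ : Fin (ν + 1)) : ℕ) = ((k + 1 - n : ℕ) : ℤ) := by
          rw [Fin.val_succ, Nat.cast_sub hk]
          push_cast
          ring
        rw [h8]
        exact hup _
      · have h8 : -(n : ℤ) + ((k.succ : Fin (ν + 1)) : ℕ) = -((n - (k + 1) : ℕ) : ℤ) := by
          rw [Fin.val_succ, Nat.cast_sub (by omega)]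
          push_cast
          ring
        rw [h8]
        apply ih
        omega
  rcases Int.eq_nat_or_neg m with ⟨n, rfl | rfl⟩
  · exact hup n
  · exact hdown n

/-- The polynomial whose roots are the remaining points. -/
noncomputable def fα : Polynomial O := ∏ a, (Polynomial.X - Polynomial.C (s.z (A.j a) : O))

lemma fα_coeff (k : ℕ) : A.fα.coeff k ∈ A.Lam := by
  refine ⟨(∏ a, (Polynomial.X - Polynomial.C ((Z a : (LP A.G0 α)ˣ) : LP A.G0 α))).coeff k,
    fun σ => ?_⟩
  rw [← Polynomial.coeff_map]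
  congr 1
  unfold fα
  rw [Polynomial.map_prod]
  refine Eq.trans ?_ (Equiv.prod_comp σ _)
  apply Finset.prod_congr rfl
  intro a _
  rw [Polynomial.map_sub, Polynomial.map_X, Polynomial.map_C]
  unfold evσ
  rw [lf_Z]

lemma inv_α : ((∏ a, (s.z (A.j a))⁻¹ : Oˣ) : O) ∈ A.Lam := by
  refine ⟨((∏ a, (Z a)⁻¹ : (LP A.G0 α)ˣ) : LP A.G0 α), fun σ => ?_⟩
  rw [Units.coe_prod, map_prod, Units.coe_prod]
  refine Eq.trans ?_ (Equiv.prod_comp σ _)
  apply Finset.prod_congr rfl
  intro a _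
  unfold evσ
  have := lf_Zz (algebraMap A.G0 O) (fun a => s.z (A.j (σ a))) a (-1)
  rw [zpow_neg_one, zpow_neg_one] at this
  exact this

/-- Noetherianity. -/
theorem noeth [CharZero F] [Nontrivial O]
    (hgen : ∀ T : Subalgebra F O, (∀ m, s.x m ∈ T) → (∀ i, (s.z i : O) ∈ T) →
      (∀ i, (((s.z i)⁻¹ : Oˣ) : O) ∈ T) → T = ⊤) : IsNoetherian A.Lam O := by
  classical
  let f : Polynomial O := cp (fun t => s.z (ζ t)) Finset.univ * A.fα
  have hcp : ∀ k, (cp (fun t => s.z (ζ t)) Finset.univ).coeff k ∈ A.Lam := fun k =>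
    A.G0_le_Lam (GG_coeff s ζ A.p A.kill (fun a t => A.pzζ a t) k)
  have hfk : ∀ k, f.coeff k ∈ A.Lam := by
    intro k
    rw [Polynomial.coeff_mul]
    exact Subalgebra.sum_mem _ (fun q _ => Subalgebra.mul_mem _ (hcp _) (A.fα_coeff _))
  have hiζ : ((∏ t, (s.z (ζ t))⁻¹ : Oˣ) : O) ∈ A.Lam :=
    A.G0_le_Lam (GG_inv s ζ A.p A.kill (fun a t => A.pzζ a t))
  let X0 : Finset O := (Finset.range (f.natDegree + 1)).image f.coeff ∪
    ((Finset.range (ν + 1)).image (cp (fun t => s.z (ζ t)) Finset.univ).coeff ∪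
    ({((∏ t, (s.z (ζ t))⁻¹ : Oˣ) : O), ((∏ a, (s.z (A.j a))⁻¹ : Oˣ) : O)} ∪
    (Finset.range ν).image (fun k : ℕ => s.x (k : ℤ))))
  let Λ₀ : Subalgebra F O := Algebra.adjoin F (X0 : Set O)
  have hsub : ∀ v ∈ X0, v ∈ Λ₀ := fun v hv => Algebra.subset_adjoin hv
  have hle : Λ₀ ≤ A.Lam := by
    rw [Algebra.adjoin_le_iff]
    intro v hv
    simp only [X0, Finset.coe_union, Set.mem_union, Finset.mem_coe, Finset.mem_image,
      Finset.mem_insert, Finset.mem_singleton] at hv
    rcases hv with ⟨k, _, rfl⟩ | ⟨k, _, rfl⟩ | (rfl | rfl) | ⟨k, _, rfl⟩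
    · exact hfk k
    · exact hcp k
    · exact hiζ
    · exact A.inv_α
    · exact A.G0_le_Lam (A.G0_x _)
  have hf0 : ∀ k, f.coeff k ∈ Λ₀ := by
    intro k
    by_cases hk : k < f.natDegree + 1
    · apply hsub
      simp only [X0, Finset.mem_union, Finset.mem_image, Finset.mem_range]
      exact Or.inl ⟨k, hk, rfl⟩
    · rw [Polynomial.coeff_eq_zero_of_natDegree_lt (by omega)]
      exact Subalgebra.zero_mem _
  have hcp0 : ∀ k, (cp (fun t => s.z (ζ t)) Finset.univ).coeff k ∈ Λ₀ := by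
    intro k
    by_cases hk : k < ν + 1
    · apply hsub
      simp only [X0, Finset.mem_union, Finset.mem_image, Finset.mem_range]
      exact Or.inr (Or.inl ⟨k, hk, rfl⟩)
    · rw [Polynomial.coeff_eq_zero_of_natDegree_lt (by rw [cp_natDegree]; simp; omega)]
      exact Subalgebra.zero_mem _
  have hi0 : ((∏ t, (s.z (ζ t))⁻¹ : Oˣ) : O) ∈ Λ₀ := by
    apply hsub
    simp only [X0, Finset.mem_union, Finset.mem_insert]
    exact Or.inr (Or.inr (Or.inl (Or.inl trivial)))
  have hi1 : ((∏ a, (s.z (A.j a))⁻¹ : Oˣ) : O) ∈ Λ₀ := by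
    apply hsub
    simp only [X0, Finset.mem_union, Finset.mem_insert, Finset.mem_singleton]
    exact Or.inr (Or.inr (Or.inl (Or.inr trivial)))
  have hx0 : ∀ m, s.x m ∈ Λ₀ := by
    apply A.x_mem Λ₀ hcp0 hi0
    intro k
    apply hsub
    simp only [X0, Finset.mem_union, Finset.mem_image, Finset.mem_range]
    exact Or.inr (Or.inr (Or.inr ⟨k, k.2, rfl⟩))
  refine noeth_mono hle ?_
  refine noeth_of Λ₀ (Subalgebra.fg_adjoin_finset X0) s.z (fun T hT h1 h2 =>
    hgen T (fun m => hT (hx0 m)) h1 h2) f ?_ hf0 ?_ (σ := Fin ν ⊕ α) (Sum.elim ζ A.j) ?_ ?_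
  · refine (cp_monic _ _).mul ?_
    unfold fα
    exact Polynomial.monic_prod_of_monic _ _ (fun _ _ => Polynomial.monic_X_sub_C _)
  · intro i
    rw [Polynomial.eval_mul]
    rcases A.jtot i with ⟨t, rfl⟩ | ⟨a, rfl⟩
    · have : (cp (fun t => s.z (ζ t)) Finset.univ).eval (s.z (ζ t) : O) = 0 := by
        unfold cp
        rw [Polynomial.eval_prod]
        apply Finset.prod_eq_zero (Finset.mem_univ t)
        simp
      rw [this, zero_mul]
    · have : A.fα.eval (s.z (A.j a) : O) = 0 := by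
        unfold fα
        rw [Polynomial.eval_prod]
        apply Finset.prod_eq_zero (Finset.mem_univ a)
        simp
      rw [this, mul_zero]
  · intro i
    rcases A.jtot i with ⟨t, rfl⟩ | ⟨a, rfl⟩
    · exact ⟨Sum.inl t, rfl⟩
    · exact ⟨Sum.inr a, rfl⟩
  · rw [Fintype.prod_sum_type, Units.val_mul]
    exact Subalgebra.mul_mem _ hi0 hi1

end Zd

end Run7.h143
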