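import Pool.Agent.Run7.h143.Noe

/-!
The concrete systems: polynomials in the sequence and Laurent polynomials in the points.
-/

set_option autoImplicit false
set_option linter.unusedSectionVars false
set_option linter.unusedSimpArgs false
set_option linter.unusedVariables false

namespace Run7.h143

open AddMonoidAlgebra

/-! ### Morphisms -/

/-- Morphisms of systems. -/
structure SHom {F : Type*} [Field F] {ι ι' : Type} {O O' : Type*} [CommRing O] [Algebra F O]
    [CommRing O'] [Algebra F O'] (s : Sys F ι O) (s' : Sys F ι' O') (μ : ι → ι')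
    (f : O →ₐ[F] O') : Prop where
  z : ∀ i, f (s.z i : O) = s'.z (μ i)
  x : ∀ m, f (s.x m) = s'.x m
  d : ∀ l v, f (s.d l v) = s'.d l (f v)

section shom

variable {F : Type*} [Field F] {ι ι' : Type} {O O' : Type*} [CommRing O] [Algebra F O]
    [CommRing O'] [Algebra F O'] {s : Sys F ι O} {s' : Sys F ι' O'} {μ : ι → ι'}
    {f : O →ₐ[F] O'}

lemma SHom.units (h : SHom s s' μ f) (i : ι) :
    Units.map ((f : O →+* O') : O →* O') (s.z i) = s'.z (μ i) := by
  ext1
  exact h.z i

lemma SHom.comap (h : SHom s s' μ f) {γ : ℤ → O} {γ' : ℤ → O'} (hγ : ∀ l, f (γ l) = γ' l)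
    {J : Submodule F O'} (hJ : Stab s' γ' J) : Stab s γ (J.comap f.toLinearMap) where
  hx := by
    intro m v hv
    rw [Submodule.mem_comap, AlgHom.toLinearMap_apply] at hv ⊢
    rw [map_mul, h.x]
    exact hJ.hx m _ hv
  hd := by
    intro l v hv
    rw [Submodule.mem_comap, AlgHom.toLinearMap_apply] at hv ⊢
    rw [map_add, map_mul, h.d, hγ]
    exact hJ.hd l _ hv

lemma SHom.map (h : SHom s s' μ f) {γ : ℤ → O} {γ' : ℤ → O'} (hγ : ∀ l, f (γ l) = γ' l)
    {J : Submodule F O} (hJ : Stab s γ J) : Stab s' γ' (J.map f.toLinearMap) where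
  hx := by
    rintro m _ ⟨v, hv, rfl⟩
    refine ⟨s.x m * v, hJ.hx m v hv, ?_⟩
    rw [AlgHom.toLinearMap_apply, AlgHom.toLinearMap_apply, map_mul, h.x]
  hd := by
    rintro l _ ⟨v, hv, rfl⟩
    refine ⟨s.d l v + γ l * v, hJ.hd l v hv, ?_⟩
    rw [AlgHom.toLinearMap_apply, AlgHom.toLinearMap_apply, map_add, map_mul, h.d, hγ]

/-- Chains through a surjection. -/
lemma SHom.ch_of_surj (h : SHom s s' μ f) (hf : Function.Surjective f) {γ : ℤ → O} {γ' : ℤ → O'}
    (hγ : ∀ l, f (γ l) = γ' l) {B : Submodule F O} {B' : Submodule F O'}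
    (hB : B ≤ B'.comap f.toLinearMap) (hc : Ch s γ B) :
    Ch s' γ' B' := by
  intro c hmono hst hb
  apply Stz_surj f.toLinearMap hf
  exact hc _ (fun i j hij => Submodule.comap_mono (hmono hij)) (fun n => h.comap hγ (hst n))
    (fun n => hB.trans (Submodule.comap_mono (hb n)))

/-- Chains containing the kernel of a surjection. -/
lemma SHom.ch_of_ker (h : SHom s s' μ f) {γ : ℤ → O} {γ' : ℤ → O'}
    (hγ : ∀ l, f (γ l) = γ' l) {B : Submodule F O} {B' : Submodule F O'}
    (hker : ∀ v, f v = 0 → v ∈ B) (hB : B' ≤ B.map f.toLinearMap) (hc : Ch s' γ' B') :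
    Ch s γ B := by
  intro c hmono hst hb
  have h1 := hc (fun n => (c n).map f.toLinearMap) (fun i j hij => Submodule.map_mono (hmono hij))
    (fun n => h.map hγ (hst n)) (fun n => hB.trans (Submodule.map_mono (hb n)))
  obtain ⟨N, hN⟩ := h1
  refine ⟨N, fun n hn => le_antisymm ?_ (hmono hn)⟩
  intro v hv
  have h2 : f.toLinearMap v ∈ (c N).map f.toLinearMap := by
    have := hN n hn
    beta_reduce at this
    rw [← this]
    exact Submodule.mem_map_of_mem hv
  obtain ⟨v', hv', hvv⟩ := h2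
  have h3 : v - v' ∈ B := by
    apply hker
    rw [map_sub, sub_eq_zero]
    exact hvv.symm
  have h4 := (c N).add_mem (hb N h3) hv'
  rwa [sub_add_cancel] at h4

end shom

/-! ### Twists -/

section tw

variable {F : Type*} [Field F] {ι : Type} {O : Type*} [CommRing O] [Algebra F O]

/-- The class of twists. -/
def Tw (s : Sys F ι O) : AddSubmonoid (ℤ → O) :=
  AddSubmonoid.closure ({γ | ∃ a b, γ = fun l => gg l (s.z a) (s.z b)} ∪
    {γ | ∃ a, γ = fun l => - gg l (s.z a) (s.z a)})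

lemma Tw_gg (s : Sys F ι O) (a b : ι) : (fun l => gg l (s.z a) (s.z b)) ∈ Tw s :=
  AddSubmonoid.subset_closure (Or.inl ⟨a, b, rfl⟩)

lemma Tw_neg (s : Sys F ι O) (a : ι) : (fun l => - gg l (s.z a) (s.z a)) ∈ Tw s :=
  AddSubmonoid.subset_closure (Or.inr ⟨a, rfl⟩)

lemma Tw_map {ι' : Type} {O' : Type*} [CommRing O'] [Algebra F O'] {s : Sys F ι O}
    {s' : Sys F ι' O'} {μ : ι → ι'} {f : O →ₐ[F] O'} (h : SHom s s' μ f) {γ : ℤ → O}
    (hγ : γ ∈ Tw s) : (fun l => f (γ l)) ∈ Tw s' := by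
  unfold Tw at hγ
  induction hγ using AddSubmonoid.closure_induction with
  | mem γ hγ =>
    rcases hγ with ⟨a, b, rfl⟩ | ⟨a, rfl⟩
    · have : (fun l => f (gg l (s.z a) (s.z b))) = fun l => gg l (s'.z (μ a)) (s'.z (μ b)) := by
        funext l
        have := gg_map (f : O →+* O') l (s.z a) (s.z b)
        rw [h.units, h.units] at this
        exact this
      rw [this]
      exact Tw_gg s' _ _
    · have : (fun l => f (- gg l (s.z a) (s.z a))) = fun l => - gg l (s'.z (μ a)) (s'.z (μ a)) := by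
        funext l
        have := gg_map (f : O →+* O') l (s.z a) (s.z a)
        rw [h.units] at this
        rw [map_neg]
        exact congrArg Neg.neg this
      rw [this]
      exact Tw_neg s' _
  | zero =>
    have : (fun l => f ((0 : ℤ → O) l)) = 0 := by funext l; simp
    rw [this]
    exact AddSubmonoid.zero_mem _
  | add γ γ' _ _ h1 h2 =>
    have : (fun l => f ((γ + γ') l)) = (fun l => f (γ l)) + fun l => f (γ' l) := by
      funext l; simp
    rw [this]
    exact AddSubmonoid.add_mem _ h1 h2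

variable [Fintype ι]

lemma wt_add (s : Sys F ι O) (w w' : ι → ℤ) : wt s (w + w') = wt s w + wt s w' := by
  funext l
  unfold wt
  rw [Pi.add_apply, ← Finset.sum_add_distrib]
  apply Finset.sum_congr rfl
  intro i _
  rw [Pi.add_apply]
  push_cast
  ring

lemma wt_zero (s : Sys F ι O) : wt s 0 = 0 := by
  funext l
  simp [wt]

lemma wt_single [DecidableEq ι] (s : Sys F ι O) (a : ι) (k : ℤ) :
    wt s (Pi.single a k) = fun l => (k : O) * gg l (s.z a) (s.z a) := by
  funext l
  unfold wt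
  rw [Finset.sum_eq_single a]
  · rw [Pi.single_eq_same, gg_self]
  · intro b _ hb
    rw [Pi.single_eq_of_ne hb]
    simp
  · simp

lemma wt_mem [DecidableEq ι] (s : Sys F ι O) (w : ι → ℤ) : wt s w ∈ Tw s := by
  have h1 : w = ∑ i, Pi.single i (w i) := (Finset.univ_sum_single w).symm
  have h2 : ∀ t : Finset ι, wt s (∑ i ∈ t, Pi.single i (w i)) ∈ Tw s := by
    intro t
    induction t using Finset.induction_on with
    | empty => rw [Finset.sum_empty, wt_zero]; exact AddSubmonoid.zero_mem _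
    | insert a t ha ih =>
      rw [Finset.sum_insert ha, wt_add]
      refine AddSubmonoid.add_mem _ ?_ ih
      rw [wt_single]
      rcases Int.eq_nat_or_neg (w a) with ⟨n, h | h⟩
      · rw [h]
        have : (fun l => (((n : ℤ) : ℤ) : O) * gg l (s.z a) (s.z a)) =
            n • fun l => gg l (s.z a) (s.z a) := by
          funext l; simp
        rw [this]
        exact AddSubmonoid.nsmul_mem _ (Tw_gg s a a) n
      · rw [h]
        have : (fun l => (((-(n : ℤ)) : ℤ) : O) * gg l (s.z a) (s.z a)) =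
            n • fun l => - gg l (s.z a) (s.z a) := by
          funext l; simp
        rw [this]
        exact AddSubmonoid.nsmul_mem _ (Tw_neg s a) n
  rw [h1]
  exact h2 _

/-- Every twist is a weight up to a regular semi-invariant. -/
lemma untwist [DecidableEq ι] (s : Sys F ι O)
    (hreg : ∀ a b, a ≠ b → ((s.z a : O) - s.z b) ∈ nonZeroDivisors O) {γ : ℤ → O}
    (hγ : γ ∈ Tw s) : ∃ (b : O) (γ' : ℤ → O) (w : ι → ℤ), b ∈ nonZeroDivisors O ∧ SI s b γ' ∧
      γ = γ' + wt s w ∧ γ' ∈ Tw s := by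
  unfold Tw at hγ
  induction hγ using AddSubmonoid.closure_induction with
  | mem γ hγ =>
    rcases hγ with ⟨a, b, rfl⟩ | ⟨a, rfl⟩
    · by_cases hab : a = b
      · subst hab
        refine ⟨1, 0, Pi.single a 1, one_mem _, SI.one, ?_, AddSubmonoid.zero_mem _⟩
        rw [wt_single, zero_add]
        funext l
        simp
      · refine ⟨_, _, 0, hreg a b hab, SI.sub_z s a b, ?_, Tw_gg s a b⟩
        rw [wt_zero, add_zero]
    · refine ⟨1, 0, Pi.single a (-1), one_mem _, SI.one, ?_, AddSubmonoid.zero_mem _⟩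
      rw [wt_single, zero_add]
      funext l
      simp
  | zero => exact ⟨1, 0, 0, one_mem _, SI.one, by rw [wt_zero, add_zero], AddSubmonoid.zero_mem _⟩
  | add γ γ' _ _ h1 h2 =>
    obtain ⟨b, g, w, hb, hs, rfl, hm⟩ := h1
    obtain ⟨b', g', w', hb', hs', rfl, hm'⟩ := h2
    refine ⟨b * b', g + g', w + w', mul_mem hb hb', hs.mul hs', ?_, AddSubmonoid.add_mem _ hm hm'⟩
    rw [wt_add]
    abel

/-- The chain condition for weights implies the chain condition for twists. -/
lemma Ch_untwist [DecidableEq ι] (s : Sys F ι O)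
    (hreg : ∀ a b, a ≠ b → ((s.z a : O) - s.z b) ∈ nonZeroDivisors O)
    (h : ∀ w, Ch s (wt s w) ⊥) {γ : ℤ → O} (hγ : γ ∈ Tw s) : Ch s γ ⊥ := by
  obtain ⟨b, γ', w, hb, hs, rfl, _⟩ := untwist s hreg hγ
  intro c hmono hst _
  apply Stz_inj (LinearMap.mulLeft F b)
  · intro u v huv
    rw [LinearMap.mulLeft_apply, LinearMap.mulLeft_apply] at huv
    exact (mul_cancel_left_mem_nonZeroDivisors hb).mp huv
  · refine h w _ (fun i j hij => Submodule.map_mono (hmono hij)) (fun n => ?_) (fun n => bot_le)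
    have h1 := hst n
    rw [add_comm] at h1
    exact h1.map_mul hs

end tw

/-! ### Quotients -/

section quot

variable {F : Type*} [Field F] {ι : Type} {O : Type*} [CommRing O] [Algebra F O]

lemma quot_aux (s : Sys F ι O) (J : Ideal O) (hJ : ∀ l, ∀ v ∈ J, s.d l v ∈ J) (l : ℤ) (x : O)
    (hx : Ideal.Quotient.mkₐ F J x = 0) : Ideal.Quotient.mkₐ F J (s.d l x) = 0 := by
  rw [Ideal.Quotient.mkₐ_eq_mk, Ideal.Quotient.eq_zero_iff_mem] at hx ⊢
  exact hJ l x hx

/-- The derivations of the quotient. -/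
noncomputable def qd (s : Sys F ι O) (J : Ideal O) (hJ : ∀ l, ∀ v ∈ J, s.d l v ∈ J) (l : ℤ) :
    Derivation F (O ⧸ J) (O ⧸ J) :=
  Derivation.liftOfSurjective (f := Ideal.Quotient.mkₐ F J)
    (Ideal.Quotient.mkₐ_surjective F J) (d := s.d l) (quot_aux s J hJ l)

lemma qd_apply (s : Sys F ι O) (J : Ideal O) (hJ : ∀ l, ∀ v ∈ J, s.d l v ∈ J) (l : ℤ) (v : O) :
    qd s J hJ l (Ideal.Quotient.mkₐ F J v) = Ideal.Quotient.mkₐ F J (s.d l v) :=
  Derivation.liftOfSurjective_apply (f := Ideal.Quotient.mkₐ F J)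
      (Ideal.Quotient.mkₐ_surjective F J) (quot_aux s J hJ l) v

/-- The quotient of a system. -/
noncomputable def Sys.quot (s : Sys F ι O) (J : Ideal O) (hJ : ∀ l, ∀ v ∈ J, s.d l v ∈ J) :
    Sys F ι (O ⧸ J) where
  z i := Units.map (Ideal.Quotient.mk J : O →+* O ⧸ J).toMonoidHom (s.z i)
  x m := Ideal.Quotient.mk J (s.x m)
  d := qd s J hJ
  dz l i := by
    have h := qd_apply s J hJ l (s.z i : O)
    rw [s.dz] at h
    rw [← map_zpow]
    exact h
  dx l m := by
    have h := qd_apply s J hJ l (s.x m)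
    rw [s.dx, map_mul, map_intCast] at h
    exact h

lemma quot_hom (s : Sys F ι O) (J : Ideal O) (hJ : ∀ l, ∀ v ∈ J, s.d l v ∈ J) :
    SHom s (s.quot J hJ) id (Ideal.Quotient.mkₐ F J) where
  z i := rfl
  x m := rfl
  d l v := (qd_apply s J hJ l v).symm

/-- The ideal generated by the values at multiples. -/
def nI (x : ℤ → O) (q : LP O Unit) : Ideal O :=
  Ideal.span (Set.range fun m : ℤ => xf x (q * ((yy ^ m : (LP O Unit)ˣ) : LP O Unit)))

lemma mem_nI (x : ℤ → O) (q p : LP O Unit) : xf x (q * p) ∈ nI x q := by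
  induction p using LP1_induction with
  | h0 => rw [mul_zero, map_zero]; exact Ideal.zero_mem _
  | hadd p r hp hr => rw [mul_add, map_add]; exact Ideal.add_mem _ hp hr
  | hm b n =>
    rw [mul_left_comm, xf_C_mul]
    exact Ideal.mul_mem_left _ _ (Ideal.subset_span ⟨n, rfl⟩)

lemma nI_le (x : ℤ → O) {q : LP O Unit} {J : Ideal O} (h : ∀ p, xf x (q * p) ∈ J) :
    nI x q ≤ J := by
  unfold nI
  rw [Ideal.span_le]
  rintro _ ⟨m, rfl⟩
  exact h _

lemma nI_d (s : Sys F ι O) {σ : Type*} [Fintype σ] (ζ : σ → ι) (l : ℤ) {v : O}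
    (hv : v ∈ nI s.x (ch (fun t => s.z (ζ t)) Finset.univ)) :
    s.d l v ∈ nI s.x (ch (fun t => s.z (ζ t)) Finset.univ) := by
  unfold nI at hv
  induction hv using Submodule.span_induction with
  | mem v hv =>
    obtain ⟨m, rfl⟩ := hv
    beta_reduce
    rw [xf_der, Derivation.leibniz, SI_ch s ζ Finset.univ l, smul_eq_mul, smul_eq_mul]
    have : ch (fun t => s.z (ζ t)) Finset.univ * (s.ext.d l) ((yy ^ m : (LP O Unit)ˣ) : LP O Unit) +
        ((yy ^ m : (LP O Unit)ˣ) : LP O Unit) * ((∑ t : σ, fun l => gg l yy (Cu (s.z (ζ t)))) l *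
          ch (fun t => s.z (ζ t)) Finset.univ) -
        ((l : ℤ) : LP O Unit) * ((yy ^ (l - 1) : (LP O Unit)ˣ) : LP O Unit) *
          (ch (fun t => s.z (ζ t)) Finset.univ * ((yy ^ m : (LP O Unit)ˣ) : LP O Unit)) =
        ch (fun t => s.z (ζ t)) Finset.univ * ((s.ext.d l) ((yy ^ m : (LP O Unit)ˣ) : LP O Unit) +
        ((yy ^ m : (LP O Unit)ˣ) : LP O Unit) * ((∑ t : σ, fun l => gg l yy (Cu (s.z (ζ t)))) l) -
        ((l : ℤ) : LP O Unit) * ((yy ^ (l - 1) : (LP O Unit)ˣ) : LP O Unit) *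
          ((yy ^ m : (LP O Unit)ˣ) : LP O Unit)) := by
      ring
    rw [this]
    exact mem_nI _ _ _
  | zero => rw [map_zero]; exact Ideal.zero_mem _
  | add u v _ _ hu hv => rw [map_add]; exact Ideal.add_mem _ hu hv
  | smul a v hv' hv =>
    rw [smul_eq_mul, Derivation.leibniz, smul_eq_mul, smul_eq_mul]
    exact Ideal.add_mem _ (Ideal.mul_mem_left _ _ hv) (Ideal.mul_mem_right _ _ hv')

/-- Derivations of a generated algebra. -/
lemma der_ext (s : Sys F ι O) (hgen : ∀ T : Subalgebra F O, (∀ m, s.x m ∈ T) →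
    (∀ i, (s.z i : O) ∈ T) → (∀ i, (((s.z i)⁻¹ : Oˣ) : O) ∈ T) → T = ⊤)
    (D D' : Derivation F O O) (hx : ∀ m, D (s.x m) = D' (s.x m))
    (hz : ∀ i, D (s.z i : O) = D' (s.z i)) : D = D' := by
  let T : Subalgebra F O :=
    { carrier := {v | D v = D' v}
      mul_mem' := by
        intro a b ha hb
        simp only [Set.mem_ofPred_eq] at ha hb ⊢
        rw [Derivation.leibniz, Derivation.leibniz, ha, hb]
      add_mem' := by
        intro a b ha hb
        simp only [Set.mem_ofPred_eq] at ha hb ⊢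
        rw [map_add, map_add, ha, hb]
      algebraMap_mem' := by
        intro r
        simp only [Set.mem_ofPred_eq]
        rw [Derivation.map_algebraMap, Derivation.map_algebraMap] }
  have hT : T = ⊤ := by
    apply hgen T hx hz
    intro i
    change D _ = D' _
    rw [der_inv, der_inv, hz]
  ext v
  have : v ∈ T := by rw [hT]; exact Algebra.mem_top
  exact this

end quot

/-! ### The concrete systems -/

section conc

variable (F : Type*) [Field F]

/-- The symmetric algebra. -/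
abbrev SA := MvPolynomial ℤ F

/-- The derivations of the symmetric algebra. -/
noncomputable def dS (l : ℤ) : Derivation F (SA F) (SA F) :=
  MvPolynomial.mkDerivation F (fun m : ℤ => ((m - l : ℤ) : SA F) * MvPolynomial.X (m + l - 1))

variable {F} in
lemma dS_X (l m : ℤ) : dS F l (MvPolynomial.X m) = ((m - l : ℤ) : SA F) * MvPolynomial.X (m + l - 1) :=
  MvPolynomial.mkDerivation_X _ _ _

variable (ι : Type) [Fintype ι] [DecidableEq ι]

/-- The concrete algebra. -/
abbrev PR := LP (SA F) ι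

/-- The concrete system. -/
noncomputable def sP : Sys F ι (PR F ι) where
  z := Z
  x m := single 0 (MvPolynomial.X m)
  d := dd (dS F)
  dz l i := dd_Z _ _ _
  dx l m := by
    rw [dd_C, dS_X]
    have h : (((m - l : ℤ)) : PR F ι) = single 0 ((m - l : ℤ) : SA F) :=
      (map_intCast (singleZeroRingHom : SA F →+* PR F ι) (m - l)).symm
    rw [h, single_mul_single, add_zero]

variable {F ι}

lemma sP_gen (T : Subalgebra F (PR F ι)) (hx : ∀ m, (sP F ι).x m ∈ T)
    (hz : ∀ i, ((sP F ι).z i : PR F ι) ∈ T) (hzi : ∀ i, ((((sP F ι).z i)⁻¹ : (PR F ι)ˣ) : PR F ι) ∈ T) :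
    T = ⊤ := by
  rw [eq_top_iff]
  intro v _
  induction v using LP_induction with
  | hC b =>
    induction b using MvPolynomial.induction_on with
    | C a => exact T.algebraMap_mem a
    | add p q hp hq =>
      rw [single_add]
      exact T.add_mem (hp trivial) (hq trivial)
    | mul_X p m hp =>
      have : (single 0 (p * MvPolynomial.X m) : PR F ι) = single 0 p * single 0 (MvPolynomial.X m) := by
        rw [single_mul_single, add_zero]
      rw [this]
      exact T.mul_mem (hp trivial) (hx m)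
  | hZ i => exact hz i
  | hZi i => exact hzi i
  | hadd p q hp hq => exact T.add_mem (hp trivial) (hq trivial)
  | hmul p q hp hq => exact T.mul_mem (hp trivial) (hq trivial)

/-- The polynomial of the roots. -/
noncomputable def ch0 {ν : ℕ} (ζ : Fin ν → ι) : LP (PR F ι) Unit :=
  ch (fun t => (sP F ι).z (ζ t)) Finset.univ

/-- The relations ideal. -/
noncomputable def nn {ν : ℕ} (ζ : Fin ν → ι) : Ideal (PR F ι) := nI (sP F ι).x (ch0 ζ)

lemma nn_d {ν : ℕ} (ζ : Fin ν → ι) (l : ℤ) (v : PR F ι) (hv : v ∈ nn ζ) :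
    (sP F ι).d l v ∈ nn ζ := nI_d _ ζ l hv

variable (F ι) in
/-- The quotient system. -/
noncomputable def sQ {ν : ℕ} (ζ : Fin ν → ι) : Sys F ι (PR F ι ⧸ (nn ζ : Ideal (PR F ι))) :=
  (sP F ι).quot (nn ζ) (nn_d ζ)

lemma sQ_hom {ν : ℕ} (ζ : Fin ν → ι) : SHom (sP F ι) (sQ F ι ζ) id (Ideal.Quotient.mkₐ F (nn ζ)) :=
  quot_hom _ _ _

lemma sQ_gen {ν : ℕ} (ζ : Fin ν → ι) (T : Subalgebra F (PR F ι ⧸ (nn ζ : Ideal (PR F ι))))
    (hx : ∀ m, (sQ F ι ζ).x m ∈ T) (hz : ∀ i, ((sQ F ι ζ).z i).val ∈ T)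
    (hzi : ∀ i, (((sQ F ι ζ).z i)⁻¹ : Units _).val ∈ T) : T = ⊤ := by
  have h1 : T.comap (Ideal.Quotient.mkₐ F (nn ζ)) = ⊤ := by
    apply sP_gen
    · exact hx
    · exact hz
    · intro i
      have h2 := hzi i
      have h3 : (((sQ F ι ζ).z i)⁻¹ : Units _).val =
          Ideal.Quotient.mkₐ F (nn ζ) ((((sP F ι).z i)⁻¹ : (PR F ι)ˣ) : PR F ι) := by
        change (((Units.map (Ideal.Quotient.mk (nn ζ : Ideal (PR F ι))).toMonoidHom
          ((sP F ι).z i))⁻¹ : Units _)).val = _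
        rw [← map_inv]
        rfl
      rw [h3] at h2
      exact h2
  rw [eq_top_iff]
  intro v _
  obtain ⟨p, rfl⟩ := Ideal.Quotient.mkₐ_surjective F (nn ζ : Ideal (PR F ι)) v
  have h2 : p ∈ T.comap (Ideal.Quotient.mkₐ F (nn ζ)) := by rw [h1]; exact Algebra.mem_top
  exact h2

lemma sQ_kill {ν : ℕ} (ζ : Fin ν → ι) :
    Kl (sQ F ι ζ).x (ch (fun t => (sQ F ι ζ).z (ζ t)) Finset.univ) := by
  apply Kl_of
  intro m
  have h1 : ch (fun t => (sQ F ι ζ).z (ζ t)) Finset.univ =
      mp (Ideal.Quotient.mk (nn ζ : Ideal (PR F ι))) (ch0 ζ) := by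
    unfold ch0
    rw [mp_ch]
    rfl
  rw [h1]
  have h2 : ((yy ^ m : (LP (PR F ι ⧸ (nn ζ : Ideal (PR F ι))) Unit)ˣ) :
      LP (PR F ι ⧸ (nn ζ : Ideal (PR F ι))) Unit) =
      mp (Ideal.Quotient.mk (nn ζ : Ideal (PR F ι))) ((yy ^ m : (LP (PR F ι) Unit)ˣ) :
        LP (PR F ι) Unit) := by
    rw [mp_Zz]
  rw [h2, ← map_mul]
  have h3 := xf_map (Ideal.Quotient.mk (nn ζ : Ideal (PR F ι))) (sP F ι).x
    (ch0 ζ * ((yy ^ m : (LP (PR F ι) Unit)ˣ) : LP (PR F ι) Unit))
  have h4 : (fun m => Ideal.Quotient.mk (nn ζ : Ideal (PR F ι)) ((sP F ι).x m)) =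
      (sQ F ι ζ).x := rfl
  rw [h4] at h3
  rw [← h3, Ideal.Quotient.eq_zero_iff_mem]
  exact mem_nI _ _ _

end conc

end Run7.h143
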