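import Pool.Agent.Run7.h143.Red

/-!
Removing points which are not roots.
-/

set_option autoImplicit false
set_option linter.unusedSectionVars false
set_option linter.unusedSimpArgs false
set_option linter.unusedVariables false

namespace Run7.h143

open AddMonoidAlgebra

section pd

variable {F : Type*} [Field F] {ι : Type} [Fintype ι] [DecidableEq ι]

/-- The additive map for the partial derivative. -/
noncomputable def thp (F : Type*) [Field F] {ι : Type} [Fintype ι] [DecidableEq ι] (i : ι) :
    (ι → ℤ) →+ PR F ι where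
  toFun n := ((n i : ℤ) : PR F ι) * (((Z i)⁻¹ : (PR F ι)ˣ) : PR F ι)
  map_zero' := by simp
  map_add' := by
    intro m n
    rw [Pi.add_apply]
    push_cast
    ring

/-- The partial derivative in a point. -/
noncomputable def pd (F : Type*) [Field F] {ι : Type} [Fintype ι] [DecidableEq ι] (i : ι) :
    Derivation F (PR F ι) (PR F ι) := mkD 0 (thp F i)

lemma pd_single (i : ι) (n : ι → ℤ) (b : SA F) :
    pd F i (single n b) = (n i : ℤ) • (single (n - Pi.single i 1) b : PR F ι) := by
  unfold pd
  rw [mkD_single]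
  simp only [thp, AddMonoidHom.coe_mk, ZeroHom.coe_mk, Derivation.zero_apply, single_zero, zero_add]
  rw [Z_inv, mul_assoc, single_mul_single, one_mul, zsmul_eq_mul, neg_add_eq_sub]

lemma pd_C (i : ι) (b : SA F) : pd F i (single 0 b) = 0 := by
  rw [pd_single]; simp

lemma pd_x (i : ι) (m : ℤ) : pd F i ((sP F ι).x m) = 0 := pd_C i _

lemma pd_z (i j : ι) : pd F i ((sP F ι).z j : PR F ι) = if i = j then 1 else 0 := by
  change pd F i ((Z j : (PR F ι)ˣ) : PR F ι) = _
  rw [Z_val, pd_single]
  by_cases h : i = j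
  · rw [if_pos h, h, Pi.single_eq_same, one_smul, sub_self]
    rfl
  · rw [if_neg h, Pi.single_eq_of_ne h, zero_smul]

/-- The derivation applied to the functional. -/
lemma pd_xf (D : Derivation F (PR F ι) (PR F ι)) (x : ℤ → PR F ι) (hx : ∀ m, D (x m) = 0)
    (q : LP (PR F ι) Unit) : D (xf x q) = xf x (mkD D 0 q) := by
  induction q using AddMonoidAlgebra.induction_linear with
  | zero => simp
  | add p q hp hq => rw [map_add, map_add, hp, hq, map_add, map_add]
  | single n b =>
    rw [mkD_single, AddMonoidHom.zero_apply, zero_mul, add_zero, xf_single, xf_single,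
      Derivation.leibniz, hx, smul_zero, zero_add, smul_eq_mul, mul_comm]

lemma pd_nn {ν : ℕ} (ζ : Fin ν → ι) (i : ι) (hi : ∀ t, ζ t ≠ i) {v : PR F ι}
    (hv : v ∈ (nn ζ : Ideal (PR F ι))) : pd F i v ∈ (nn ζ : Ideal (PR F ι)) := by
  have h0 : mkD (pd F i) 0 (ch0 ζ) = 0 := by
    unfold ch0 ch
    rw [der_prod]
    apply Finset.sum_eq_zero
    intro t _
    rw [map_sub, mkD_Z, mkD_C, pd_z, if_neg (hi t).symm]
    simp
  unfold nn nI at hv
  induction hv using Submodule.span_induction with
  | mem v hv =>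
    obtain ⟨m, rfl⟩ := hv
    beta_reduce
    rw [pd_xf _ _ (pd_x i), Derivation.leibniz, h0, smul_zero, add_zero, yy_zpow, mkD_single]
    simp
  | zero => rw [map_zero]; exact Ideal.zero_mem _
  | add u v _ _ hu hv => rw [map_add]; exact Ideal.add_mem _ hu hv
  | smul a v hv' hv =>
    rw [smul_eq_mul, Derivation.leibniz, smul_eq_mul, smul_eq_mul]
    exact Ideal.add_mem _ (Ideal.mul_mem_left _ _ hv) (Ideal.mul_mem_right _ _ hv')

lemma pq_aux {ν : ℕ} (ζ : Fin ν → ι) (i : ι) (hi : ∀ t, ζ t ≠ i) (v : PR F ι)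
    (hv : Ideal.Quotient.mkₐ F (nn ζ : Ideal (PR F ι)) v = 0) :
    Ideal.Quotient.mkₐ F (nn ζ : Ideal (PR F ι)) (pd F i v) = 0 :=
  (mk_nF ζ).mpr (pd_nn ζ i hi ((mk_nF ζ).mp hv))

/-- The partial derivative on the quotient. -/
noncomputable def pq {ν : ℕ} (ζ : Fin ν → ι) (i : ι) (hi : ∀ t, ζ t ≠ i) :
    Derivation F (PR F ι ⧸ (nn ζ : Ideal (PR F ι))) (PR F ι ⧸ (nn ζ : Ideal (PR F ι))) :=
  Derivation.liftOfSurjective (f := Ideal.Quotient.mkₐ F (nn ζ : Ideal (PR F ι)))
    (Ideal.Quotient.mkₐ_surjective F _) (d := pd F i) (pq_aux ζ i hi)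

lemma pq_apply {ν : ℕ} (ζ : Fin ν → ι) (i : ι) (hi : ∀ t, ζ t ≠ i) (v : PR F ι) :
    pq ζ i hi (Ideal.Quotient.mkₐ F (nn ζ : Ideal (PR F ι)) v) =
      Ideal.Quotient.mkₐ F (nn ζ : Ideal (PR F ι)) (pd F i v) :=
  Derivation.liftOfSurjective_apply (f := Ideal.Quotient.mkₐ F (nn ζ : Ideal (PR F ι)))
    (Ideal.Quotient.mkₐ_surjective F _) (pq_aux ζ i hi) v

/-- The points which are not roots. -/
abbrev NR {ν : ℕ} (ζ : Fin ν → ι) := {k : ι // ∀ t, ζ t ≠ k}

/-- The data at the points which are not roots. -/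
noncomputable def zd (F : Type*) [Field F] {ι : Type} [Fintype ι] [DecidableEq ι] {ν : ℕ}
    (ζ : Fin ν → ι) : Zd (sQ F ι ζ) ζ (NR ζ) where
  j := Subtype.val
  jinj := Subtype.val_injective
  jζ a t := (a.2 t).symm
  jtot i := by
    by_cases h : ∃ t, ζ t = i
    · exact Or.inl h
    · push Not at h
      exact Or.inr ⟨⟨i, h⟩, rfl⟩
  kill := sQ_kill ζ
  p a := pq ζ a.1 a.2
  px a m := by
    have h := pq_apply ζ a.1 a.2 ((sP F ι).x m)
    rw [pd_x, map_zero] at h
    exact h
  pz a i := by
    have h := pq_apply ζ a.1 a.2 ((sP F ι).z i : PR F ι)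
    rw [pd_z] at h
    refine h.trans ?_
    split_ifs <;> simp
  ext := der_ext _ (sQ_gen ζ)

end pd

section rem

variable {F : Type*} [Field F] {ι : Type} [Fintype ι] [DecidableEq ι] (i : ι)

/-- The remaining points. -/
abbrev Rm (i : ι) := {k : ι // k ≠ i}

/-- Extension of exponents. -/
def exq (n : Rm i → ℤ) (k : ℤ) : ι → ℤ := fun a => if h : a = i then k else n ⟨a, h⟩

lemma exq_self (n : Rm i → ℤ) (k : ℤ) : exq i n k i = k := by simp [exq]

lemma exq_ne (n : Rm i → ℤ) (k : ℤ) (a : Rm i) : exq i n k a = n a := by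
  simp [exq, a.2]

lemma exq_res (n : ι → ℤ) : exq i (fun a => n a) (n i) = n := by
  funext a
  unfold exq
  split_ifs with h
  · rw [h]
  · rfl

lemma mu_val_single (n : Rm i → ℤ) (b : SA F) :
    mu F (Subtype.val : Rm i → ι) (single n b) = single (exq i n 0) b := by
  rw [single_eq, map_mul, mu_C, map_prod, single_eq (exq i n 0) b]
  congr 1
  have h1 : ∀ a : Rm i, mu F (Subtype.val : Rm i → ι) (((Z a) ^ (n a) : (PR F (Rm i))ˣ) :
      PR F (Rm i)) = (((Z (a : ι)) ^ (n a) : (PR F ι)ˣ) : PR F ι) := by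
    intro a
    rw [mu_apply, lf_Zz]
  simp_rw [h1]
  rw [← Finset.mul_prod_erase Finset.univ _ (Finset.mem_univ i), exq_self, zpow_zero, Units.val_one,
    one_mul]
  symm
  refine Finset.prod_bij' (fun a ha => (⟨a, Finset.ne_of_mem_erase ha⟩ : Rm i))
    (fun a _ => (a : ι)) ?_ ?_ ?_ ?_ ?_
  · intro a ha; exact Finset.mem_univ _
  · intro a _; exact Finset.mem_erase.mpr ⟨a.2, Finset.mem_univ _⟩
  · intro a ha; rfl
  · intro a _; rfl
  · intro a ha
    have := exq_ne i n 0 ⟨a, Finset.ne_of_mem_erase ha⟩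
    rw [this]

lemma mem_range_mu {n : ι → ℤ} (hn : n i = 0) (b : SA F) :
    (single n b : PR F ι) ∈ LinearMap.range (mu F (Subtype.val : Rm i → ι)).toLinearMap := by
  refine ⟨single (fun a => n a) b, ?_⟩
  rw [AlgHom.toLinearMap_apply, mu_val_single, ← hn, exq_res]

lemma mu_val_inj : Function.Injective (mu F (Subtype.val : Rm i → ι)) := by
  intro v w h
  have h1 : ∀ v : PR F (Rm i), mu F (Subtype.val : Rm i → ι) v = mapDomain (fun n => exq i n 0) v := by
    intro v
    induction v using AddMonoidAlgebra.induction_linear with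
    | zero => simp
    | add p q hp hq => rw [map_add, mapDomain_add, hp, hq]
    | single n b => rw [mu_val_single, mapDomain_single]
  rw [h1, h1] at h
  refine mapDomain_injective ?_ h
  intro n m hnm
  funext a
  have := congrFun hnm a
  beta_reduce at this
  rwa [exq_ne, exq_ne] at this

/-- The residue. -/
noncomputable def rs (F : Type*) [Field F] {ι : Type} [Fintype ι] [DecidableEq ι] (i : ι) :
    PR F ι →ₗ[F] PR F (Rm i) :=
  lin (fun n => if n i = -1 then
    { toFun := fun b => single (fun a : Rm i => n a) b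
      map_add' := fun a b => single_add _ _ _
      map_smul' := fun r b => (smul_single r _ b).symm } else 0)

lemma rs_single (n : ι → ℤ) (b : SA F) :
    rs F i (single n b) = if n i = -1 then single (fun a : Rm i => n a) b else 0 := by
  unfold rs
  rw [lin_single]
  split_ifs <;> rfl

lemma rs_ker [CharZero F] {v : PR F ι} (hv : rs F i v = 0) : ∃ u, pd F i u = v := by
  have h1 : ∀ (n : ι → ℤ), n i = -1 → v.coeff n = 0 := by
    intro n hn
    have h2 : ∀ v : PR F ι, (rs F i v).coeff (fun a => n a) = v.coeff n := by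
      intro v
      induction v using AddMonoidAlgebra.induction_linear with
      | zero => simp
      | add p q hp hq => rw [map_add, coeff_add, coeff_add, Finsupp.add_apply, Finsupp.add_apply, hp, hq]
      | single m b =>
        rw [rs_single]
        by_cases hm : m i = -1
        · rw [if_pos hm, coeff_single, coeff_single]
          by_cases hmn : m = n
          · rw [hmn, Finsupp.single_eq_same, Finsupp.single_eq_same]
          · rw [Finsupp.single_eq_of_ne, Finsupp.single_eq_of_ne (Ne.symm hmn)]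
            intro h
            apply hmn
            rw [← exq_res i m, ← exq_res i n, hm, hn]
            congr 1
            exact h.symm
        · rw [if_neg hm, coeff_zero, Finsupp.zero_apply, coeff_single,
            Finsupp.single_eq_of_ne (fun h => hm (by rw [← h, hn]))]
    rw [← h2, hv]
    rfl
  have h2 : v ∈ LinearMap.range (pd F i : PR F ι →ₗ[F] PR F ι) := by
    rw [← sum_coeff_single v, Finsupp.sum]
    apply Submodule.sum_mem
    intro n hn
    have hni : n i + 1 ≠ 0 := by
      intro h
      rw [Finsupp.mem_support_iff] at hn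
      exact hn (h1 n (by omega))
    refine ⟨single (n + Pi.single i 1) ((((n i + 1 : ℤ) : F)⁻¹) • v.coeff n), ?_⟩
    rw [Derivation.coeFn_coe, pd_single, Pi.add_apply, Pi.single_eq_same, add_sub_cancel_right,
      ← smul_single, ← Int.cast_smul_eq_zsmul F, smul_smul, mul_inv_cancel₀ (Int.cast_ne_zero.mpr hni),
      one_smul]
  obtain ⟨u, hu⟩ := h2
  exact ⟨u, hu⟩

/-- The residue of a shifted element. -/
lemma rs_mul_mu (t : PR F (Rm i)) (k : ℤ) :
    rs F i (((Z i ^ k : (PR F ι)ˣ) : PR F ι) * mu F (Subtype.val : Rm i → ι) t) =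
      if k = -1 then t else 0 := by
  induction t using AddMonoidAlgebra.induction_linear with
  | zero => simp
  | add p q hp hq =>
    rw [map_add, mul_add, map_add, hp, hq]
    split_ifs
    · rfl
    · simp
  | single n b =>
    rw [mu_val_single, Z_zpow, single_mul_single, one_mul, rs_single, Pi.add_apply, exq_self,
      Pi.single_eq_same, add_zero]
    by_cases hk : k = -1
    · rw [if_pos hk, if_pos hk]
      congr 1
      funext a
      rw [Pi.add_apply, exq_ne, Pi.single_eq_of_ne a.2, zero_add]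
    · rw [if_neg hk, if_neg hk]

/-- Induction with respect to a point. -/
lemma PR_induction {P : PR F ι → Prop} (h0 : ∀ u v, P u → P v → P (u + v))
    (h1 : ∀ (t : PR F (Rm i)) (k : ℤ),
      P (((Z i ^ k : (PR F ι)ˣ) : PR F ι) * mu F (Subtype.val : Rm i → ι) t)) (v : PR F ι) : P v := by
  induction v using AddMonoidAlgebra.induction_linear with
  | zero =>
    have := h1 0 0
    rwa [map_zero, mul_zero] at this
  | add p q hp hq => exact h0 p q hp hq
  | single n b =>
    have := h1 (single (fun a => n a) b) (n i)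
    rw [mu_val_single, Z_zpow, single_mul_single, one_mul] at this
    convert this using 2
    funext a
    rw [Pi.add_apply]
    by_cases ha : a = i
    · rw [ha, exq_self, Pi.single_eq_same, add_zero]
    · have h2 := exq_ne i (fun a : Rm i => n a) 0 ⟨a, ha⟩
      rw [h2, Pi.single_eq_of_ne ha, zero_add]

lemma rs_mu_mul (t : PR F (Rm i)) (v : PR F ι) :
    rs F i (mu F (Subtype.val : Rm i → ι) t * v) = t * rs F i v := by
  induction v using PR_induction i with
  | h0 u v hu hv => rw [mul_add, map_add, hu, hv, map_add, mul_add]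
  | h1 t' k =>
    rw [mul_left_comm, ← map_mul, rs_mul_mu, rs_mul_mu]
    split_ifs
    · rfl
    · rw [mul_zero]

/-- The weights and a point. -/
lemma mu_wt (w : ι → ℤ) (hw : w i = 0) (l : ℤ) :
    mu F (Subtype.val : Rm i → ι) (wt (sP F (Rm i)) (fun a => w a) l) = wt (sP F ι) w l := by
  unfold wt
  rw [map_sum, ← Finset.add_sum_erase Finset.univ _ (Finset.mem_univ i), hw, Int.cast_zero, zero_mul,
    zero_add]
  symm
  refine Finset.sum_bij' (fun a ha => (⟨a, Finset.ne_of_mem_erase ha⟩ : Rm i))
    (fun a _ => (a : ι)) ?_ ?_ ?_ ?_ ?_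
  · intro a ha; exact Finset.mem_univ _
  · intro a _; exact Finset.mem_erase.mpr ⟨a.2, Finset.mem_univ _⟩
  · intro a ha; rfl
  · intro a _; rfl
  · intro a ha
    rw [map_mul, map_mul, map_intCast, map_intCast]
    congr 2
    have := lf_Zz (singleZeroRingHom : SA F →+* PR F ι) (fun a : Rm i => Z (a : ι))
      (⟨a, Finset.ne_of_mem_erase ha⟩ : Rm i) (l - 1)
    exact this.symm

lemma wt_update (w : ι → ℤ) (l : ℤ) : wt (sP F ι) w l =
    wt (sP F ι) (Function.update w i 0) l + (w i : PR F ι) * ((l : PR F ι) *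
      (((Z i) ^ (l - 1) : (PR F ι)ˣ) : PR F ι)) := by
  have h1 : w = Function.update w i 0 + Pi.single i (w i) := by
    funext a
    rw [Pi.add_apply]
    by_cases ha : a = i
    · rw [ha, Function.update_self, Pi.single_eq_same, zero_add]
    · rw [Function.update_of_ne ha, Pi.single_eq_of_ne ha, add_zero]
  have h2 := congrFun (wt_add (sP F ι) (Function.update w i 0) (Pi.single i (w i))) l
  rw [← h1, Pi.add_apply, wt_single] at h2
  beta_reduce at h2
  rw [gg_self] at h2
  exact h2

/-- The residue is compatible with the twisted derivations. -/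
lemma rs_A (w : ι → ℤ) (hw : w i = 1) (l : ℤ) (v : PR F ι) :
    rs F i ((sP F ι).d l v + wt (sP F ι) w l * v) =
      (sP F (Rm i)).d l (rs F i v) + wt (sP F (Rm i)) (fun a => w a) l * rs F i v := by
  induction v using PR_induction i with
  | h0 u v hu hv =>
    have e1 : (sP F ι).d l (u + v) + wt (sP F ι) w l * (u + v) =
      ((sP F ι).d l u + wt (sP F ι) w l * u) + ((sP F ι).d l v + wt (sP F ι) w l * v) := by
      rw [map_add]; ring
    rw [e1, map_add, hu, hv, map_add, map_add]
    ring
  | h1 t k =>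
    have h1 : wt (sP F ι) (Function.update w i 0) l =
        mu F (Subtype.val : Rm i → ι) (wt (sP F (Rm i)) (fun a => w a) l) := by
      rw [← mu_wt i _ (Function.update_self i 0 w)]
      congr 2
      funext a
      rw [Function.update_of_ne a.2]
    have h2 : (sP F ι).d l (((Z i ^ k : (PR F ι)ˣ) : PR F ι)) = (k : PR F ι) *
        (((Z i ^ (k + (l - 1)) : (PR F ι)ˣ) : PR F ι)) := by
      have h3 := der_zpow ((sP F ι).d l) (Z i : (PR F ι)ˣ) k
      have h4 : (sP F ι).d l ((Z i : (PR F ι)ˣ) : PR F ι) = ((Z i ^ l : (PR F ι)ˣ) : PR F ι) :=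
        (sP F ι).dz l i
      rw [h4, mul_assoc, ← Units.val_mul, ← zpow_add] at h3
      rw [h3, show k - 1 + l = k + (l - 1) by ring]
    have h5 : (sP F ι).d l (mu F (Subtype.val : Rm i → ι) t) =
        mu F (Subtype.val : Rm i → ι) ((sP F (Rm i)).d l t) := ((mu_hom _).d l t).symm
    have h6 : (((Z i ^ (k + (l - 1)) : (PR F ι)ˣ) : PR F ι)) =
        ((Z i ^ k : (PR F ι)ˣ) : PR F ι) * (((Z i) ^ (l - 1) : (PR F ι)ˣ) : PR F ι) := by
      rw [← Units.val_mul, ← zpow_add]
    have key : (sP F ι).d l (((Z i ^ k : (PR F ι)ˣ) : PR F ι) * mu F (Subtype.val : Rm i → ι) t) +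
        wt (sP F ι) w l * (((Z i ^ k : (PR F ι)ˣ) : PR F ι) * mu F (Subtype.val : Rm i → ι) t) =
        ((Z i ^ k : (PR F ι)ˣ) : PR F ι) * mu F (Subtype.val : Rm i → ι)
          ((sP F (Rm i)).d l t + wt (sP F (Rm i)) (fun a => w a) l * t) +
        (k + l : ℤ) • (((Z i ^ (k + (l - 1)) : (PR F ι)ˣ) : PR F ι) *
          mu F (Subtype.val : Rm i → ι) t) := by
      rw [Derivation.leibniz, h5, h2, wt_update i w l, h1, hw, h6, smul_eq_mul, smul_eq_mul, map_add,
        map_mul, zsmul_eq_mul]
      push_cast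
      ring
    rw [key, map_add, map_zsmul, rs_mul_mu, rs_mul_mu, rs_mul_mu]
    by_cases hk : k = -1
    · rw [if_pos hk, if_pos hk]
      by_cases hl : k + (l - 1) = -1
      · rw [if_pos hl]
        have : k + l = 0 := by omega
        rw [this, zero_smul, add_zero]
      · rw [if_neg hl, smul_zero, add_zero]
    · rw [if_neg hk, if_neg hk, map_zero, mul_zero, zero_add, add_zero]
      by_cases hl : k + (l - 1) = -1
      · rw [if_pos hl]
        have : k + l = 0 := by omega
        rw [this, zero_smul]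
      · rw [if_neg hl, smul_zero]

/-- The partial derivative is compatible with the twisted derivations. -/
lemma pd_A (w : ι → ℤ) (hw : w i = 1) (l : ℤ) (v : PR F ι) :
    pd F i ((sP F ι).d l v + wt (sP F ι) (Function.update w i 0) l * v) =
      (sP F ι).d l (pd F i v) + wt (sP F ι) w l * pd F i v := by
  have h1 : ⁅pd F i, (sP F ι).d l⁆ = ((l : PR F ι) * ((Z i ^ (l - 1) : (PR F ι)ˣ) : PR F ι)) •
      pd F i := by
    apply der_ext (sP F ι) sP_gen
    · intro m
      rw [Derivation.commutator_apply, (sP F ι).dx, Derivation.smul_apply, pd_x, smul_zero, map_zero,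
        sub_zero, Derivation.leibniz, pd_x, Derivation.map_intCast, smul_zero, smul_zero, add_zero]
    · intro k
      rw [Derivation.commutator_apply, (sP F ι).dz, Derivation.smul_apply, der_zpow, pd_z]
      split_ifs with h
      · rw [h]
        simp
        exact Or.inl rfl
      · simp
  have h2 := congrArg (fun D : Derivation F (PR F ι) (PR F ι) => D v) h1
  simp only [Derivation.commutator_apply, Derivation.smul_apply, smul_eq_mul] at h2
  have h3 : pd F i (wt (sP F ι) (Function.update w i 0) l) = 0 := by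
    unfold wt
    rw [map_sum]
    apply Finset.sum_eq_zero
    intro k _
    rw [Derivation.leibniz, Derivation.leibniz, der_zpow, pd_z, Derivation.map_intCast,
      Derivation.map_intCast]
    split_ifs with h
    · rw [← h, Function.update_self]; simp
    · simp
  rw [map_add, Derivation.leibniz, h3, smul_zero, add_zero, smul_eq_mul, wt_update i w l, hw]
  push_cast
  linear_combination h2

end rem

end Run7.h143
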