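import Pool.Agent.Run7.h143.Reg

/-!
Reductions: merging points, removing roots, removing points.
-/

set_option autoImplicit false
set_option linter.unusedSectionVars false
set_option linter.unusedSimpArgs false
set_option linter.unusedVariables false

namespace Run7.h143

open AddMonoidAlgebra

section mu

variable {F : Type*} [Field F] {ι ι' : Type} [Fintype ι] [DecidableEq ι] [Fintype ι']
  [DecidableEq ι']

/-- The map of algebras given by a map of points. -/
noncomputable def mu (F : Type*) [Field F] {ι ι' : Type} [Fintype ι] [DecidableEq ι] [Fintype ι']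
    [DecidableEq ι'] (φ : ι → ι') : PR F ι →ₐ[F] PR F ι' :=
  { lf (singleZeroRingHom : SA F →+* PR F ι') (fun i => Z (φ i)) with
    commutes' := by
      intro r
      change lf _ _ (single 0 (MvPolynomial.C r)) = _
      rw [lf_C]
      rfl }

lemma mu_apply (φ : ι → ι') (v : PR F ι) :
    mu F φ v = lf (singleZeroRingHom : SA F →+* PR F ι') (fun i => Z (φ i)) v := rfl

lemma mu_C (φ : ι → ι') (b : SA F) : mu F φ (single 0 b) = single 0 b := by
  rw [mu_apply, lf_C]; rfl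

lemma mu_Z (φ : ι → ι') (i : ι) : mu F φ ((Z i : (PR F ι)ˣ) : PR F ι) =
    ((Z (φ i) : (PR F ι')ˣ) : PR F ι') := by
  rw [mu_apply, lf_Z]

lemma mu_hom (φ : ι → ι') : SHom (sP F ι) (sP F ι') φ (mu F φ) where
  z i := mu_Z φ i
  x m := mu_C φ _
  d l v := by
    have h1 : ∀ b : SA F, (sP F ι').d l ((singleZeroRingHom : SA F →+* PR F ι') b) =
        (singleZeroRingHom : SA F →+* PR F ι') (dS F l b) := fun b => dd_C (dS F) l b
    have h2 : ∀ a : ι, (sP F ι').d l ((Z (φ a) : (PR F ι')ˣ) : PR F ι') =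
        ((Z (φ a) ^ l : (PR F ι')ˣ) : PR F ι') := fun a => dd_Z (dS F) l (φ a)
    exact (lf_der (singleZeroRingHom : SA F →+* PR F ι') (fun a => Z (φ a)) (dS F)
      ((sP F ι').d l) l h1 h2 v).symm

lemma mu_mu {ι'' : Type} [Fintype ι''] [DecidableEq ι''] (φ : ι → ι') (ψ : ι' → ι'')
    (v : PR F ι) : mu F ψ (mu F φ v) = mu F (ψ ∘ φ) v := by
  have h : ((mu F ψ : PR F ι' →+* PR F ι'').comp (mu F φ : PR F ι →+* PR F ι')) =
      (mu F (ψ ∘ φ) : PR F ι →+* PR F ι'') := by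
    apply hom_ext
    · intro b
      rw [RingHom.comp_apply]
      change mu F ψ (mu F φ _) = mu F _ _
      rw [mu_C, mu_C, mu_C]
    · intro i
      rw [RingHom.comp_apply]
      change mu F ψ (mu F φ _) = mu F _ _
      rw [mu_Z, mu_Z, mu_Z]
      rfl
  exact RingHom.congr_fun h v

lemma mu_id (v : PR F ι) : mu F (id : ι → ι) v = v := by
  have h : ((mu F (id : ι → ι) : PR F ι →+* PR F ι)) = RingHom.id _ := by
    apply hom_ext
    · intro b
      exact mu_C _ _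
    · intro i
      exact mu_Z _ _
  exact RingHom.congr_fun h v

/-- The image of the relations. -/
lemma mu_nn {ν : ℕ} (ζ : Fin ν → ι) (φ : ι → ι') :
    Ideal.map (mu F φ : PR F ι →+* PR F ι') (nn ζ) = nn (φ ∘ ζ) := by
  unfold nn nI
  rw [Ideal.map_span, ← Set.range_comp]
  congr 2
  funext m
  rw [Function.comp_apply, xf_map, map_mul, mp_Zz]
  have h1 : mp (mu F φ : PR F ι →+* PR F ι') (ch0 ζ) = ch0 (φ ∘ ζ) := by
    unfold ch0
    rw [mp_ch]
    congr 1
    funext t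
    ext1
    exact mu_Z φ (ζ t)
  rw [h1]
  have h2 : (fun m => (mu F φ : PR F ι →+* PR F ι') ((sP F ι).x m)) = (sP F ι').x := by
    funext m
    exact mu_C φ _
  rw [h2]

/-- The relations as a subspace. -/
noncomputable def nF (F : Type*) [Field F] {ι : Type} [Fintype ι] [DecidableEq ι] {ν : ℕ} (ζ : Fin ν → ι) :
    Submodule F (PR F ι) := (nn ζ : Ideal (PR F ι)).restrictScalars F

lemma mem_nF {ν : ℕ} {ζ : Fin ν → ι} {v : PR F ι} : v ∈ nF F ζ ↔ v ∈ (nn ζ : Ideal (PR F ι)) :=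
  Iff.rfl

lemma mu_mem_nn {ν : ℕ} (ζ : Fin ν → ι) (φ : ι → ι') {v : PR F ι}
    (hv : v ∈ (nn ζ : Ideal (PR F ι))) : mu F φ v ∈ (nn (φ ∘ ζ) : Ideal (PR F ι')) := by
  rw [← mu_nn]
  exact Ideal.mem_map_of_mem _ hv

lemma nF_le_map {ν : ℕ} (ζ : Fin ν → ι) (φ : ι → ι') (hφ : Function.Surjective φ) :
    nF F (φ ∘ ζ) ≤ (nF F ζ).map (mu F φ).toLinearMap := by
  intro v hv
  rw [mem_nF, ← mu_nn, Ideal.mem_map_iff_of_surjective] at hv
  · obtain ⟨w, hw, rfl⟩ := hv
    exact ⟨w, hw, rfl⟩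
  · intro w
    obtain ⟨ψ, hψ⟩ := hφ.hasRightInverse
    refine ⟨mu F ψ w, ?_⟩
    change mu F φ (mu F ψ w) = w
    rw [mu_mu]
    have : φ ∘ ψ = id := funext hψ
    rw [this, mu_id]

lemma Stab_nF {ν : ℕ} (ζ : Fin ν → ι) (γ : ℤ → PR F ι) : Stab (sP F ι) γ (nF F ζ) where
  hx m v hv := Ideal.mul_mem_left _ _ hv
  hd l v hv := Ideal.add_mem _ (nn_d ζ l v hv) (Ideal.mul_mem_left _ _ hv)

/-- The chain condition for all twists. -/
def NN (F : Type*) [Field F] {ι : Type} [Fintype ι] [DecidableEq ι] {ν : ℕ} (ζ : Fin ν → ι) :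
    Prop := ∀ γ ∈ Tw (sP F ι), Ch (sP F ι) γ (nF F ζ)

lemma mk_units {ν : ℕ} (ζ : Fin ν → ι) (a : ι) :
    Units.map ((Ideal.Quotient.mk (nn ζ : Ideal (PR F ι)) : PR F ι →+*
      PR F ι ⧸ (nn ζ : Ideal (PR F ι))) : PR F ι →* PR F ι ⧸ (nn ζ : Ideal (PR F ι)))
      ((sP F ι).z a) = (sQ F ι ζ).z a := rfl

/-- Lifting twists. -/
lemma Tw_lift {ν : ℕ} (ζ : Fin ν → ι) {γ : ℤ → PR F ι ⧸ (nn ζ : Ideal (PR F ι))}
    (hγ : γ ∈ Tw (sQ F ι ζ)) :
    ∃ γ' ∈ Tw (sP F ι), ∀ l, Ideal.Quotient.mkₐ F (nn ζ : Ideal (PR F ι)) (γ' l) = γ l := by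
  unfold Tw at hγ
  induction hγ using AddSubmonoid.closure_induction with
  | mem γ hγ =>
    rcases hγ with ⟨a, b, rfl⟩ | ⟨a, rfl⟩
    · refine ⟨_, Tw_gg _ a b, fun l => ?_⟩
      have := gg_map (Ideal.Quotient.mk (nn ζ : Ideal (PR F ι))) l
        ((sP F ι).z a) ((sP F ι).z b)
      rw [mk_units, mk_units] at this
      exact this
    · refine ⟨_, Tw_neg _ a, fun l => ?_⟩
      have := gg_map (Ideal.Quotient.mk (nn ζ : Ideal (PR F ι))) l
        ((sP F ι).z a) ((sP F ι).z a)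
      rw [mk_units] at this
      rw [map_neg]
      exact congrArg Neg.neg this
  | zero => exact ⟨0, AddSubmonoid.zero_mem _, fun l => by simp⟩
  | add γ γ' _ _ h1 h2 =>
    obtain ⟨g1, h1, h1'⟩ := h1
    obtain ⟨g2, h2, h2'⟩ := h2
    exact ⟨g1 + g2, AddSubmonoid.add_mem _ h1 h2, fun l => by
      rw [Pi.add_apply, map_add, h1', h2', Pi.add_apply]⟩

lemma mk_nF {ν : ℕ} (ζ : Fin ν → ι) {v : PR F ι} :
    Ideal.Quotient.mkₐ F (nn ζ : Ideal (PR F ι)) v = 0 ↔ v ∈ nF F ζ := by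
  rw [Ideal.Quotient.mkₐ_eq_mk, Ideal.Quotient.eq_zero_iff_mem]
  rfl

/-- Differences of points are good. -/
lemma good_sub {ν : ℕ} (ζ : Fin ν → ι) (i j : ι) (hij : i ≠ j)
    (hNN : NN F (fun t => (⟨if ζ t = j then i else ζ t, by
      by_cases h : ζ t = j
      · rw [if_pos h]; exact hij
      · rw [if_neg h]; exact h⟩ : {k : ι // k ≠ j}))) :
    Good (sQ F ι ζ) (Tw (sQ F ι ζ)) (((sQ F ι ζ).z i).val - ((sQ F ι ζ).z j).val) := by
  refine ⟨⟨_, Tw_gg _ i j, SI.sub_z _ i j⟩, fun γ hγ => ?_⟩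
  obtain ⟨γ', hγ', hγγ⟩ := Tw_lift ζ hγ
  -- the merging map
  let φ : ι → {k : ι // k ≠ j} := fun k => ⟨if k = j then i else k, by
      by_cases h : k = j
      · rw [if_pos h]; exact hij
      · rw [if_neg h]; exact h⟩
  have hφ : ∀ k : {k : ι // k ≠ j}, φ k = k := by
    rintro ⟨k, hk⟩
    apply Subtype.ext
    exact if_neg hk
  have hsurj : Function.Surjective φ := fun k => ⟨k, hφ k⟩
  have hker : ∀ v, mu F φ v = 0 → v ∈ pr F (((sP F ι).z i : PR F ι) - (sP F ι).z j) := by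
    intro v hv
    let J : Ideal (PR F ι) := Ideal.span {((sP F ι).z i : PR F ι) - (sP F ι).z j}
    have h1 : (Ideal.Quotient.mk J).comp ((mu F (Subtype.val : {k : ι // k ≠ j} → ι) :
        PR F {k : ι // k ≠ j} →+* PR F ι).comp (mu F φ : PR F ι →+* PR F {k : ι // k ≠ j})) =
        Ideal.Quotient.mk J := by
      apply hom_ext
      · intro b
        rw [RingHom.comp_apply, RingHom.comp_apply]
        change Ideal.Quotient.mk J (mu F _ (mu F _ _)) = _
        rw [mu_C, mu_C]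
      · intro k
        rw [RingHom.comp_apply, RingHom.comp_apply]
        change Ideal.Quotient.mk J (mu F _ (mu F _ _)) = _
        rw [mu_Z, mu_Z]
        change Ideal.Quotient.mk J ((Z (if k = j then i else k) : (PR F ι)ˣ) : PR F ι) = _
        by_cases hk : k = j
        · rw [if_pos hk, Ideal.Quotient.eq, hk]
          exact Ideal.subset_span rfl
        · rw [if_neg hk]
    have h2 := RingHom.congr_fun h1 v
    rw [RingHom.comp_apply, RingHom.comp_apply] at h2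
    have h3 : (mu F φ : PR F ι →+* PR F {k : ι // k ≠ j}) v = 0 := hv
    rw [h3, map_zero, map_zero] at h2
    have h4 := Ideal.Quotient.eq_zero_iff_mem.mp h2.symm
    rw [Ideal.mem_span_singleton'] at h4
    obtain ⟨a, ha⟩ := h4
    rw [mem_pr]
    exact ⟨a, by rw [mul_comm]; exact ha⟩
  have h1 : Ch (sP F ι) γ' (nF F ζ ⊔ pr F (((sP F ι).z i : PR F ι) - (sP F ι).z j)) := by
    refine (mu_hom φ).ch_of_ker (γ' := fun l => mu F φ (γ' l)) (fun l => rfl)
      (B' := nF F (φ ∘ ζ)) (fun v hv => Submodule.mem_sup_right (hker v hv)) ?_ ?_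
    · exact (nF_le_map ζ φ hsurj).trans (Submodule.map_mono le_sup_left)
    · exact hNN _ (Tw_map (mu_hom φ) hγ')
  refine (sQ_hom ζ).ch_of_surj (Ideal.Quotient.mkₐ_surjective F _) hγγ ?_ h1
  apply sup_le
  · intro v hv
    rw [Submodule.mem_comap, AlgHom.toLinearMap_apply, (mk_nF ζ).mpr hv]
    exact Submodule.zero_mem _
  · intro v hv
    rw [mem_pr] at hv
    obtain ⟨t, rfl⟩ := hv
    rw [Submodule.mem_comap, AlgHom.toLinearMap_apply, mem_pr]
    exact ⟨Ideal.Quotient.mkₐ F (nn ζ : Ideal (PR F ι)) t, by rw [map_mul, map_sub]; rfl⟩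

/-- The values at the products without a root are good. -/
lemma good_beta {ν : ℕ} (ζ : Fin (ν + 1) → ι) (t : Fin (ν + 1))
    (hNN : NN F (fun t' => ζ (t.succAbove t'))) :
    Good (sQ F ι ζ) (Tw (sQ F ι ζ))
      (xf (sQ F ι ζ).x (ch (fun t => (sQ F ι ζ).z (ζ t)) (Finset.univ.erase t))) := by
  have hins : insert t (Finset.univ.erase t) = (Finset.univ : Finset (Fin (ν + 1))) :=
    Finset.insert_erase (Finset.mem_univ t)
  have hkill := sQ_kill (F := F) ζ
  refine ⟨⟨_, ?_, SI_beta (sQ F ι ζ) ζ (Finset.univ.erase t) (Finset.notMem_erase t _) (by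
    rw [hins]; exact hkill)⟩, fun γ hγ => ?_⟩
  · refine AddSubmonoid.add_mem _ (AddSubmonoid.sum_mem _ (fun a _ => Tw_gg _ _ _)) (Tw_neg _ _)
  obtain ⟨γ', hγ', hγγ⟩ := Tw_lift ζ hγ
  have h1 : Ch (sP F ι) γ' (nF F (fun t' => ζ (t.succAbove t'))) := hNN γ' hγ'
  refine (sQ_hom ζ).ch_of_surj (Ideal.Quotient.mkₐ_surjective F _) hγγ ?_ h1
  set β := xf (sQ F ι ζ).x (ch (fun t => (sQ F ι ζ).z (ζ t)) (Finset.univ.erase t)) with hβ
  have hch : mp (Ideal.Quotient.mk (nn ζ : Ideal (PR F ι)))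
      (ch0 (fun t' => ζ (t.succAbove t')) : LP (PR F ι) Unit) =
      ch (fun t => (sQ F ι ζ).z (ζ t)) (Finset.univ.erase t) := by
    unfold ch0
    rw [mp_ch]
    unfold ch
    have h2 : Finset.univ.erase t = Finset.univ.map (Fin.succAboveEmb t) := by
      ext k
      simp only [Finset.mem_erase, Finset.mem_univ, and_true, Finset.mem_map, true_and]
      constructor
      · intro hk
        obtain ⟨k', hk'⟩ := Fin.exists_succAbove_eq hk
        exact ⟨k', hk'⟩
      · rintro ⟨k', rfl⟩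
        exact Fin.succAbove_ne t k'
    rw [h2, Finset.prod_map]
    rfl
  have h3 : (nn (fun t' => ζ (t.succAbove t')) : Ideal (PR F ι)) ≤
      (Ideal.span {β}).comap (Ideal.Quotient.mk (nn ζ : Ideal (PR F ι))) := by
    refine nI_le _ (fun p => ?_)
    rw [Ideal.mem_comap, xf_map, map_mul, hch]
    have h4 : (fun m => Ideal.Quotient.mk (nn ζ : Ideal (PR F ι)) ((sP F ι).x m)) =
        (sQ F ι ζ).x := rfl
    have h5 := xf_eval (x := (sQ F ι ζ).x)
      (p := ch (fun t => (sQ F ι ζ).z (ζ t)) (Finset.univ.erase t)) ((sQ F ι ζ).z (ζ t)) (by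
        have h6 : (((yy : (LP (PR F ι ⧸ (nn ζ : Ideal (PR F ι))) Unit)ˣ) :
            LP (PR F ι ⧸ (nn ζ : Ideal (PR F ι))) Unit) -
            single 0 ((sQ F ι ζ).z (ζ t)).val) *
            ch (fun t => (sQ F ι ζ).z (ζ t)) (Finset.univ.erase t) =
            ch (fun t => (sQ F ι ζ).z (ζ t)) Finset.univ := by
          unfold ch
          rw [Finset.mul_prod_erase Finset.univ (fun s => (((yy : (LP (PR F ι ⧸
            (nn ζ : Ideal (PR F ι))) Unit)ˣ) : LP (PR F ι ⧸ (nn ζ : Ideal (PR F ι))) Unit) -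
            single 0 ((sQ F ι ζ).z (ζ s)).val)) (Finset.mem_univ t)]
        rw [h6]
        exact hkill) (mp (Ideal.Quotient.mk (nn ζ : Ideal (PR F ι))) p)
    rw [mul_comm, h4, h5]
    exact Ideal.mul_mem_left _ _ (Ideal.subset_span rfl)
  intro v hv
  have h4 := h3 hv
  rw [Ideal.mem_comap, Ideal.mem_span_singleton'] at h4
  obtain ⟨a, ha⟩ := h4
  rw [Submodule.mem_comap, AlgHom.toLinearMap_apply, mem_pr]
  exact ⟨a, by rw [mul_comm]; exact ha⟩

end mu

end Run7.h143
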