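import Pool.Agent.Run7.h143.PSys

/-!
Regularity of the differences of the points on the quotient.
-/

set_option autoImplicit false
set_option linter.unusedSectionVars false
set_option linter.unusedSimpArgs false
set_option linter.unusedVariables false

namespace Run7.h143

open AddMonoidAlgebra

section univ

variable {B : Type*} [CommRing B] (u : ℕ → B)

/-- The universal functional killed by a product of linear factors. -/
noncomputable def XF : (ν : ℕ) → (Fin ν → Bˣ) → (LP B Unit →ₗ[B] B)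
  | 0, _ => 0
  | ν + 1, r => u ν • xf (fun l => ((r 0 ^ l : Bˣ) : B)) + XF ν (fun t => r t.succ) ∘ₗ dv (r 0)

lemma XF_succ (ν : ℕ) (r : Fin (ν + 1) → Bˣ) (q : LP B Unit) :
    XF u (ν + 1) r q = u ν * ev1 (r 0) q + XF u ν (fun t => r t.succ) (dv (r 0) q) := by
  simp only [XF, LinearMap.add_apply, LinearMap.smul_apply, LinearMap.comp_apply, smul_eq_mul]
  rw [xf_pow]

lemma ch_univ_succ {ν : ℕ} (r : Fin (ν + 1) → Bˣ) : ch r Finset.univ =
    (((yy : (LP B Unit)ˣ) : LP B Unit) - single 0 (r 0 : B)) *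
      ch (fun t : Fin ν => r t.succ) Finset.univ := by
  unfold ch
  rw [Fin.prod_univ_succ]

variable [IsDomain B]

lemma yy_sub_ne (b : B) : (((yy : (LP B Unit)ˣ) : LP B Unit) - single 0 b) ≠ 0 := by
  rw [Ne, sub_eq_zero, Z_val]
  intro h
  have h1 := congrArg (fun q : LP B Unit => q.coeff (Pi.single () 1)) h
  simp only [coeff_single] at h1
  rw [Finsupp.single_eq_same, Finsupp.single_eq_of_ne] at h1
  · exact one_ne_zero h1
  · intro h2
    have := congrFun h2 ()
    simp at this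

lemma dv_mul (a : Bˣ) (q : LP B Unit) :
    dv a ((((yy : (LP B Unit)ˣ) : LP B Unit) - single 0 (a : B)) * q) = q := by
  have h1 := div_eq a ((((yy : (LP B Unit)ˣ) : LP B Unit) - single 0 (a : B)) * q)
  have h2 : ev1 a ((((yy : (LP B Unit)ˣ) : LP B Unit) - single 0 (a : B)) * q) = 0 := by
    rw [map_mul, map_sub, ev1_y, ev1_C, sub_self, zero_mul]
  rw [h2, single_zero, zero_add, mul_comm _ q] at h1
  have h3 := mul_right_cancel₀ (yy_sub_ne (a : B)) h1
  rw [mul_comm]
  exact h3.symm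

lemma XF_kill (ν : ℕ) (r : Fin ν → Bˣ) (q : LP B Unit) : XF u ν r (ch r Finset.univ * q) = 0 := by
  induction ν generalizing q with
  | zero => simp [XF]
  | succ ν ih =>
    rw [XF_succ, ch_univ_succ, mul_assoc, dv_mul, ih, map_mul, map_sub, ev1_y, ev1_C, sub_self]
    ring

lemma XF_eq_xf (ν : ℕ) (r : Fin ν → Bˣ) (q : LP B Unit) :
    xf (fun m => XF u ν r ((yy ^ m : (LP B Unit)ˣ) : LP B Unit)) q = XF u ν r q := by
  induction q using LP1_induction with
  | h0 => simp
  | hadd p q hp hq => rw [map_add, map_add, hp, hq]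
  | hm b n => rw [xf_C_mul, xf_yy, ← smul_eq_C, map_smul, smul_eq_mul]

end univ

section sec

variable {A : Type*} [CommRing A]

/-- Multiplication by a linear factor. -/
noncomputable def mlin (a : A) : LP A Unit →ₗ[A] LP A Unit :=
  LinearMap.mulLeft A (((yy : (LP A Unit)ˣ) : LP A Unit) - single 0 a)

/-- The values of a functional at the Newton basis. -/
noncomputable def nv : (ν : ℕ) → (Fin ν → Aˣ) → (LP A Unit →ₗ[A] A) → ℕ → A
  | 0, _, _ => fun _ => 0
  | ν + 1, r, ξ => fun k => if k = ν then ξ 1 else nv ν (fun t => r t.succ) (ξ ∘ₗ mlin (r 0 : A)) k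

lemma XF_section {B : Type*} [CommRing B] (u : ℕ → B) (σ : B →+* A) (ν : ℕ) (r : Fin ν → Bˣ)
    (ξ : LP A Unit →ₗ[A] A)
    (hξ : ∀ q, ξ (ch (fun t => Units.map (σ : B →* A) (r t)) Finset.univ * q) = 0)
    (hu : ∀ k < ν, σ (u k) = nv ν (fun t => Units.map (σ : B →* A) (r t)) ξ k) (q : LP B Unit) :
    σ (XF u ν r q) = ξ (mp σ q) := by
  induction ν generalizing ξ q with
  | zero =>
    have := hξ (mp σ q)
    simp only [ch, Finset.univ_eq_empty, Finset.prod_empty, one_mul] at this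
    rw [this]
    simp [XF]
  | succ ν ih =>
    have h1 : ∀ q, (ξ ∘ₗ mlin ((Units.map (σ : B →* A) (r 0) : Aˣ) : A))
        (ch (fun t : Fin ν => Units.map (σ : B →* A) (r t.succ)) Finset.univ * q) = 0 := by
      intro q
      have := hξ q
      rw [ch_univ_succ, mul_assoc] at this
      exact this
    have h2 : ∀ k < ν, σ (u k) = nv ν (fun t : Fin ν => Units.map (σ : B →* A) (r t.succ))
        (ξ ∘ₗ mlin ((Units.map (σ : B →* A) (r 0) : Aˣ) : A)) k := by
      intro k hk
      rw [hu k (by omega)]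
      simp only [nv]
      rw [if_neg (by omega)]
    have h3 := ih (fun t => r t.succ) _ h1 h2 (dv (r 0) q)
    have h4 : σ (u ν) = ξ 1 := by
      rw [hu ν (by omega)]
      simp [nv]
    rw [XF_succ, map_add, map_mul, h3, h4]
    conv_rhs => rw [div_eq (r 0) q]
    rw [map_add, map_mul, map_sub, mp_single, mp_Z, mp_single, map_add, ← mul_one (single 0 _),
      ← smul_eq_C, map_smul, smul_eq_mul, mul_comm (mp σ (dv (r 0) q)), mul_comm (ξ 1)]
    rfl

end sec

section reg

variable {F : Type*} [Field F] {ι : Type} [Fintype ι] [DecidableEq ι]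

/-- The polynomial ring receiving the quotient. -/
abbrev PB (F : Type*) [Field F] (ι : Type) := LP (MvPolynomial ℕ F) ι

/-- The variables. -/
noncomputable def ub (F : Type*) [Field F] (ι : Type) (k : ℕ) : PB F ι :=
  single 0 (MvPolynomial.X k)

/-- The map to the polynomial ring. -/
noncomputable def pib {ν : ℕ} (ζ : Fin ν → ι) : PR F ι →+* PB F ι :=
  lf (MvPolynomial.aeval (fun m : ℤ => XF (ub F ι) ν (fun t => Z (ζ t))
    ((yy ^ m : (LP (PB F ι) Unit)ˣ) : LP (PB F ι) Unit)) : SA F →ₐ[F] PB F ι).toRingHom Z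

lemma pib_x {ν : ℕ} (ζ : Fin ν → ι) (m : ℤ) : pib ζ ((sP F ι).x m) =
    XF (ub F ι) ν (fun t => Z (ζ t)) ((yy ^ m : (LP (PB F ι) Unit)ˣ) : LP (PB F ι) Unit) := by
  unfold pib
  change lf _ _ (single 0 (MvPolynomial.X m)) = _
  rw [lf_C]
  exact MvPolynomial.aeval_X _ _

lemma pib_z {ν : ℕ} (ζ : Fin ν → ι) (i : ι) : pib ζ ((sP F ι).z i : PR F ι) =
    ((Z i : (PB F ι)ˣ) : PB F ι) := by
  unfold pib
  exact lf_Z _ _ _

lemma pib_nn {ν : ℕ} (ζ : Fin ν → ι) {v : PR F ι} (hv : v ∈ (nn ζ : Ideal (PR F ι))) :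
    pib ζ v = 0 := by
  have h1 : (nn ζ : Ideal (PR F ι)) ≤ RingHom.ker (pib ζ) := by
    apply nI_le
    intro p
    rw [RingHom.mem_ker, xf_map, map_mul]
    have h2 : (fun m => pib ζ ((sP F ι).x m)) = fun m => XF (ub F ι) ν (fun t => Z (ζ t))
        ((yy ^ m : (LP (PB F ι) Unit)ˣ) : LP (PB F ι) Unit) := by
      funext m; exact pib_x ζ m
    rw [h2, XF_eq_xf]
    have h3 : mp (pib ζ) (ch0 ζ : LP (PR F ι) Unit) =
        ch (fun t => (Z (ζ t) : (PB F ι)ˣ)) Finset.univ := by
      unfold ch0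
      rw [mp_ch]
      congr 1
      funext t
      ext1
      exact pib_z ζ (ζ t)
    rw [h3, XF_kill]
  exact h1 hv

/-- The section. -/
noncomputable def sib {ν : ℕ} (ζ : Fin ν → ι) : PB F ι →+* PR F ι ⧸ (nn ζ : Ideal (PR F ι)) :=
  lf (MvPolynomial.aeval (nv ν (fun t => (sQ F ι ζ).z (ζ t)) (xf (sQ F ι ζ).x)) :
    MvPolynomial ℕ F →ₐ[F] PR F ι ⧸ (nn ζ : Ideal (PR F ι))).toRingHom (sQ F ι ζ).z

lemma sib_z {ν : ℕ} (ζ : Fin ν → ι) (i : ι) :
    Units.map ((sib ζ : PB F ι →+* PR F ι ⧸ (nn ζ : Ideal (PR F ι))) : PB F ι →* _) (Z i) =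
      (sQ F ι ζ).z i := by
  unfold sib
  exact lf_map_Z _ _ _

lemma sib_u {ν : ℕ} (ζ : Fin ν → ι) (k : ℕ) : sib ζ (ub F ι k) =
    nv ν (fun t => (sQ F ι ζ).z (ζ t)) (xf (sQ F ι ζ).x) k := by
  unfold sib ub
  rw [lf_C]
  exact MvPolynomial.aeval_X _ _

lemma sib_pib {ν : ℕ} (ζ : Fin ν → ι) (v : PR F ι) :
    sib ζ (pib ζ v) = Ideal.Quotient.mk (nn ζ : Ideal (PR F ι)) v := by
  have h : (sib ζ).comp (pib ζ) = Ideal.Quotient.mk (nn ζ : Ideal (PR F ι)) := by
    apply hom_ext
    · intro b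
      have h1 : (((sib ζ).comp (pib ζ)).comp (singleZeroRingHom : SA F →+* PR F ι)) =
          (Ideal.Quotient.mk (nn ζ : Ideal (PR F ι))).comp (singleZeroRingHom : SA F →+* PR F ι) := by
        apply MvPolynomial.ringHom_ext
        · intro r
          simp only [RingHom.comp_apply]
          have h2 : (singleZeroRingHom (MvPolynomial.C r) : PR F ι) = algebraMap F (PR F ι) r := rfl
          rw [h2]
          have h3 : pib ζ (algebraMap F (PR F ι) r) = algebraMap F (PB F ι) r := by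
            unfold pib
            change lf _ _ (single 0 (MvPolynomial.C r)) = _
            rw [lf_C]
            exact MvPolynomial.aeval_C _ _
          have h4 : sib ζ (algebraMap F (PB F ι) r) = algebraMap F _ r := by
            unfold sib
            change lf _ _ (single 0 (MvPolynomial.C r)) = _
            rw [lf_C]
            exact MvPolynomial.aeval_C _ _
          rw [h3, h4]
          rfl
        · intro m
          simp only [RingHom.comp_apply]
          have h2 : (singleZeroRingHom (MvPolynomial.X m) : PR F ι) = (sP F ι).x m := rfl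
          rw [h2, pib_x]
          have h3 := XF_section (ub F ι) (sib ζ) ν (fun t => Z (ζ t)) (xf (sQ F ι ζ).x) (by
            intro q
            simp_rw [sib_z]
            exact sQ_kill ζ q) (by
            intro k _
            rw [sib_u]
            simp_rw [sib_z]) ((yy ^ m : (LP (PB F ι) Unit)ˣ) : LP (PB F ι) Unit)
          rw [h3, mp_Zz, xf_yy]
          rfl
      exact RingHom.congr_fun h1 b
    · intro i
      rw [RingHom.comp_apply]
      have h2 : pib ζ ((Z i : (PR F ι)ˣ) : PR F ι) = ((Z i : (PB F ι)ˣ) : PB F ι) := pib_z ζ i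
      rw [h2]
      have h3 := congrArg Units.val (sib_z (F := F) ζ i)
      exact h3
  exact RingHom.congr_fun h v

lemma mem_nn_iff {ν : ℕ} (ζ : Fin ν → ι) (v : PR F ι) :
    v ∈ (nn ζ : Ideal (PR F ι)) ↔ pib ζ v = 0 := by
  constructor
  · exact pib_nn ζ
  · intro h
    rw [← Ideal.Quotient.eq_zero_iff_mem, ← sib_pib, h, map_zero]

lemma Z_sub_ne {a b : ι} (hab : a ≠ b) :
    (((Z a : (PB F ι)ˣ) : PB F ι) - ((Z b : (PB F ι)ˣ) : PB F ι)) ≠ 0 := by
  rw [Ne, sub_eq_zero, Z_val, Z_val]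
  intro h
  have h1 := congrArg (fun q : PB F ι => q.coeff (Pi.single a 1)) h
  simp only [coeff_single] at h1
  rw [Finsupp.single_eq_same, Finsupp.single_eq_of_ne] at h1
  · exact one_ne_zero h1
  · intro h2
    have := congrFun h2 a
    rw [Pi.single_eq_same, Pi.single_eq_of_ne hab] at this
    exact one_ne_zero this

/-- Regular elements of the quotient. -/
lemma sQ_regular {ν : ℕ} (ζ : Fin ν → ι) {b : PR F ι} (hb : pib ζ b ≠ 0) :
    Ideal.Quotient.mk (nn ζ : Ideal (PR F ι)) b ∈ nonZeroDivisors _ := by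
  rw [mem_nonZeroDivisors_iff_right]
  intro v hv
  obtain ⟨p, rfl⟩ := Ideal.Quotient.mk_surjective v
  rw [← map_mul, Ideal.Quotient.eq_zero_iff_mem, mem_nn_iff, map_mul] at hv
  rw [Ideal.Quotient.eq_zero_iff_mem, mem_nn_iff]
  rcases mul_eq_zero.mp hv with h | h
  · exact h
  · exact absurd h hb

lemma sQ_reg {ν : ℕ} (ζ : Fin ν → ι) {a b : ι} (hab : a ≠ b) :
    (((sQ F ι ζ).z a).val - ((sQ F ι ζ).z b).val) ∈ nonZeroDivisors _ := by
  have h1 : (((sQ F ι ζ).z a).val - ((sQ F ι ζ).z b).val) =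
      Ideal.Quotient.mk (nn ζ : Ideal (PR F ι)) (((sP F ι).z a : PR F ι) - (sP F ι).z b) := by
    rw [map_sub]; rfl
  rw [h1]
  apply sQ_regular
  rw [map_sub, pib_z, pib_z]
  exact Z_sub_ne hab

lemma sQ_nontrivial {ν : ℕ} (ζ : Fin ν → ι) : Nontrivial (PR F ι ⧸ (nn ζ : Ideal (PR F ι))) := by
  apply Ideal.Quotient.nontrivial_iff.mpr
  rw [Ne, Ideal.eq_top_iff_one, mem_nn_iff, map_one]
  exact one_ne_zero

end reg

end Run7.h143
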