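import Pool.Agent.Run7.h143.KerD

/-!
The chain condition for the concrete systems.
-/

set_option autoImplicit false
set_option linter.unusedSectionVars false
set_option linter.unusedSimpArgs false
set_option linter.unusedVariables false

namespace Run7.h143

open AddMonoidAlgebra

variable {F : Type*} [Field F] {ι : Type} [Fintype ι] [DecidableEq ι] {ν : ℕ}

lemma ch_sP_of_sQ (ζ : Fin ν → ι) {γ : ℤ → PR F ι} {γ' : ℤ → PR F ι ⧸ (nn ζ : Ideal (PR F ι))}
    (hγ : ∀ l, Ideal.Quotient.mkₐ F (nn ζ : Ideal (PR F ι)) (γ l) = γ' l)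
    (h : Ch (sQ F ι ζ) γ' ⊥) : Ch (sP F ι) γ (nF F ζ) :=
  (sQ_hom ζ).ch_of_ker hγ (fun v hv => (mk_nF ζ).mp hv) bot_le h

lemma ch_sQ_of_sP (ζ : Fin ν → ι) {γ : ℤ → PR F ι} {γ' : ℤ → PR F ι ⧸ (nn ζ : Ideal (PR F ι))}
    (hγ : ∀ l, Ideal.Quotient.mkₐ F (nn ζ : Ideal (PR F ι)) (γ l) = γ' l)
    (h : Ch (sP F ι) γ (nF F ζ)) : Ch (sQ F ι ζ) γ' ⊥ := by
  refine (sQ_hom ζ).ch_of_surj (Ideal.Quotient.mkₐ_surjective F _) hγ ?_ h
  intro v hv
  rw [Submodule.mem_comap, AlgHom.toLinearMap_apply, (mk_nF ζ).mpr hv]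
  exact Submodule.zero_mem _

lemma NN_of_wt (ζ : Fin ν → ι) (h : ∀ w, Ch (sP F ι) (wt (sP F ι) w) (nF F ζ)) : NN F ζ := by
  intro γ hγ
  have h1 : ∀ w, Ch (sQ F ι ζ) (wt (sQ F ι ζ) w) ⊥ := fun w => ch_sQ_of_sP ζ (mk_wt ζ w) (h w)
  refine ch_sP_of_sQ ζ (γ' := fun l => Ideal.Quotient.mkₐ F (nn ζ : Ideal (PR F ι)) (γ l))
    (fun l => rfl) ?_
  exact Ch_untwist (sQ F ι ζ) (fun a b hab => sQ_reg ζ hab) h1 (Tw_map (sQ_hom ζ) hγ)

/-- Removing a point of weight one. -/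
lemma Ch_one [CharZero F] (ζ : Fin ν → ι) (a : NR ζ) (w : ι → ℤ) (hw : w a.1 = 1)
    (hNN : NN F (fun t => (⟨ζ t, a.2 t⟩ : Rm a.1)))
    (h0 : Ch (sP F ι) (wt (sP F ι) (Function.update w a.1 0)) (nF F ζ)) :
    Ch (sP F ι) (wt (sP F ι) w) (nF F ζ) := by
  intro c hc hst hb
  apply Stz_of hc (rs F a.1) (pd F a.1 : PR F ι →ₗ[F] PR F ι)
  · refine hNN (wt (sP F (Rm a.1)) (fun k => w k)) (wt_mem _ _) _
      (fun i j hij => Submodule.map_mono (hc hij)) (fun n => ⟨?_, ?_⟩) (fun n => ?_)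
    · rintro m _ ⟨v, hv, rfl⟩
      refine ⟨(sP F ι).x m * v, (hst n).hx m v hv, ?_⟩
      have h1 : (sP F ι).x m = mu F (Subtype.val : Rm a.1 → ι) ((sP F (Rm a.1)).x m) :=
        ((mu_hom _).x m).symm
      rw [h1, rs_mu_mul]
    · rintro l _ ⟨v, hv, rfl⟩
      exact ⟨_, (hst n).hd l v hv, rs_A a.1 w hw l v⟩
    · intro t ht
      refine ⟨((Z a.1 ^ (-1 : ℤ) : (PR F ι)ˣ) : PR F ι) * mu F (Subtype.val : Rm a.1 → ι) t, ?_, ?_⟩
      · apply hb n
        exact Ideal.mul_mem_left _ _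
          (mu_mem_nn (fun t => (⟨ζ t, a.2 t⟩ : Rm a.1)) (Subtype.val : Rm a.1 → ι) ht)
      · rw [rs_mul_mu, if_pos rfl]
  · refine h0 _ (fun i j hij => Submodule.comap_mono (hc hij)) (fun n => ⟨?_, ?_⟩) (fun n => ?_)
    · intro m v hv
      rw [Submodule.mem_comap, Derivation.coeFn_coe] at hv ⊢
      rw [Derivation.leibniz, pd_x, smul_zero, add_zero, smul_eq_mul]
      exact (hst n).hx m _ hv
    · intro l v hv
      rw [Submodule.mem_comap, Derivation.coeFn_coe] at hv ⊢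
      rw [pd_A a.1 w hw]
      exact (hst n).hd l _ hv
    · intro v hv
      rw [Submodule.mem_comap, Derivation.coeFn_coe]
      exact hb n (pd_nn ζ a.1 a.2 hv)
  · intro v hv
    exact rs_ker a.1 hv

lemma Ch_zero [CharZero F] (ζ : Fin ν → ι) (w : ι → ℤ) (hw : ∀ a : NR ζ, w a.1 ≠ 1)
    (hRm : ∀ a : NR ζ, NN F (fun t => (⟨ζ t, a.2 t⟩ : Rm a.1)))
    (hg1 : ∀ i j, i ≠ j → Good (sQ F ι ζ) (Tw (sQ F ι ζ))
      (((sQ F ι ζ).z i).val - ((sQ F ι ζ).z j).val))
    (hg2 : ∀ t, Good (sQ F ι ζ) (Tw (sQ F ι ζ))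
      (xf (sQ F ι ζ).x (ch (fun t => (sQ F ι ζ).z (ζ t)) (Finset.univ.erase t)))) :
    Ch (sP F ι) (wt (sP F ι) w) (nF F ζ) := by
  have hnt : Nontrivial (PR F ι ⧸ (nn ζ : Ideal (PR F ι))) := sQ_nontrivial ζ
  refine ch_sP_of_sQ ζ (mk_wt ζ w) ?_
  let e0 : Fin (Fintype.card (NR ζ)) ≃ NR ζ := (Fintype.equivFin _).symm
  exact (zd F ζ).Zd_main hw e0 ((zd F ζ).noeth (sQ_gen ζ)) (Tw (sQ F ι ζ)) (wt_mem _ _) hg1 hg2
    (Dz_Dg ζ w e0) (hkch ζ w e0 hRm)

/-- The chain condition for all twists, for all points and roots. -/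
theorem NN_all [CharZero F] (n : ℕ) : ∀ {ι : Type} [Fintype ι] [DecidableEq ι] {ν : ℕ}
    (ζ : Fin ν → ι), Fintype.card ι + ν = n → NN F ζ := by
  induction n using Nat.strong_induction_on with
  | _ n IH =>
    intro ι _ _ ν ζ hn
    have hcard : ∀ j : ι, Fintype.card {k : ι // k ≠ j} < Fintype.card ι := fun j =>
      Fintype.card_subtype_lt (p := fun k => k ≠ j) (x := j) (fun h => h rfl)
    have hRm : ∀ a : NR ζ, NN F (fun t => (⟨ζ t, a.2 t⟩ : Rm a.1)) := fun a =>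
      IH (Fintype.card {k : ι // k ≠ a.1} + ν) (by have := hcard a.1; omega) _ rfl
    have hg1 : ∀ i j, i ≠ j → Good (sQ F ι ζ) (Tw (sQ F ι ζ))
        (((sQ F ι ζ).z i).val - ((sQ F ι ζ).z j).val) := fun i j hij =>
      good_sub ζ i j hij (IH (Fintype.card {k : ι // k ≠ j} + ν)
        (by have := hcard j; omega) _ rfl)
    have hg2 : ∀ t, Good (sQ F ι ζ) (Tw (sQ F ι ζ))
        (xf (sQ F ι ζ).x (ch (fun t => (sQ F ι ζ).z (ζ t)) (Finset.univ.erase t))) := by
      cases ν with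
      | zero => exact fun t => t.elim0
      | succ ν =>
        intro t
        exact good_beta ζ t (IH (Fintype.card ι + ν) (by omega) _ rfl)
    apply NN_of_wt
    have key : ∀ (m : ℕ) (w : ι → ℤ),
        (Finset.univ.filter (fun a : NR ζ => w a.1 = 1)).card = m →
        Ch (sP F ι) (wt (sP F ι) w) (nF F ζ) := by
      intro m
      induction m with
      | zero =>
        intro w hw
        refine Ch_zero ζ w (fun a ha => ?_) hRm hg1 hg2
        rw [Finset.card_eq_zero] at hw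
        have : a ∈ Finset.univ.filter (fun a : NR ζ => w a.1 = 1) := by simp [ha]
        rw [hw] at this
        exact absurd this (Finset.notMem_empty _)
      | succ m ihm =>
        intro w hw
        obtain ⟨a, ha⟩ := Finset.card_pos.mp (by omega :
          0 < (Finset.univ.filter (fun a : NR ζ => w a.1 = 1)).card)
        have hwa : w a.1 = 1 := by simpa using ha
        refine Ch_one ζ a w hwa (hRm a) (ihm _ ?_)
        have h1 : Finset.univ.filter (fun b : NR ζ => Function.update w a.1 0 b.1 = 1) =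
            (Finset.univ.filter (fun a : NR ζ => w a.1 = 1)).erase a := by
          ext b
          simp only [Finset.mem_filter, Finset.mem_univ, true_and, Finset.mem_erase]
          by_cases hb : b = a
          · rw [hb]
            simp
          · rw [Function.update_of_ne (fun h => hb (Subtype.ext h))]
            simp [hb]
        rw [h1, Finset.card_erase_of_mem ha, hw]
        rfl
    exact fun w => key _ w rfl

end Run7.h143
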