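import Pool.Agent.Run7.h143.Laur

/-!
Systems: commutative algebras with points, a sequence and derivations; stable subspaces and chain
conditions.
-/

set_option autoImplicit false
set_option linter.unusedSectionVars false

namespace Run7.h143

open AddMonoidAlgebra

section stz

variable {F : Type*} [Field F] {V W U : Type*} [AddCommGroup V] [Module F V] [AddCommGroup W]
  [Module F W] [AddCommGroup U] [Module F U]

/-- A sequence of subspaces is eventually constant. -/
def Stz (c : ℕ → Submodule F V) : Prop := ∃ N, ∀ n, N ≤ n → c n = c N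

lemma Stz.pair {c : ℕ → Submodule F V} {c' : ℕ → Submodule F W} (h : Stz c) (h' : Stz c') :
    ∃ N, ∀ n, N ≤ n → c n = c N ∧ c' n = c' N := by
  obtain ⟨N, hN⟩ := h
  obtain ⟨M, hM⟩ := h'
  refine ⟨max N M, fun n hn => ⟨?_, ?_⟩⟩
  · rw [hN n (le_trans (le_max_left _ _) hn), hN _ (le_max_left _ _)]
  · rw [hM n (le_trans (le_max_right _ _) hn), hM _ (le_max_right _ _)]

lemma Stz_of {c : ℕ → Submodule F V} (hc : Monotone c) (f : V →ₗ[F] W) (g : U →ₗ[F] V)
    (h1 : Stz (fun n => (c n).map f)) (h2 : Stz (fun n => (c n).comap g))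
    (h3 : ∀ v, f v = 0 → ∃ u, g u = v) : Stz c := by
  obtain ⟨N, hN⟩ := h1.pair h2
  refine ⟨N, fun n hn => le_antisymm ?_ (hc hn)⟩
  intro v hv
  obtain ⟨e1, e2⟩ := hN n hn
  have h4 : f v ∈ (c N).map f := by
    rw [← e1]; exact Submodule.mem_map_of_mem hv
  obtain ⟨v', hv', hv''⟩ := h4
  obtain ⟨u, hu⟩ := h3 (v - v') (by rw [map_sub, hv'', sub_self])
  have h5 : u ∈ (c N).comap g := by
    rw [← e2, Submodule.mem_comap, hu]
    exact Submodule.sub_mem _ hv (hc hn hv')
  rw [Submodule.mem_comap, hu] at h5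
  have := Submodule.add_mem _ h5 hv'
  rwa [sub_add_cancel] at this

lemma Stz_mod {c : ℕ → Submodule F V} (hc : Monotone c) (B : Submodule F V)
    (h1 : Stz (fun n => c n ⊔ B)) (h2 : Stz (fun n => c n ⊓ B)) : Stz c := by
  obtain ⟨N, hN⟩ := h1.pair h2
  refine ⟨N, fun n hn => (eq_of_le_of_inf_le_of_sup_le (z := B) (hc hn) ?_ ?_).symm⟩
  · exact (hN n hn).2.le
  · exact (hN n hn).1.le

lemma Stz_inj {c : ℕ → Submodule F V} (f : V →ₗ[F] W) (hf : Function.Injective f)
    (h1 : Stz (fun n => (c n).map f)) : Stz c := by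
  obtain ⟨N, hN⟩ := h1
  exact ⟨N, fun n hn => Submodule.map_injective_of_injective hf (hN n hn)⟩

lemma Stz_surj {c : ℕ → Submodule F V} (f : W →ₗ[F] V) (hf : Function.Surjective f)
    (h1 : Stz (fun n => (c n).comap f)) : Stz c := by
  obtain ⟨N, hN⟩ := h1
  exact ⟨N, fun n hn => Submodule.comap_injective_of_surjective hf (hN n hn)⟩

end stz

section der

variable {F : Type*} [CommRing F] {O : Type*} [CommRing O] [Algebra F O]

lemma der_prod (D : Derivation F O O) {κ : Type*} [DecidableEq κ] (s : Finset κ) (f : κ → O) :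
    D (∏ a ∈ s, f a) = ∑ a ∈ s, D (f a) * ∏ c ∈ s.erase a, f c := by
  induction s using Finset.induction_on with
  | empty => simp
  | insert a s ha ih =>
    rw [Finset.prod_insert ha, Derivation.leibniz, ih, Finset.sum_insert ha,
      Finset.erase_insert ha, smul_eq_mul, smul_eq_mul, Finset.mul_sum, add_comm]
    congr 1
    · rw [mul_comm]
    · apply Finset.sum_congr rfl
      intro b hb
      have hab : a ≠ b := by rintro rfl; exact ha hb
      rw [Finset.erase_insert_of_ne hab, Finset.prod_insert]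
      · ring
      · intro h; exact ha (Finset.mem_of_mem_erase h)

lemma der_inv (D : Derivation F O O) (u : Oˣ) :
    D ((u⁻¹ : Oˣ) : O) = - (((u⁻¹ : Oˣ) : O) * ((u⁻¹ : Oˣ) : O) * D (u : O)) := by
  have := D.leibniz_of_mul_eq_one (Units.inv_mul u)
  rw [this, smul_eq_mul]
  ring

lemma der_zpow (D : Derivation F O O) (u : Oˣ) (n : ℤ) :
    D ((u ^ n : Oˣ) : O) = (n : O) * ((u ^ (n - 1) : Oˣ) : O) * D (u : O) := by
  induction n using Int.induction_on with
  | zero => simp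
  | succ n ih =>
    have e : ((u ^ (n - 1 : ℤ) : Oˣ) : O) * (u : O) = ((u ^ (n : ℤ) : Oˣ) : O) := by
      rw [← Units.val_mul, ← zpow_add_one]; congr 2; ring
    rw [zpow_add_one, Units.val_mul, Derivation.leibniz, ih, smul_eq_mul, smul_eq_mul,
      show (n : ℤ) + 1 - 1 = n by ring, ← e]
    push_cast
    ring
  | pred n ih =>
    have e : ((u ^ (-(n : ℤ) - 1 - 1) : Oˣ) : O) = ((u ^ (-(n : ℤ) - 1) : Oˣ) : O) *
        ((u⁻¹ : Oˣ) : O) := by
      rw [← Units.val_mul, ← zpow_sub_one]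
    have e' : ((u ^ (-(n : ℤ)) : Oˣ) : O) * ((u⁻¹ : Oˣ) : O) = ((u ^ (-(n : ℤ) - 1) : Oˣ) : O) := by
      rw [← Units.val_mul, ← zpow_sub_one]
    rw [zpow_sub_one, Units.val_mul, Derivation.leibniz, ih, smul_eq_mul, smul_eq_mul, der_inv, e,
      ← e']
    push_cast
    ring

end der

section gg

variable {O : Type*} [CommRing O]

/-- The divided difference of `y ^ l`. -/
noncomputable def gg : ℤ → Oˣ → Oˣ → O
  | Int.ofNat n, u, v => ∑ k ∈ Finset.range n, (u : O) ^ k * (v : O) ^ (n - 1 - k)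
  | Int.negSucc n, u, v => - (((u ^ (-((n : ℤ) + 1)) * v ^ (-((n : ℤ) + 1)) : Oˣ) : O) *
      ∑ k ∈ Finset.range (n + 1), (u : O) ^ k * (v : O) ^ (n + 1 - 1 - k))

lemma gg_mul (l : ℤ) (u v : Oˣ) :
    gg l u v * ((u : O) - v) = ((u ^ l : Oˣ) : O) - ((v ^ l : Oˣ) : O) := by
  cases l with
  | ofNat n =>
    have := (Commute.all (u : O) (v : O)).geom_sum₂_mul n
    simp only [gg, Int.ofNat_eq_natCast, zpow_natCast, Units.val_pow_eq_pow_val]
    exact this
  | negSucc n =>
    have := (Commute.all (u : O) (v : O)).geom_sum₂_mul (n + 1)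
    simp only [gg]
    rw [neg_mul, mul_assoc, this, Int.negSucc_eq, Units.val_mul]
    have e1 : ((u ^ (-((n : ℤ) + 1)) : Oˣ) : O) * (u : O) ^ (n + 1) = 1 := by
      rw [← Units.val_pow_eq_pow_val, ← Units.val_mul, ← zpow_natCast, ← zpow_add]
      simp
    have e2 : ((v ^ (-((n : ℤ) + 1)) : Oˣ) : O) * (v : O) ^ (n + 1) = 1 := by
      rw [← Units.val_pow_eq_pow_val, ← Units.val_mul, ← zpow_natCast, ← zpow_add]
      simp
    linear_combination (-((v ^ (-((n : ℤ) + 1)) : Oˣ) : O)) * e1 + ((u ^ (-((n : ℤ) + 1)) : Oˣ) : O) * e2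

lemma gg_self (l : ℤ) (u : Oˣ) : gg l u u = (l : O) * ((u ^ (l - 1) : Oˣ) : O) := by
  cases l with
  | ofNat n =>
    simp only [gg, geom_sum₂_self]
    rcases n with _ | n
    · simp
    · simp only [Int.ofNat_eq_natCast, Nat.add_sub_cancel]
      rw [show ((n + 1 : ℕ) : ℤ) - 1 = (n : ℤ) by push_cast; ring, zpow_natCast]
      push_cast
      rfl
  | negSucc n =>
    simp only [gg, geom_sum₂_self]
    rw [Int.negSucc_eq, Nat.add_sub_cancel]
    have e1 : ((u ^ (-((n : ℤ) + 1)) * u ^ (-((n : ℤ) + 1)) : Oˣ) : O) * (u : O) ^ n =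
        ((u ^ (-((n : ℤ) + 1) - 1) : Oˣ) : O) := by
      rw [← Units.val_pow_eq_pow_val, ← Units.val_mul, ← zpow_natCast, ← zpow_add, ← zpow_add]
      congr 2
      ring
    rw [← e1]
    push_cast
    ring

lemma gg_map {C : Type*} [CommRing C] (f : O →+* C) (l : ℤ) (u v : Oˣ) :
    f (gg l u v) = gg l (Units.map (f : O →* C) u) (Units.map (f : O →* C) v) := by
  cases l with
  | ofNat n => simp [gg]
  | negSucc n =>
    simp only [gg, map_neg, map_mul, map_sum, map_pow, Units.coe_map, MonoidHom.coe_coe]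
    rw [← map_zpow, ← map_zpow, ← map_mul, Units.coe_map]
    rfl

end gg

/-- A commutative algebra with points, a sequence and derivations. -/
structure Sys (F : Type*) [Field F] (ι : Type) (O : Type*) [CommRing O] [Algebra F O] where
  /-- the points -/
  z : ι → Oˣ
  /-- the sequence -/
  x : ℤ → O
  /-- the derivations -/
  d : ℤ → Derivation F O O
  dz : ∀ l i, d l (z i : O) = ((z i ^ l : Oˣ) : O)
  dx : ∀ l m, d l (x m) = ((m - l : ℤ) : O) * x (m + l - 1)

section sys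

variable {F : Type*} [Field F] {ι : Type} {O : Type*} [CommRing O] [Algebra F O]

/-- Semi-invariants. -/
def SI (s : Sys F ι O) (b : O) (γ : ℤ → O) : Prop := ∀ l, s.d l b = γ l * b

variable {s : Sys F ι O}

lemma SI.one : SI s 1 0 := by
  intro l; simp

lemma SI.mul {a b : O} {γ γ' : ℤ → O} (ha : SI s a γ) (hb : SI s b γ') : SI s (a * b) (γ + γ') := by
  intro l
  rw [Derivation.leibniz, ha l, hb l, smul_eq_mul, smul_eq_mul, Pi.add_apply]
  ring

lemma SI.pow {a : O} {γ : ℤ → O} (ha : SI s a γ) (n : ℕ) : SI s (a ^ n) (n • γ) := by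
  induction n with
  | zero => rw [pow_zero, zero_smul]; exact SI.one
  | succ n ih => rw [pow_succ, succ_nsmul]; exact ih.mul ha

lemma SI.prod {κ : Type*} {t : Finset κ} {b : κ → O} {γ : κ → ℤ → O}
    (h : ∀ i ∈ t, SI s (b i) (γ i)) : SI s (∏ i ∈ t, b i) (∑ i ∈ t, γ i) := by
  classical
  induction t using Finset.induction_on with
  | empty => simp only [Finset.prod_empty, Finset.sum_empty]; exact SI.one
  | insert a t ha ih =>
    rw [Finset.prod_insert ha, Finset.sum_insert ha]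
    exact (h a (Finset.mem_insert_self _ _)).mul
      (ih (fun i hi => h i (Finset.mem_insert_of_mem hi)))

lemma SI.neg {a : O} {γ : ℤ → O} (ha : SI s a γ) : SI s (-a) γ := by
  intro l
  rw [Derivation.map_neg, ha l, mul_neg]

lemma SI.sub_z (s : Sys F ι O) (i j : ι) :
    SI s ((s.z i : O) - s.z j) (fun l => gg l (s.z i) (s.z j)) := by
  intro l
  rw [Derivation.map_sub, s.dz, s.dz, gg_mul]

/-- Stable subspaces. -/
structure Stab (s : Sys F ι O) (γ : ℤ → O) (I : Submodule F O) : Prop where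
  hx : ∀ m, ∀ v ∈ I, s.x m * v ∈ I
  hd : ∀ l, ∀ v ∈ I, s.d l v + γ l * v ∈ I

/-- The chain condition for stable subspaces containing `B`. -/
def Ch (s : Sys F ι O) (γ : ℤ → O) (B : Submodule F O) : Prop :=
  ∀ c : ℕ → Submodule F O, Monotone c → (∀ n, Stab s γ (c n)) → (∀ n, B ≤ c n) → Stz c

lemma Ch.mono {γ : ℤ → O} {B B' : Submodule F O} (h : Ch s γ B) (hB : B ≤ B') : Ch s γ B' :=
  fun c hc hs hb => h c hc hs (fun n => hB.trans (hb n))

/-- The multiples of an element. -/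
def pr (F : Type*) [Field F] {O : Type*} [CommRing O] [Algebra F O] (b : O) : Submodule F O :=
  LinearMap.range (LinearMap.mulLeft F b)

lemma mem_pr {b v : O} : v ∈ pr F b ↔ ∃ t, b * t = v := by
  unfold pr
  rw [LinearMap.mem_range]
  rfl

lemma Stab.pr {b : O} {γ' : ℤ → O} (hb : SI s b γ') (γ : ℤ → O) : Stab s γ (pr F b) where
  hx := by
    intro m v hv
    rw [mem_pr] at hv ⊢
    obtain ⟨t, rfl⟩ := hv
    exact ⟨s.x m * t, by ring⟩
  hd := by
    intro l v hv
    rw [mem_pr] at hv ⊢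
    obtain ⟨t, rfl⟩ := hv
    rw [Derivation.leibniz, hb l, smul_eq_mul, smul_eq_mul]
    exact ⟨s.d l t + t * γ' l + γ l * t, by ring⟩

lemma Stab.sup {γ : ℤ → O} {I J : Submodule F O} (hI : Stab s γ I) (hJ : Stab s γ J) :
    Stab s γ (I ⊔ J) where
  hx := by
    intro m v hv
    rw [Submodule.mem_sup] at hv
    obtain ⟨a, ha, b, hb, rfl⟩ := hv
    rw [mul_add]
    exact Submodule.add_mem_sup (hI.hx m a ha) (hJ.hx m b hb)
  hd := by
    intro l v hv
    rw [Submodule.mem_sup] at hv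
    obtain ⟨a, ha, b, hb, rfl⟩ := hv
    rw [map_add, mul_add, add_add_add_comm]
    exact Submodule.add_mem_sup (hI.hd l a ha) (hJ.hd l b hb)

lemma Stab.inf {γ : ℤ → O} {I J : Submodule F O} (hI : Stab s γ I) (hJ : Stab s γ J) :
    Stab s γ (I ⊓ J) where
  hx := fun m v hv => ⟨hI.hx m v hv.1, hJ.hx m v hv.2⟩
  hd := fun l v hv => ⟨hI.hd l v hv.1, hJ.hd l v hv.2⟩

lemma Stab.comap_mul {γ γ' : ℤ → O} {I : Submodule F O} (hI : Stab s γ I) {b : O}
    (hb : SI s b γ') : Stab s (γ + γ') (I.comap (LinearMap.mulLeft F b)) where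
  hx := by
    intro m v hv
    rw [Submodule.mem_comap, LinearMap.mulLeft_apply] at hv ⊢
    have := hI.hx m _ hv
    rwa [show s.x m * (b * v) = b * (s.x m * v) by ring] at this
  hd := by
    intro l v hv
    rw [Submodule.mem_comap, LinearMap.mulLeft_apply] at hv ⊢
    have := hI.hd l _ hv
    rw [Derivation.leibniz, hb l, smul_eq_mul, smul_eq_mul] at this
    rw [Pi.add_apply]
    rwa [show b * s.d l v + v * (γ' l * b) + γ l * (b * v) =
      b * (s.d l v + (γ l + γ' l) * v) by ring] at this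

lemma Stab.map_mul {γ γ' : ℤ → O} {I : Submodule F O} (hI : Stab s (γ + γ') I) {b : O}
    (hb : SI s b γ') : Stab s γ (I.map (LinearMap.mulLeft F b)) where
  hx := by
    rintro m _ ⟨v, hv, rfl⟩
    refine ⟨s.x m * v, hI.hx m v hv, ?_⟩
    rw [LinearMap.mulLeft_apply, LinearMap.mulLeft_apply]
    ring
  hd := by
    rintro l _ ⟨v, hv, rfl⟩
    refine ⟨s.d l v + (γ + γ') l * v, hI.hd l v hv, ?_⟩
    rw [LinearMap.mulLeft_apply, LinearMap.mulLeft_apply, Derivation.leibniz, hb l, smul_eq_mul,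
      smul_eq_mul, Pi.add_apply]
    ring

/-- Good elements for a class `A` of twists. -/
def Good (s : Sys F ι O) (A : AddSubmonoid (ℤ → O)) (b : O) : Prop :=
  (∃ γ' ∈ A, SI s b γ') ∧ ∀ γ ∈ A, Ch s γ (pr F b)

lemma Good.one (s : Sys F ι O) (A : AddSubmonoid (ℤ → O)) : Good s A 1 := by
  refine ⟨⟨0, A.zero_mem, SI.one⟩, fun γ _ c hc _ hb => ⟨0, fun n _ => ?_⟩⟩
  have h1 : pr F (1 : O) = ⊤ := by
    rw [eq_top_iff]
    intro v _
    rw [mem_pr]
    exact ⟨v, one_mul v⟩
  have h2 : ∀ n, c n = ⊤ := fun n => by rw [← top_le_iff, ← h1]; exact hb n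
  rw [h2, h2]

lemma Good.mul {A : AddSubmonoid (ℤ → O)} {a b : O} (ha : Good s A a) (hb : Good s A b) :
    Good s A (a * b) := by
  obtain ⟨⟨γa, hγa, hsa⟩, hca⟩ := ha
  obtain ⟨⟨γb, hγb, hsb⟩, hcb⟩ := hb
  refine ⟨⟨γa + γb, A.add_mem hγa hγb, hsa.mul hsb⟩, fun γ hγ c hc hst hB => ?_⟩
  apply Stz_mod hc (pr F a)
  · refine hca γ hγ _ (fun i j h => sup_le_sup_right (hc h) _) (fun n => (hst n).sup (Stab.pr hsa γ))
      (fun n => le_sup_right)
  · have h1 := hcb (γ + γa) (A.add_mem hγ hγa) (fun n => (c n).comap (LinearMap.mulLeft F a))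
      (fun i j h => Submodule.comap_mono (hc h)) (fun n => (hst n).comap_mul hsa) (by
        intro n v hv
        rw [mem_pr] at hv
        obtain ⟨t, rfl⟩ := hv
        rw [Submodule.mem_comap, LinearMap.mulLeft_apply]
        apply hB n
        rw [mem_pr]
        exact ⟨t, by ring⟩)
    obtain ⟨N, hN⟩ := h1
    refine ⟨N, fun n hn => ?_⟩
    have h2 : ∀ n, c n ⊓ pr F a = ((c n).comap (LinearMap.mulLeft F a)).map (LinearMap.mulLeft F a) := by
      intro n
      rw [Submodule.map_comap_eq, inf_comm]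
      rfl
    have h3 := hN n hn
    beta_reduce at h3 ⊢
    rw [h2, h2, h3]

lemma Good.pow {A : AddSubmonoid (ℤ → O)} {a : O} (ha : Good s A a) (n : ℕ) :
    Good s A (a ^ n) := by
  induction n with
  | zero => rw [pow_zero]; exact Good.one s A
  | succ n ih => rw [pow_succ]; exact ih.mul ha

lemma Good.prod {A : AddSubmonoid (ℤ → O)} {κ : Type*} {t : Finset κ} {b : κ → O}
    (h : ∀ i ∈ t, Good s A (b i)) : Good s A (∏ i ∈ t, b i) :=
  Finset.prod_induction _ (Good s A) (fun _ _ => Good.mul) (Good.one s A) h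

lemma pr_unit {u b : O} (hu : IsUnit u) : pr F (u * b) = pr F b := by
  obtain ⟨u, rfl⟩ := hu
  ext v
  rw [mem_pr, mem_pr]
  constructor
  · rintro ⟨t, rfl⟩
    exact ⟨u * t, by ring⟩
  · rintro ⟨t, rfl⟩
    exact ⟨((u⁻¹ : Oˣ) : O) * t, by
      rw [show (u : O) * b * (((u⁻¹ : Oˣ) : O) * t) = (u * ((u⁻¹ : Oˣ) : O)) * (b * t) by ring,
        Units.mul_inv, one_mul]⟩

lemma Good.neg {A : AddSubmonoid (ℤ → O)} {b : O} (h : Good s A b) : Good s A (-b) := by
  obtain ⟨⟨γb, hγb, hsb⟩, hcb⟩ := h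
  refine ⟨⟨γb, hγb, hsb.neg⟩, fun γ hγ => ?_⟩
  have h1 : pr F (-b) = pr F b := by
    rw [neg_eq_neg_one_mul]
    exact pr_unit (isUnit_one.neg)
  rw [h1]
  exact hcb γ hγ

lemma Good.smul {A : AddSubmonoid (ℤ → O)} {b : O} (h : Good s A b) {r : F} (hr : r ≠ 0) :
    Good s A (r • b) := by
  obtain ⟨⟨γb, hγb, hsb⟩, hcb⟩ := h
  refine ⟨⟨γb, hγb, fun l => by rw [Derivation.map_smul, hsb l, mul_smul_comm]⟩, fun γ hγ => ?_⟩
  have h1 : pr F (r • b) = pr F b := by
    rw [Algebra.smul_def]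
    exact pr_unit ((isUnit_iff_ne_zero.mpr hr).map (algebraMap F O))
  rw [h1]
  exact hcb γ hγ

end sys

end Run7.h143
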