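import Pool.Agent.Run7.h143.Lead

/-!
The ascending chain condition on two-sided ideals for algebras generated by elements satisfying the
Witt relations.
-/

set_option autoImplicit false
set_option linter.unusedSectionVars false
set_option linter.unusedSimpArgs false
set_option linter.unusedVariables false

namespace Run7.h143

open MvPolynomial Pool.Agent.R693

variable {F : Type*} [Field F] {A : Type*} [Ring A] [Algebra F A] {e : ℤ → A}

/-- Restriction of the labels. -/
def rest (d : ℕ) : (ℕ → ℤ) →+ (Fin d → ℤ) where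
  toFun n := fun a => n a
  map_zero' := rfl
  map_add' _ _ := rfl

/-- Change of labels and coefficients. -/
noncomputable def Psi (F : Type*) [Field F] (d : ℕ) : W.K F ℤ →+* PR F (Fin d) :=
  (mp (MvPolynomial.C : F →+* SA F) : LP F (Fin d) →+* PR F (Fin d)).comp
    (AddMonoidAlgebra.mapDomainRingHom F (rest d))

lemma Psi_single (d : ℕ) (k : ℕ → ℤ) (r : F) :
    Psi F d (AddMonoidAlgebra.single k r) = AddMonoidAlgebra.single (rest d k) (C r) := by
  unfold Psi
  rw [RingHom.comp_apply]
  have h1 : AddMonoidAlgebra.mapDomainRingHom F (rest d) (AddMonoidAlgebra.single k r) =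
      AddMonoidAlgebra.single (rest d k) r := by simp
  rw [h1]
  exact mp_single _ _ _

lemma Psi_X {d a : ℕ} (h : a < d) :
    Psi F d (W.X a) = (((Z ⟨a, h⟩ : (PR F (Fin d))ˣ)) : PR F (Fin d)) := by
  unfold W.X
  rw [Psi_single, Z_val, map_one]
  congr 1
  funext b
  change (W.dl a : W.G ℤ) b = _
  rw [W.dl_apply]
  by_cases hb : b = ⟨a, h⟩
  · rw [hb, Pi.single_eq_same, if_pos rfl]
    rfl
  · rw [Pi.single_eq_of_ne hb, if_neg (fun h' => hb (Fin.ext h'))]

lemma Psi_Dl (d : ℕ) : Psi F d (W.Dl F ℤ d) = Dc F (Fin d) := by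
  unfold W.Dl W.offd Dc
  rw [map_prod, Finset.prod_filter, Finset.prod_product]
  have h1 : ∀ a b : Fin d, (if a = b then (1 : PR F (Fin d)) else
      (((sP F (Fin d)).z a : PR F (Fin d)) - (sP F (Fin d)).z b)) =
      (fun (a b : ℕ) => if a ≠ b then Psi F d (W.X a - W.X b) else 1) a b := by
    intro a b
    beta_reduce
    by_cases h : a = b
    · rw [if_pos h, if_neg (by rw [h]; exact fun h' => h' rfl)]
    · rw [if_neg h, if_pos (fun h' => h (Fin.ext h')), map_sub, Psi_X a.2, Psi_X b.2]
      rfl
  simp_rw [h1]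
  rw [← Fin.prod_univ_eq_prod_range (fun a => ∏ b ∈ Finset.range d,
    (if a ≠ b then Psi F d (W.X a - W.X b) else 1)) d]
  apply Finset.prod_congr rfl
  intro a _
  rw [← Fin.prod_univ_eq_prod_range (fun b =>
    (if a.1 ≠ b then Psi F d (W.X a.1 - W.X b) else 1)) d]

lemma hom_prod (k : ℕ → ℤ) (d : ℕ) :
    (∏ a ∈ Finset.range d, X (k a) : SA F).IsHomogeneous d := by
  have := MvPolynomial.IsHomogeneous.prod (Finset.range d) (fun a => (X (k a) : SA F)) (fun _ => 1)
    (fun a _ => isHomogeneous_X F (k a))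
  simpa using this

lemma hc_of_hom {f : SA F} {d : ℕ} (h : f.IsHomogeneous d) (j : ℕ) :
    homogeneousComponent j f = if j = d then f else 0 :=
  homogeneousComponent_of_mem ((mem_homogeneousSubmodule _ _).mpr h)

variable [CharZero F]

lemma sg_prod (he : W.IsW F e) (k : ℕ → ℤ) (d : ℕ) :
    sg F e (∏ a ∈ Finset.range d, X (k a)) - W.om e d k ∈ W.Fl F e d := by
  induction d with
  | zero =>
    have h1 : (∏ a ∈ Finset.range 0, X (k a) : SA F) = C 1 := by simp
    rw [h1, sg_C, one_smul]
    have h2 : W.om e 0 k = 1 := rfl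
    rw [h2, sub_self]
    exact Submodule.zero_mem _
  | succ d ih =>
    rw [Finset.prod_range_succ]
    have h1 := sg_mul_X he (k d) d (∏ a ∈ Finset.range d, X (k a))
    rw [hc_of_hom (hom_prod k d), if_pos rfl] at h1
    have h2 : W.om e (d + 1) k = e (k d) * W.om e d k := rfl
    have h3 := W.e_mul_mem (k d) ih
    have h4 := Submodule.add_mem _ h1 h3
    rw [h2]
    rwa [mul_sub, sub_add_sub_cancel] at h4

lemma E_Psi_single (d : ℕ) (k : ℕ → ℤ) (r : F) :
    E (X : ℤ → SA F) (Psi F d (AddMonoidAlgebra.single k r)) =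
      r • ∏ a ∈ Finset.range d, X (k a) := by
  rw [Psi_single, E_single, MvPolynomial.smul_eq_C_mul]
  congr 1
  exact Fin.prod_univ_eq_prod_range (fun a => (X (k a) : SA F)) d

lemma E_Psi_hom (d : ℕ) (g : W.K F ℤ) : (E (X : ℤ → SA F) (Psi F d g)).IsHomogeneous d := by
  rw [← mem_homogeneousSubmodule]
  induction g using AddMonoidAlgebra.induction_linear with
  | zero => rw [map_zero, map_zero]; exact Submodule.zero_mem _
  | add p q hp hq => rw [map_add, map_add]; exact Submodule.add_mem _ hp hq
  | single k r =>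
    rw [E_Psi_single]
    exact Submodule.smul_mem _ _ ((mem_homogeneousSubmodule _ _).mpr (hom_prod k d))

lemma sg_E_Psi (he : W.IsW F e) (d : ℕ) (g : W.K F ℤ) :
    sg F e (E (X : ℤ → SA F) (Psi F d g)) - W.act A g (W.om e d) 0 ∈ W.Fl F e d := by
  induction g using AddMonoidAlgebra.induction_linear with
  | zero => simp
  | add p q hp hq =>
    rw [map_add, map_add, map_add, map_add, LinearMap.add_apply, Pi.add_apply, add_sub_add_comm]
    exact Submodule.add_mem _ hp hq
  | single k r =>
    rw [E_Psi_single, map_smul, W.act_single, zero_add, ← smul_sub]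
    exact Submodule.smul_mem _ _ (sg_prod he k d)

lemma ld_mul (he : W.IsW F e) (I : TwoSidedIdeal A) (b : SA F) {f : SA F} (hf : f ∈ ld he I) :
    b * f ∈ ld he I := by
  induction b using MvPolynomial.induction_on with
  | C a => rw [← MvPolynomial.smul_eq_C_mul]; exact Submodule.smul_mem _ _ hf
  | add p q hp hq => rw [add_mul]; exact Submodule.add_mem _ hp hq
  | mul_X p i hp =>
    rw [mul_comm p, mul_assoc]
    exact ld_X he I i hp

/-- The leading forms contain the values at the multiples of a power of the discriminant. -/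
lemma van_ld (he : W.IsW F e) (I : TwoSidedIdeal A) {d N : ℕ}
    (h : W.Dl F ℤ d ^ N ∈ W.aI e d (W.subsp F I)) (t : PR F (Fin d)) :
    fi F (Fin d) N t ∈ ld he I := by
  induction t using AddMonoidAlgebra.induction_linear with
  | zero => rw [map_zero]; exact Submodule.zero_mem _
  | add p q hp hq => rw [map_add]; exact Submodule.add_mem _ hp hq
  | single n b =>
    set n' : ℕ → ℤ := fun a => if h : a < d then n ⟨a, h⟩ else 0 with hn'
    have hn : rest d n' = n := by
      funext a
      change n' a = n a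
      rw [hn']
      beta_reduce
      rw [dif_pos a.2]
    have h1 : fi F (Fin d) N (AddMonoidAlgebra.single n b) = b *
        E (X : ℤ → SA F) (Psi F d (W.Dl F ℤ d ^ N * AddMonoidAlgebra.single n' 1)) := by
      rw [map_mul, map_pow, Psi_Dl, Psi_single, hn, map_one, fi_apply, ← E_C_mul, mul_left_comm,
        AddMonoidAlgebra.single_mul_single, zero_add, mul_one]
    rw [h1]
    apply ld_mul
    set g : W.K F ℤ := W.Dl F ℤ d ^ N * AddMonoidAlgebra.single n' 1 with hg
    have h2 : g ∈ W.aI e d (W.subsp F I) := Ideal.mul_mem_right _ _ h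
    rw [mem_ld]
    intro j
    rw [hc_of_hom (E_Psi_hom d g)]
    by_cases hj : j = d
    · rw [if_pos hj, hj]
      have h3 := Submodule.add_mem _ (Submodule.mem_sup_right (sg_E_Psi he d g))
        (Submodule.mem_sup_left (h2 0) : _ ∈ W.subsp F I ⊔ W.Fl F e d)
      rwa [sub_add_cancel] at h3
    · rw [if_neg hj, map_zero]
      exact Submodule.zero_mem _

/-- **The ascending chain condition on two-sided ideals.** -/
theorem acc_all (he : W.IsW F e) (hgen : ∀ x : A, ∃ k, x ∈ W.Fl F e k)
    (I : ℕ → TwoSidedIdeal A) (hmono : Monotone I) : ∃ n, ∀ m, n ≤ m → I m = I n := by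
  by_cases h : ∀ i, I i = ⊥
  · exact ⟨0, fun m _ => by rw [h, h]⟩
  · push Not at h
    obtain ⟨i0, hi0⟩ := h
    obtain ⟨d, N, hV⟩ := W.exists_Van_ideal (F := F) he hgen hi0
    obtain ⟨n, hn⟩ := comm_ch (F := F) _ (ι := Fin d) rfl N (fun j => ld he (I (i0 + j)))
      (fun i j hij => ld_mono he (hmono (by omega))) (fun j => ld_St0 he _)
      (fun j t => ld_mono he (hmono (Nat.le_add_right i0 j)) (van_ld he (I i0) hV t))
    refine ⟨i0 + n, fun m hm => ?_⟩
    have h1 := hn (m - i0) (by omega)
    beta_reduce at h1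
    rw [show i0 + (m - i0) = m by omega] at h1
    exact eq_of_ld he hgen (hmono hm) h1

end Run7.h143
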