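import Pool.Agent.Run7.h143.Func
import Pool.Agent.R693.W.Shift

/-!
Words of local operators.
-/

set_option autoImplicit false
set_option linter.unusedSectionVars false
set_option linter.unusedSimpArgs false
set_option linter.unusedTactic false
set_option linter.unreachableTactic false

namespace Run7.h143

open AddMonoidAlgebra Pool.Agent.R693.W

/-- Local data: points, weights and derivations. -/
structure Loc (F : Type*) [Field F] (α : Type) [DecidableEq α] (O : Type*) [CommRing O]
    [Algebra F O] where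
  /-- the points -/
  z : α → Oˣ
  /-- the scalars -/
  ε : α → O
  /-- the derivations -/
  p : α → Derivation F O O
  pz : ∀ i j, p i (z j : O) = if i = j then 1 else 0
  pε : ∀ i j, i ≠ j → p i (ε j) = 0
  pp : ∀ i j v, p i (p j v) = p j (p i v)
  /-- the weights -/
  w : α → ℤ

section

variable {F : Type*} [Field F] {α : Type} [DecidableEq α] {O : Type*} [CommRing O] [Algebra F O]
  (P : Loc F α O)

namespace Loc

/-- The coefficients. -/
def u (i : α) (m : ℤ) : O := P.ε i * ((P.z i ^ m : Oˣ) : O)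

lemma u_succ (i : α) (m : ℤ) : P.u i (m + 1) = P.z i * P.u i m := by
  unfold u
  rw [zpow_add_one, Units.val_mul]
  ring

lemma p_u (i j : α) (h : i ≠ j) (m : ℤ) : P.p i (P.u j m) = 0 := by
  unfold u
  rw [Derivation.leibniz, P.pε i j h, der_zpow, P.pz, if_neg h]
  simp

/-- The local operators. -/
noncomputable def B (i : α) (m : ℤ) : O →ₗ[F] O :=
  LinearMap.mulLeft F (P.u i m) ∘ₗ (P.p i : O →ₗ[F] O) +
    LinearMap.mulLeft F ((P.w i : O) * P.p i (P.u i m))

lemma B_apply (i : α) (m : ℤ) (v : O) :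
    P.B i m v = P.u i m * P.p i v + (P.w i : O) * P.p i (P.u i m) * v := rfl

lemma B_mul (i : α) (m : ℤ) (a v : O) : P.B i m (a * v) = a * P.B i m v + P.u i m * P.p i a * v := by
  rw [B_apply, B_apply, Derivation.leibniz, smul_eq_mul, smul_eq_mul]
  ring

lemma B_z (i j : α) (m : ℤ) (v : O) : P.B i m (P.z j * v) = P.z j * P.B i m v +
    if i = j then P.u i m * v else 0 := by
  rw [B_mul, P.pz]
  split_ifs <;> ring

lemma B_succ (i : α) (m : ℤ) (v : O) : P.B i (m + 1) v = P.z i * P.B i m v +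
    (P.w i : O) * (P.u i m * v) := by
  rw [B_apply, B_apply, u_succ, Derivation.leibniz, P.pz, if_pos rfl, smul_eq_mul, smul_eq_mul]
  ring

/-- The tail of a label function. -/
def tl (n : G ℤ) : G ℤ := fun k => n (k + 1)

lemma tl_add_dl (n : G ℤ) (a : ℕ) : tl (n + dl (a + 1)) = tl n + dl a := by
  funext k
  simp only [tl, Pi.add_apply, dl_apply]
  congr 1
  simp

lemma tl_add_dl_zero (n : G ℤ) : tl (n + dl 0) = tl n := by
  funext k
  simp [tl, Pi.add_apply, dl_apply]

lemma add_dl_succ_zero (n : G ℤ) (a : ℕ) : (n + dl (a + 1) : G ℤ) 0 = n 0 := by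
  simp [Pi.add_apply, dl_apply]

lemma add_dl_zero_zero (n : G ℤ) : (n + dl 0 : G ℤ) 0 = n 0 + 1 := by
  simp only [Pi.add_apply, dl_apply]
  rfl

/-- The local operator at the first label. -/
noncomputable def BB (i : α) : (G ℤ → O) →ₗ[F] (G ℤ → O) where
  toFun f n := P.B i (n 0) (f (tl n))
  map_add' f g := by funext n; simp only [Pi.add_apply, map_add]
  map_smul' r f := by funext n; simp only [Pi.smul_apply, map_smul, RingHom.id_apply]

lemma BB_apply (i : α) (f : G ℤ → O) (n : G ℤ) : P.BB i f n = P.B i (n 0) (f (tl n)) := rfl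

/-- The multiplication at the first label. -/
noncomputable def ee (i : α) : (G ℤ → O) →ₗ[F] (G ℤ → O) where
  toFun f n := P.u i (n 0) * f (tl n)
  map_add' f g := by funext n; simp only [Pi.add_apply, mul_add]
  map_smul' r f := by funext n; simp only [Pi.smul_apply, mul_smul_comm, RingHom.id_apply]

lemma ee_apply (i : α) (f : G ℤ → O) (n : G ℤ) : P.ee i f n = P.u i (n 0) * f (tl n) := rfl

/-- The difference of a shift and a point. -/
noncomputable def av (a : ℕ) (i : α) : K O ℤ := X a - single 0 (P.z i : O)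

lemma act_av (a : ℕ) (i : α) (f : G ℤ → O) (n : G ℤ) :
    act O (P.av a i) f n = f (n + dl a) - P.z i * f n := by
  unfold av
  rw [map_sub, LinearMap.sub_apply, Pi.sub_apply, act_X, act_single, add_zero, smul_eq_mul]

lemma av_BB (a : ℕ) (i j : α) (f : G ℤ → O) : act O (P.av (a + 1) j) (P.BB i f) =
    P.BB i (act O (P.av a j) f) + if i = j then P.ee i f else 0 := by
  funext n
  rw [act_av, BB_apply, BB_apply, tl_add_dl, add_dl_succ_zero, Pi.add_apply, BB_apply, act_av,
    map_sub, B_z]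
  split_ifs
  · rw [ee_apply]; ring
  · rw [Pi.zero_apply]; ring

lemma av_ee (a : ℕ) (i j : α) (f : G ℤ → O) : act O (P.av (a + 1) j) (P.ee i f) =
    P.ee i (act O (P.av a j) f) := by
  funext n
  rw [act_av, ee_apply, ee_apply, tl_add_dl, add_dl_succ_zero, ee_apply, act_av]
  ring

lemma av_pow_ee (a : ℕ) (i j : α) (m : ℕ) (f : G ℤ → O) :
    act O (P.av (a + 1) j ^ m) (P.ee i f) = P.ee i (act O (P.av a j ^ m) f) := by
  induction m generalizing f with
  | zero => simp only [pow_zero, act_one]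
  | succ m ih => rw [act_pow_succ, act_pow_succ, av_ee, ih]

lemma av_pow_BB (a : ℕ) (i j : α) (m : ℕ) (f : G ℤ → O) (h : act O (P.av a j ^ m) f = 0) :
    act O (P.av (a + 1) j ^ (m + 1)) (P.BB i f) = 0 := by
  induction m generalizing f with
  | zero =>
    rw [pow_zero, act_one] at h
    rw [h, map_zero, map_zero]
  | succ m ih =>
    rw [act_pow_succ, av_BB, map_add, ih _ (by rw [← act_pow_succ]; exact h), zero_add]
    split_ifs
    · rw [av_pow_ee, h, map_zero]
    · rw [map_zero]

lemma av_BB_zero (i : α) (f : G ℤ → O) : act O (P.av 0 i ^ 2) (P.BB i f) = 0 := by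
  rw [act_pow_succ, pow_one]
  have h1 : act O (P.av 0 i) (P.BB i f) = ((P.w i : ℤ) : F) • P.ee i f := by
    funext n
    rw [act_av, BB_apply, BB_apply, tl_add_dl_zero, add_dl_zero_zero, B_succ, Pi.smul_apply,
      ee_apply, Algebra.smul_def, map_intCast]
    ring
  have h2 : act O (P.av 0 i) (P.ee i f) = 0 := by
    funext n
    rw [act_av, ee_apply, ee_apply, tl_add_dl_zero, add_dl_zero_zero, u_succ, Pi.zero_apply]
    ring
  rw [h1, LinearMap.map_smul_of_tower, h2, smul_zero]

lemma av_mono {a : ℕ} {i : α} {m k : ℕ} (hmk : m ≤ k) {f : G ℤ → O}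
    (h : act O (P.av a i ^ m) f = 0) : act O (P.av a i ^ k) f = 0 := by
  obtain ⟨j, rfl⟩ := Nat.exists_eq_add_of_le hmk
  rw [pow_add, mul_comm, act_mul, h, map_zero]

/-- The words of pairs. -/
noncomputable def Ph : (κ : ℕ) → (Fin κ → α × α) → O → G ℤ → O
  | 0, _, v => fun _ => v
  | κ + 1, c, v => P.BB (c 0).1 (P.BB (c 0).2 (Ph κ (fun i => c i.succ) v))

lemma Ph_kill (κ : ℕ) (c : Fin κ → α × α) (v : O) (a : Fin κ) :
    act O (P.av (2 * a) (c a).1 ^ (2 * κ + 1)) (P.Ph κ c v) = 0 ∧
      act O (P.av (2 * a + 1) (c a).2 ^ (2 * κ + 1)) (P.Ph κ c v) = 0 := by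
  induction κ with
  | zero => exact a.elim0
  | succ κ ih =>
    refine Fin.cases ?_ (fun a => ?_) a
    · constructor
      · exact P.av_mono (by omega) (P.av_BB_zero _ _)
      · exact P.av_mono (m := 3) (by omega) (P.av_pow_BB 0 _ _ 2 _ (P.av_BB_zero _ _))
    · obtain ⟨h1, h2⟩ := ih (fun i => c i.succ) a
      have e1 : 2 * ((a.succ : Fin (κ + 1)) : ℕ) = 2 * a + 1 + 1 := by
        rw [Fin.val_succ]; ring
      constructor
      · rw [e1]
        exact P.av_pow_BB _ _ _ _ _ (P.av_pow_BB _ _ _ _ _ h1)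
      · rw [e1]
        exact P.av_pow_BB _ _ _ _ _ (P.av_pow_BB _ _ _ _ _ h2)

/-- The annihilator of a function. -/
def ann (f : G ℤ → O) : Ideal (K O ℤ) where
  carrier := {q | act O q f = 0}
  add_mem' := by
    intro a b ha hb
    simp only [Set.mem_ofPred_eq] at ha hb ⊢
    rw [map_add, LinearMap.add_apply, ha, hb, add_zero]
  zero_mem' := by
    simp only [Set.mem_ofPred_eq]
    rw [map_zero, LinearMap.zero_apply]
  smul_mem' := by
    intro a b hb
    simp only [Set.mem_ofPred_eq] at hb ⊢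
    rw [smul_eq_mul, act_mul, hb, map_zero]

lemma mem_ann {f : G ℤ → O} {q : K O ℤ} : q ∈ ann f ↔ act O q f = 0 := Iff.rfl

lemma D_kill {f : G ℤ → O} {a b : ℕ} {i : α} {m : ℕ} (ha : act O (P.av a i ^ m) f = 0)
    (hb : act O (P.av b i ^ m) f = 0) : act O ((D a b : K O ℤ) ^ (2 * m)) f = 0 := by
  rw [← mem_ann] at ha hb ⊢
  have h1 : (D a b : K O ℤ) = P.av a i + - P.av b i := by
    unfold D av
    ring
  rw [h1]
  apply Ideal.add_pow_mem_of_pow_mem_of_le (ann f) ha (n := m)
  · rw [neg_pow]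
    exact (ann f).mul_mem_left _ hb
  · omega

/-- Comparison of the actions over the field and over the ring. -/
lemma act_cmp (q : K F ℤ) (f : G ℤ → O) :
    act O q f = act O (mapRingHom (G ℤ) (algebraMap F O) q) f := by
  induction q using AddMonoidAlgebra.induction_linear with
  | zero => simp
  | add p q hp hq => rw [map_add, map_add, map_add, LinearMap.add_apply, LinearMap.add_apply, hp, hq]
  | single k r =>
    funext n
    rw [act_single, mapRingHom_single, act_single, Algebra.smul_def, smul_eq_mul]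

lemma D_cmp (a b : ℕ) : mapRingHom (G ℤ) (algebraMap F O) (D a b : K F ℤ) = (D a b : K O ℤ) := by
  unfold D X
  rw [map_sub, mapRingHom_single, mapRingHom_single, map_one]

/-- Bad assignments are killed. -/
lemma Ph_bad (κ : ℕ) (c : Fin κ → α × α) (v : O) (q : K F ℤ)
    (hq : ∀ a b : Fin κ, a ≠ b → ∀ s t : ℕ, s < 2 → t < 2 →
      (D (2 * a + s) (2 * b + t) : K F ℤ) ^ (2 * (2 * κ + 1)) ∣ q)
    (h : ¬ ((Function.Injective fun a => (c a).1) ∧
      ∀ a b, a ≠ b → (c a).1 ≠ (c b).2)) : act O q (P.Ph κ c v) = 0 := by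
  have key : ∀ a b : Fin κ, a ≠ b → ∀ s t : ℕ, s < 2 → t < 2 → ∀ i : α,
      act O (P.av (2 * a + s) i ^ (2 * κ + 1)) (P.Ph κ c v) = 0 →
      act O (P.av (2 * b + t) i ^ (2 * κ + 1)) (P.Ph κ c v) = 0 →
      act O q (P.Ph κ c v) = 0 := by
    intro a b hab s t hs ht i h1 h2
    obtain ⟨q', rfl⟩ := hq a b hab s t hs ht
    rw [mul_comm, act_mul, act_cmp ((D (2 * a + s) (2 * b + t) : K F ℤ) ^ (2 * (2 * κ + 1))),
      map_pow, D_cmp, P.D_kill h1 h2, map_zero]
  by_contra hcon
  apply h
  constructor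
  · intro a b hab
    by_contra hne
    apply hcon
    refine key a b hne 0 0 (by omega) (by omega) (c a).1 (P.Ph_kill κ c v a).1 ?_
    have hab' : (c a).1 = (c b).1 := hab
    rw [hab']
    exact (P.Ph_kill κ c v b).1
  · intro a b hne heq
    apply hcon
    refine key a b hne 0 1 (by omega) (by omega) (c a).1 (P.Ph_kill κ c v a).1 ?_
    rw [heq]
    exact (P.Ph_kill κ c v b).2

/-- The shift of labels. -/
noncomputable def sh : K F ℤ →+* K F ℤ :=
  mapDomainRingHom F
    ({ toFun := fun n k => Nat.casesOn k 0 (fun k => n k)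
       map_zero' := by funext k; cases k <;> rfl
       map_add' := by intro m n; funext k; cases k <;> simp } : G ℤ →+ G ℤ)

lemma sh_single (k : G ℤ) (r : F) :
    (sh (single k r) : K F ℤ) = single (fun j => Nat.casesOn j 0 (fun j => k j)) r := by
  unfold sh
  rw [mapDomainRingHom_apply, mapDomain_single]
  rfl

lemma sh_X (a : ℕ) : sh (X a : K F ℤ) = X (a + 1) := by
  unfold X
  rw [sh_single]
  congr 1
  funext j
  cases j with
  | zero => simp [dl_apply]
  | succ j => simp [dl_apply]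

lemma sh_D (a b : ℕ) : sh (D a b : K F ℤ) = D (a + 1) (b + 1) := by
  unfold D
  rw [map_sub, sh_X, sh_X]

lemma act_sh (q : K F ℤ) (i : α) (f : G ℤ → O) :
    act O (sh q) (P.BB i f) = P.BB i (act O q f) := by
  induction q using AddMonoidAlgebra.induction_linear with
  | zero => simp
  | add p q hp hq => rw [map_add, map_add, LinearMap.add_apply, hp, hq, map_add, LinearMap.add_apply, map_add]
  | single k r =>
    funext n
    rw [sh_single, act_single, BB_apply, BB_apply, act_single, map_smul, Pi.add_apply]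
    have h1 : (Nat.casesOn 0 0 (fun j => k j) : ℤ) = 0 := rfl
    have h2 : tl (n + fun j => (Nat.casesOn j 0 (fun j => k j) : ℤ)) = tl n + k := rfl
    rw [h1, h2, add_zero]

/-- The square of the difference on a pair. -/
lemma act_pair_two (i : α) (f : G ℤ → O) (n : G ℤ) :
    act O ((D 0 1 : K F ℤ) ^ 2) (P.BB i (P.BB i f)) n =
      ((2 * P.w i * (1 - P.w i) : ℤ) : O) * (P.u i (n 0) * P.u i (n 1) * f (tl (tl n))) := by
  rw [act_D2]
  simp only [BB_apply]
  have e0 : ∀ m : G ℤ, (m + dl 0 : G ℤ) 0 = m 0 + 1 := add_dl_zero_zero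
  have e1 : ∀ m : G ℤ, (m + dl 1 : G ℤ) 0 = m 0 := fun m => add_dl_succ_zero m 0
  have e2 : ∀ m : G ℤ, tl (m + dl 0) = tl m := tl_add_dl_zero
  have e3 : ∀ m : G ℤ, tl (m + dl 1) = tl m + dl 0 := fun m => tl_add_dl m 0
  simp only [e0, e1, e2, e3]
  have e4 : tl n 0 = n 1 := rfl
  rw [e4]
  simp only [B_succ, map_add, B_mul, B_apply, P.pz, if_true, u_succ, Derivation.leibniz,
    smul_eq_mul, Derivation.map_intCast, two_smul, mul_add]
  push_cast
  ring

lemma act_pair_one (i : α) (hi : P.w i = 0) (f : G ℤ → O) (n : G ℤ) :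
    act O (D 0 1 : K F ℤ) (P.BB i (P.BB i f)) n =
      - (P.u i (n 0) * P.u i (n 1) * P.p i (f (tl (tl n)))) := by
  rw [act_D]
  simp only [BB_apply]
  have e0 : ∀ m : G ℤ, (m + dl 0 : G ℤ) 0 = m 0 + 1 := add_dl_zero_zero
  have e1 : ∀ m : G ℤ, (m + dl 1 : G ℤ) 0 = m 0 := fun m => add_dl_succ_zero m 0
  have e2 : ∀ m : G ℤ, tl (m + dl 0) = tl m := tl_add_dl_zero
  have e3 : ∀ m : G ℤ, tl (m + dl 1) = tl m + dl 0 := fun m => tl_add_dl m 0
  simp only [e0, e1, e2, e3]
  have e4 : tl n 0 = n 1 := rfl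
  rw [e4]
  simp only [B_apply, hi, P.pz, if_true, u_succ, Derivation.leibniz, smul_eq_mul, Int.cast_zero,
    zero_mul, add_zero, mul_one]
  ring

end Loc

end

end Run7.h143
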