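import Pool.Agent.Run7.h143.Word

/-!
The main computation with words of local operators.
-/

set_option autoImplicit false
set_option linter.unusedSectionVars false
set_option linter.unusedSimpArgs false

namespace Run7.h143

open AddMonoidAlgebra Pool.Agent.R693.W

namespace Loc

variable {F : Type*} [Field F] {α : Type} [DecidableEq α] [Fintype α] {O : Type*} [CommRing O]
  [Algebra F O] (P : Loc F α O)

/-- The total operator. -/
noncomputable def At (m : ℤ) : O →ₗ[F] O := ∑ i, P.B i m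

/-- The total operator at the first label. -/
noncomputable def AA : (G ℤ → O) →ₗ[F] (G ℤ → O) := ∑ i, P.BB i

lemma AA_apply (f : G ℤ → O) (n : G ℤ) : P.AA f n = P.At (n 0) (f (tl n)) := by
  unfold AA At
  rw [LinearMap.sum_apply, LinearMap.sum_apply, Finset.sum_apply]
  rfl

/-- The words in the total operator. -/
noncomputable def Ps : ℕ → O → G ℤ → O
  | 0, v => fun _ => v
  | κ + 1, v => P.AA (P.AA (Ps κ v))

lemma Ps_eq (κ : ℕ) (v : O) : P.Ps κ v = ∑ c : Fin κ → α × α, P.Ph κ c v := by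
  induction κ with
  | zero => simp [Ps, Ph]
  | succ κ ih =>
    have h1 : ∑ c : Fin (κ + 1) → α × α, P.Ph (κ + 1) c v =
        ∑ q : (α × α) × (Fin κ → α × α), P.BB q.1.1 (P.BB q.1.2 (P.Ph κ q.2 v)) := by
      symm
      apply Fintype.sum_equiv (Fin.consEquiv (fun _ : Fin (κ + 1) => α × α))
      rintro ⟨q, c⟩
      rfl
    rw [h1, Fintype.sum_prod_type, Fintype.sum_prod_type]
    change P.AA (P.AA (P.Ps κ v)) = _
    rw [ih]
    unfold AA
    rw [LinearMap.sum_apply]
    apply Finset.sum_congr rfl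
    intro i _
    rw [LinearMap.sum_apply, map_sum]
    apply Finset.sum_congr rfl
    intro j _
    rw [map_sum, map_sum]

/-- The local constants. -/
def cc (i : α) : ℤ := if P.w i = 0 then -1 else 2 * P.w i * (1 - P.w i)

/-- The local part of the differential operator. -/
noncomputable def Dl (i : α) : Module.End F O := if P.w i = 0 then (P.p i : O →ₗ[F] O) else 1

lemma Dl_mul {i : α} {a : O} (ha : P.p i a = 0) (v : O) : P.Dl i (a * v) = a * P.Dl i v := by
  unfold Dl
  split_ifs
  · rw [Derivation.coeFn_coe, Derivation.leibniz, ha, smul_zero, add_zero, smul_eq_mul]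
  · rfl

lemma Dl_comm (i j : α) : Commute (P.Dl i) (P.Dl j) := by
  unfold Dl
  split_ifs
  · ext v
    exact P.pp i j v
  · exact Commute.one_right _
  · exact Commute.one_left _
  · exact Commute.one_left _

/-- The product of the local parts. -/
noncomputable def ws {κ : ℕ} (φ : Fin κ → α) : Module.End F O :=
  (List.ofFn (fun a => P.Dl (φ a))).prod

lemma ws_succ {κ : ℕ} (φ : Fin (κ + 1) → α) (v : O) :
    P.ws φ v = P.Dl (φ 0) (P.ws (fun a => φ a.succ) v) := by
  unfold ws
  rw [List.ofFn_succ, List.prod_cons]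
  rfl

/-- The product of the differences on pairs. -/
noncomputable def Dd {κ : ℕ} (e : Fin κ → ℕ) : K F ℤ :=
  ∏ a : Fin κ, (D (2 * a) (2 * a + 1) : K F ℤ) ^ e a

lemma Dd_succ {κ : ℕ} (e : Fin (κ + 1) → ℕ) :
    (Dd e : K F ℤ) = (D 0 1 : K F ℤ) ^ e 0 * sh (sh (Dd fun a => e a.succ)) := by
  unfold Dd
  rw [Fin.prod_univ_succ, map_prod, map_prod]
  congr 1
  apply Finset.prod_congr rfl
  intro a _
  rw [map_pow, map_pow, sh_D, sh_D]
  rfl

/-- The first stage of the computation. -/
lemma stage1 {κ : ℕ} (φ : Fin κ → α) (hφ : Function.Injective φ) (e : Fin κ → ℕ)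
    (he : ∀ a, e a = if P.w (φ a) = 0 then 1 else 2) (v : O) (n : G ℤ) :
    act O (Dd e : K F ℤ) (P.Ph κ (fun a => (φ a, φ a)) v) n =
      (∏ a : Fin κ, ((P.cc (φ a) : O) * (P.u (φ a) (n (2 * a)) * P.u (φ a) (n (2 * a + 1))))) *
        P.ws φ v := by
  induction κ generalizing n with
  | zero =>
    simp [Dd, Ph, ws]
  | succ κ ih =>
    rw [Dd_succ, act_mul]
    simp only [Ph]
    rw [act_sh, act_sh]
    have h1 : act O (Dd (fun a => e a.succ) : K F ℤ) (P.Ph κ (fun a => (φ a.succ, φ a.succ)) v) =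
        fun n => (∏ a : Fin κ, ((P.cc (φ a.succ) : O) * (P.u (φ a.succ) (n (2 * a)) *
          P.u (φ a.succ) (n (2 * a + 1))))) * P.ws (fun a => φ a.succ) v := by
      funext n
      exact ih (fun a => φ a.succ) (hφ.comp (Fin.succ_injective κ)) _ (fun a => he a.succ) n
    rw [h1, he 0, Fin.prod_univ_succ, ws_succ]
    have h2 : ∀ n : G ℤ, ∀ a : Fin κ, tl (tl n) (2 * a) = n (2 * ((a.succ : Fin (κ + 1)) : ℕ)) :=
      fun n a => rfl
    have h3 : ∀ n : G ℤ, ∀ a : Fin κ, tl (tl n) (2 * a + 1) =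
        n (2 * ((a.succ : Fin (κ + 1)) : ℕ) + 1) := fun n a => rfl
    by_cases hw : P.w (φ 0) = 0
    · rw [if_pos hw, pow_one, act_pair_one _ _ hw]
      have h4 : P.cc (φ 0) = -1 := if_pos hw
      have h5 : P.Dl (φ 0) = (P.p (φ 0) : O →ₗ[F] O) := if_pos hw
      rw [h4, h5, Derivation.leibniz]
      have h6 : P.p (φ 0) (∏ a : Fin κ, ((P.cc (φ a.succ) : O) * (P.u (φ a.succ) (tl (tl n) (2 * a)) *
          P.u (φ a.succ) (tl (tl n) (2 * a + 1))))) = 0 := by
        rw [der_prod]
        apply Finset.sum_eq_zero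
        intro a _
        have hne : φ 0 ≠ φ a.succ := fun h => (Fin.succ_ne_zero a) (hφ h).symm
        rw [Derivation.leibniz, Derivation.leibniz, P.p_u _ _ hne, P.p_u _ _ hne,
          Derivation.map_intCast]
        simp
      rw [h6, smul_zero, add_zero, smul_eq_mul]
      simp only [h2, h3]
      simp only [Fin.val_zero, mul_zero, zero_add, Int.cast_neg, Int.cast_one, Derivation.coeFn_coe]
      ring
    · rw [if_neg hw, act_pair_two]
      have h4 : P.cc (φ 0) = 2 * P.w (φ 0) * (1 - P.w (φ 0)) := if_neg hw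
      have h5 : P.Dl (φ 0) = 1 := if_neg hw
      rw [h4, h5, Module.End.one_apply]
      simp only [h2, h3]
      simp only [Fin.val_zero, mul_zero, zero_add]
      ring

lemma stage1_zero {κ : ℕ} (c : Fin κ → α × α) (a : Fin κ) (i : α) (hc : c a = (i, i))
    (hi : P.w i = 0) (v : O) :
    act O ((D (2 * a) (2 * a + 1) : K F ℤ) ^ 2) (P.Ph κ c v) = 0 := by
  induction κ with
  | zero => exact a.elim0
  | succ κ ih =>
    revert hc
    refine Fin.cases (fun hc => ?_) (fun a hc => ?_) a
    · funext n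
      simp only [Ph, hc, Fin.val_zero, mul_zero, zero_add]
      rw [act_pair_two, hi]
      simp
    · have h1 : ((D (2 * ((a.succ : Fin (κ + 1)) : ℕ)) (2 * ((a.succ : Fin (κ + 1)) : ℕ) + 1) : K F ℤ)) =
          sh (sh (D (2 * (a : ℕ)) (2 * a + 1))) := by
        rw [sh_D, sh_D]
        rfl
      rw [h1, ← map_pow, ← map_pow]
      simp only [Ph]
      rw [act_sh, act_sh, ih (fun i => c i.succ) a hc, map_zero, map_zero]

/-- The evaluation on labels. -/
noncomputable def evp {κ : ℕ} (φ : Fin κ → α) : K F ℤ →ₐ[F] O :=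
  AddMonoidAlgebra.lift F O (G ℤ)
    { toFun := fun n => ((∏ a : Fin κ, (P.z (φ a) ^ (n.toAdd (2 * a) + n.toAdd (2 * a + 1))) : Oˣ) : O)
      map_one' := by simp
      map_mul' := by
        intro m n
        rw [← Units.val_mul, ← Finset.prod_mul_distrib]
        congr 1
        apply Finset.prod_congr rfl
        intro a _
        rw [← zpow_add]
        congr 1
        simp only [toAdd_mul, Pi.add_apply]
        ring }

lemma evp_single {κ : ℕ} (φ : Fin κ → α) (n : G ℤ) (r : F) : P.evp φ (single n r) =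
    algebraMap F O r * ((∏ a : Fin κ, (P.z (φ a) ^ (n (2 * a) + n (2 * a + 1))) : Oˣ) : O) := by
  unfold evp
  rw [AddMonoidAlgebra.lift_single, Algebra.smul_def]
  rfl

lemma evp_X0 {κ : ℕ} (φ : Fin κ → α) (a : Fin κ) : P.evp φ (X (2 * a)) = P.z (φ a) := by
  unfold X
  rw [evp_single, map_one, one_mul, Finset.prod_eq_single a]
  · rw [dl_self, dl_ne (by omega), add_zero]
    change ((P.z (φ a) ^ (1 : ℤ) : Oˣ) : O) = _
    rw [zpow_one]
  · intro b _ hb
    have hb' : (b : ℕ) ≠ a := fun h => hb (Fin.ext h)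
    rw [dl_ne (by omega), dl_ne (by omega), add_zero, zpow_zero]
  · simp

lemma evp_X1 {κ : ℕ} (φ : Fin κ → α) (a : Fin κ) : P.evp φ (X (2 * a + 1)) = P.z (φ a) := by
  unfold X
  rw [evp_single, map_one, one_mul, Finset.prod_eq_single a]
  · rw [dl_self, dl_ne (by omega), zero_add]
    change ((P.z (φ a) ^ (1 : ℤ) : Oˣ) : O) = _
    rw [zpow_one]
  · intro b _ hb
    have hb' : (b : ℕ) ≠ a := fun h => hb (Fin.ext h)
    rw [dl_ne (by omega), dl_ne (by omega), add_zero, zpow_zero]
  · simp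

/-- The second stage of the computation. -/
lemma stage2 {κ : ℕ} (φ : Fin κ → α) (y : Fin κ → O) (v : O) (q : K F ℤ) (n : G ℤ) :
    act O q (fun n : G ℤ => (∏ a : Fin κ, (y a * (P.u (φ a) (n (2 * a)) *
      P.u (φ a) (n (2 * a + 1))))) * v) n =
    P.evp φ q * ((∏ a : Fin κ, (y a * (P.u (φ a) (n (2 * a)) * P.u (φ a) (n (2 * a + 1))))) * v) := by
  induction q using AddMonoidAlgebra.induction_linear generalizing n with
  | zero => simp
  | add p q hp hq =>
    rw [map_add, LinearMap.add_apply, Pi.add_apply, hp, hq, map_add, add_mul]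
  | single k r =>
    have key : (∏ a : Fin κ, (y a * (P.u (φ a) ((n + k : G ℤ) (2 * a)) *
        P.u (φ a) ((n + k : G ℤ) (2 * a + 1))))) =
        ((∏ a : Fin κ, (P.z (φ a) ^ (k (2 * a) + k (2 * a + 1))) : Oˣ) : O) *
        ∏ a : Fin κ, (y a * (P.u (φ a) (n (2 * a)) * P.u (φ a) (n (2 * a + 1)))) := by
      rw [Units.coe_prod, ← Finset.prod_mul_distrib]
      apply Finset.prod_congr rfl
      intro a _
      unfold u
      rw [Pi.add_apply, Pi.add_apply, zpow_add, zpow_add, zpow_add, Units.val_mul, Units.val_mul,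
        Units.val_mul]
      ring
    rw [act_single, evp_single, Algebra.smul_def, key]
    ring

/-- The unit version of the shifts. -/
noncomputable def Xu (a : ℕ) : (K F ℤ)ˣ where
  val := X a
  inv := single (- dl a) 1
  val_inv := by unfold X; rw [single_mul_single, add_neg_cancel, one_mul]; rfl
  inv_val := by unfold X; rw [single_mul_single, neg_add_cancel, one_mul]; rfl

lemma evp_D00 {κ : ℕ} (φ : Fin κ → α) (a b : Fin κ) :
    P.evp φ (D (2 * a) (2 * b)) = (P.z (φ a) : O) - P.z (φ b) := by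
  unfold D; rw [map_sub, evp_X0, evp_X0]

lemma evp_D01 {κ : ℕ} (φ : Fin κ → α) (a b : Fin κ) :
    P.evp φ (D (2 * a) (2 * b + 1)) = (P.z (φ a) : O) - P.z (φ b) := by
  unfold D; rw [map_sub, evp_X0, evp_X1]

lemma evp_D10 {κ : ℕ} (φ : Fin κ → α) (a b : Fin κ) :
    P.evp φ (D (2 * a + 1) (2 * b)) = (P.z (φ a) : O) - P.z (φ b) := by
  unfold D; rw [map_sub, evp_X1, evp_X0]

lemma evp_D11 {κ : ℕ} (φ : Fin κ → α) (a b : Fin κ) :
    P.evp φ (D (2 * a + 1) (2 * b + 1)) = (P.z (φ a) : O) - P.z (φ b) := by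
  unfold D; rw [map_sub, evp_X1, evp_X1]

/-- The multiplier separating the pairs. -/
noncomputable def Vn (κ : ℕ) : K F ℤ :=
  ∏ q ∈ (Finset.univ : Finset (Fin κ)).offDiag,
    ((D (2 * q.1) (2 * q.2) : K F ℤ) * D (2 * q.1) (2 * q.2 + 1) * D (2 * q.1 + 1) (2 * q.2) *
      D (2 * q.1 + 1) (2 * q.2 + 1)) ^ (2 * (2 * κ + 1))

lemma dvd_Vn (κ : ℕ) (a b : Fin κ) (hab : a ≠ b) (s t : ℕ) (hs : s < 2) (ht : t < 2) :
    (D (2 * a + s) (2 * b + t) : K F ℤ) ^ (2 * (2 * κ + 1)) ∣ Vn κ := by
  have h1 : ((D (2 * a) (2 * b) : K F ℤ) * D (2 * a) (2 * b + 1) * D (2 * a + 1) (2 * b) *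
      D (2 * a + 1) (2 * b + 1)) ^ (2 * (2 * κ + 1)) ∣ Vn κ :=
    Finset.dvd_prod_of_mem (fun q : Fin κ × Fin κ => ((D (2 * q.1) (2 * q.2) : K F ℤ) *
      D (2 * q.1) (2 * q.2 + 1) * D (2 * q.1 + 1) (2 * q.2) *
      D (2 * q.1 + 1) (2 * q.2 + 1)) ^ (2 * (2 * κ + 1))) (a := (a, b))
      (Finset.mem_offDiag.mpr ⟨Finset.mem_univ _, Finset.mem_univ _, hab⟩)
  refine dvd_trans (pow_dvd_pow_of_dvd ?_ _) h1
  interval_cases s <;> interval_cases t
  · exact dvd_mul_of_dvd_left (dvd_mul_of_dvd_left (dvd_mul_right _ _) _) _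
  · exact dvd_mul_of_dvd_left (dvd_mul_of_dvd_left (dvd_mul_left _ _) _) _
  · exact dvd_mul_of_dvd_left (dvd_mul_left _ _) _
  · exact dvd_mul_left _ _

lemma evp_Vn {κ : ℕ} (φ : Fin κ ≃ α) : P.evp φ (Vn κ) =
    ∏ q ∈ (Finset.univ : Finset α).offDiag, ((P.z q.1 : O) - P.z q.2) ^ (8 * (2 * κ + 1)) := by
  unfold Vn
  rw [map_prod]
  apply Finset.prod_nbij' (fun q => (φ q.1, φ q.2)) (fun q => (φ.symm q.1, φ.symm q.2))
  · rintro ⟨a, b⟩ h
    rw [Finset.mem_offDiag] at h ⊢
    exact ⟨Finset.mem_univ _, Finset.mem_univ _, fun h' => h.2.2 (φ.injective h')⟩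
  · rintro ⟨a, b⟩ h
    rw [Finset.mem_offDiag] at h ⊢
    exact ⟨Finset.mem_univ _, Finset.mem_univ _, fun h' => h.2.2 (φ.symm.injective h')⟩
  · intro q _; simp
  · intro q _; simp
  · rintro ⟨a, b⟩ _
    rw [map_pow, map_mul, map_mul, map_mul, evp_D00, evp_D01, evp_D10, evp_D11]
    rw [show 8 * (2 * κ + 1) = 4 * (2 * (2 * κ + 1)) by ring, pow_mul _ 4]
    congr 1
    ring

/-- The permutations preserving the points of weight zero. -/
noncomputable def Gp : Finset (Equiv.Perm α) := by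
  classical
  exact Finset.univ.filter (fun σ => ∀ i, P.w (σ i) = 0 ↔ P.w i = 0)

lemma mem_Gp {σ : Equiv.Perm α} : σ ∈ P.Gp ↔ ∀ i, P.w (σ i) = 0 ↔ P.w i = 0 := by
  unfold Gp
  rw [Finset.mem_filter]
  exact ⟨fun h => h.2, fun h => ⟨Finset.mem_univ _, h⟩⟩

/-- The result of the computation. -/
theorem word_main [CharZero F] {κ : ℕ} (e0 : Fin κ ≃ α) (hw : ∀ i, P.w i ≠ 1) (S : LP F α) (v : O) :
      (∑ σ ∈ P.Gp, lf (algebraMap F O) (fun i => P.z (σ i)) S) * (∏ i, P.ε i ^ 2) *
        (∏ q ∈ (Finset.univ : Finset α).offDiag, ((P.z q.1 : O) - P.z q.2) ^ (8 * (2 * κ + 1))) *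
        ((∏ i, if P.w i = 0 then (P.z i : O) else 1) * P.ws e0 v) ∈
        Submodule.span F (Set.range (P.Ps κ v)) := by
  classical
  have hC : (∏ i, (P.cc i : F)) ≠ 0 := by
    rw [Finset.prod_ne_zero_iff]
    intro i _
    unfold cc
    split_ifs with h
    · simp
    · rw [Int.cast_ne_zero]
      have h1 := hw i
      have h2 : (1 - P.w i) ≠ 0 := by omega
      exact mul_ne_zero (mul_ne_zero two_ne_zero h) h2
  rw [← Submodule.smul_mem_iff _ hC]
  -- the polynomial
  let e : Fin κ → ℕ := fun a => if P.w (e0 a) = 0 then 1 else 2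
  let lam : LP F α →+* K F ℤ := lf (algebraMap F (K F ℤ)) (fun i => Xu (2 * (e0.symm i)))
  let XZ : K F ℤ := ∏ a : Fin κ, if P.w (e0 a) = 0 then X (2 * a) else 1
  let Q : K F ℤ := lam S * XZ * Vn κ
  let H : K F ℤ := Q * Dd e
  have hmem : act O H (P.Ps κ v) 0 ∈ Submodule.span F (Set.range (P.Ps κ v)) :=
    act_mem _ H _ (fun n => Submodule.subset_span (Set.mem_range_self n)) 0
  let cs : Equiv.Perm α → Fin κ → α × α := fun σ a => (σ (e0 a), σ (e0 a))
  suffices hsum : act O H (P.Ps κ v) 0 = (∏ i, (P.cc i : F)) •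
      ((∑ σ ∈ P.Gp, lf (algebraMap F O) (fun i => P.z (σ i)) S) * (∏ i, P.ε i ^ 2) *
        (∏ q ∈ (Finset.univ : Finset α).offDiag, ((P.z q.1 : O) - P.z q.2) ^ (8 * (2 * κ + 1))) *
        ((∏ i, if P.w i = 0 then (P.z i : O) else 1) * P.ws e0 v)) by
    rw [← hsum]; exact hmem
  rw [Ps_eq, map_sum, Finset.sum_apply]
  -- assignments which are not relevant
  have hzero : ∀ c : Fin κ → α × α, c ∉ cs '' (P.Gp : Set (Equiv.Perm α)) →
      act O H (P.Ph κ c v) 0 = 0 := by
    intro c hcc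
    by_cases hgood : (Function.Injective fun a => (c a).1) ∧ ∀ a b, a ≠ b → (c a).1 ≠ (c b).2
    swap
    · rw [P.Ph_bad κ c v H ?_ hgood, Pi.zero_apply]
      intro a b hab s t hs ht
      exact dvd_mul_of_dvd_left (dvd_mul_of_dvd_right (dvd_Vn κ a b hab s t hs ht) _) _
    obtain ⟨hinj, hdis⟩ := hgood
    have hcard : Fintype.card (Fin κ) = Fintype.card α := Fintype.card_congr e0
    have hbij : Function.Bijective fun a => (c a).1 :=
      (Fintype.bijective_iff_injective_and_card _).mpr ⟨hinj, hcard⟩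
    let φ : Fin κ ≃ α := Equiv.ofBijective _ hbij
    have hc : ∀ a, c a = (φ a, φ a) := by
      intro a
      obtain ⟨b, hb⟩ := hbij.2 (c a).2
      have hb' : (c b).1 = (c a).2 := hb
      have hba : b = a := by
        by_contra hne
        exact hdis b a hne hb'
      rw [hba] at hb'
      exact Prod.ext rfl hb'.symm
    by_cases hB : ∀ a, P.w (φ a) = 0 → P.w (e0 a) = 0
    swap
    · push Not at hB
      obtain ⟨a, ha1, ha2⟩ := hB
      have hea : e a = 2 := if_neg ha2
      have h4 : (Dd e : K F ℤ) = (D (2 * a) (2 * a + 1) : K F ℤ) ^ 2 *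
          ∏ b ∈ Finset.univ.erase a, (D (2 * b) (2 * b + 1) : K F ℤ) ^ e b := by
        unfold Dd
        rw [← Finset.mul_prod_erase _ _ (Finset.mem_univ a), hea]
      have h5 : H = (Q * ∏ b ∈ Finset.univ.erase a, (D (2 * b) (2 * b + 1) : K F ℤ) ^ e b) *
          (D (2 * a) (2 * a + 1) : K F ℤ) ^ 2 := by
        change Q * Dd e = _
        rw [h4]; ring
      rw [h5, act_mul, P.stage1_zero c a (φ a) (hc a) ha1, map_zero, Pi.zero_apply]
    · -- the weights match, contradiction
      exfalso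
      apply hcc
      have hcount : (Finset.univ.filter (fun a => P.w (φ a) = 0)) =
          Finset.univ.filter (fun a => P.w (e0 a) = 0) := by
        apply Finset.eq_of_subset_of_card_le
        · intro a ha
          rw [Finset.mem_filter] at ha ⊢
          exact ⟨ha.1, hB a ha.2⟩
        · apply le_of_eq
          rw [Finset.card_filter, Finset.card_filter]
          exact (Equiv.sum_comp e0 (fun i => if P.w i = 0 then 1 else 0)).trans
            (Equiv.sum_comp φ (fun i => if P.w i = 0 then 1 else 0)).symm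
      have hiff : ∀ a, P.w (φ a) = 0 ↔ P.w (e0 a) = 0 := by
        intro a
        have := Finset.ext_iff.mp hcount a
        simpa using this
      refine ⟨e0.symm.trans φ, ?_, ?_⟩
      · rw [SetLike.mem_coe, mem_Gp]
        intro i
        have := hiff (e0.symm i)
        rw [Equiv.apply_symm_apply] at this
        exact this
      · funext a
        rw [hc a]
        simp [cs]
  have hval : ∀ σ ∈ P.Gp, (∏ i, (P.cc i : F)) • (lf (algebraMap F O) (fun i => P.z (σ i)) S *
        (∏ i, P.ε i ^ 2) *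
        (∏ q ∈ (Finset.univ : Finset α).offDiag, ((P.z q.1 : O) - P.z q.2) ^ (8 * (2 * κ + 1))) *
        ((∏ i, if P.w i = 0 then (P.z i : O) else 1) * P.ws e0 v)) =
      act O H (P.Ph κ (cs σ) v) 0 := by
    intro σ hσ
    rw [mem_Gp] at hσ
    let φ : Fin κ ≃ α := e0.trans σ
    have hiff : ∀ a, P.w (φ a) = 0 ↔ P.w (e0 a) = 0 := fun a => hσ (e0 a)
    change _ = act O (Q * Dd e) (P.Ph κ (fun a => (φ a, φ a)) v) 0
    rw [act_mul]
    have h1 : act O (Dd e : K F ℤ) (P.Ph κ (fun a => (φ a, φ a)) v) =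
        fun n => (∏ a : Fin κ, ((P.cc (φ a) : O) * (P.u (φ a) (n (2 * a)) *
          P.u (φ a) (n (2 * a + 1))))) * P.ws φ v := by
      funext n
      apply P.stage1 φ φ.injective e
      intro a
      change (if P.w (e0 a) = 0 then 1 else 2) = _
      by_cases h : P.w (φ a) = 0
      · rw [if_pos h, if_pos ((hiff a).mp h)]
      · rw [if_neg h, if_neg (fun h' => h ((hiff a).mpr h'))]
    rw [h1, P.stage2]
    -- evaluate
    have h2 : P.evp φ (lam S) = lf (algebraMap F O) (fun i => P.z (σ i)) S := by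
      have h3 : (P.evp φ : K F ℤ →+* O).comp lam =
          lf (algebraMap F O) (fun i => P.z (σ i)) := by
        apply hom_ext
        · intro b
          rw [RingHom.comp_apply]
          change P.evp φ (lf _ _ _) = _
          rw [lf_C, lf_C, AlgHom.commutes]
        · intro i
          rw [RingHom.comp_apply]
          change P.evp φ (lf _ _ _) = _
          rw [lf_Z, lf_Z]
          change P.evp φ (X (2 * (e0.symm i))) = _
          rw [evp_X0]
          change ((P.z (σ (e0 (e0.symm i))) : Oˣ) : O) = _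
          rw [Equiv.apply_symm_apply]
      have h4 := RingHom.congr_fun h3 S
      rw [RingHom.comp_apply] at h4
      exact h4
    have h3 : P.evp φ XZ = ∏ i, if P.w i = 0 then (P.z i : O) else 1 := by
      rw [← Equiv.prod_comp φ, map_prod]
      apply Finset.prod_congr rfl
      intro a _
      by_cases h : P.w (φ a) = 0
      · rw [if_pos h, if_pos ((hiff a).mp h), evp_X0]
      · rw [if_neg h, if_neg (fun h' => h ((hiff a).mpr h')), map_one]
    have h4 : P.ws φ v = P.ws e0 v := by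
      have h5 : P.ws φ = P.ws e0 := by
        unfold ws
        apply List.Perm.prod_eq'
        · have e1 : List.ofFn (fun a => P.Dl (φ a)) = (List.ofFn φ).map P.Dl := by
            rw [List.map_ofFn]; rfl
          have e2 : List.ofFn (fun a => P.Dl (e0 a)) = (List.ofFn e0).map P.Dl := by
            rw [List.map_ofFn]; rfl
          rw [e1, e2]
          apply List.Perm.map
          rw [List.perm_ext_iff_of_nodup (List.nodup_ofFn.mpr φ.injective)
            (List.nodup_ofFn.mpr e0.injective)]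
          intro i
          rw [List.mem_ofFn, List.mem_ofFn]
          exact ⟨fun _ => e0.surjective i, fun _ => φ.surjective i⟩
        · rw [List.pairwise_ofFn]
          intro i j _
          exact P.Dl_comm _ _
      rw [h5]
    have h5 : ∀ i, P.u i ((0 : G ℤ) 0) = P.ε i := by
      intro i
      unfold u
      rw [Pi.zero_apply, zpow_zero, Units.val_one, mul_one]
    have h6 : (∏ a : Fin κ, ((P.cc (φ a) : O) * (P.u (φ a) ((0 : G ℤ) (2 * a)) *
          P.u (φ a) ((0 : G ℤ) (2 * a + 1))))) = algebraMap F O (∏ i, (P.cc i : F)) *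
            ∏ i, P.ε i ^ 2 := by
      rw [map_prod, ← Finset.prod_mul_distrib, ← Equiv.prod_comp φ]
      apply Finset.prod_congr rfl
      intro a _
      have e1 : ∀ k, P.u (φ a) ((0 : G ℤ) k) = P.ε (φ a) := fun k => h5 (φ a)
      rw [e1, e1, map_intCast]
      ring
    rw [map_mul, map_mul, h2, h3, P.evp_Vn φ, h4, h6, Algebra.smul_def]
    ring
  rw [Finset.sum_mul, Finset.sum_mul, Finset.sum_mul, Finset.smul_sum]
  symm
  apply Finset.sum_of_injOn cs
  · intro σ _ τ _ h
    ext i
    have h1 := congrFun h (e0.symm i)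
    simp only [cs, Equiv.apply_symm_apply, Prod.mk.injEq, and_self] at h1
    exact h1
  · intro σ _
    exact Finset.mem_coe.mpr (Finset.mem_univ _)
  · intro c _ hc
    exact hzero c hc
  · exact hval

end Loc

end Run7.h143
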