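import Pool.Agent.Run7.h143.Zero

/-!
The multiplier, the differential operator and the algebra of symmetric multipliers.
-/

set_option autoImplicit false
set_option linter.unusedSectionVars false
set_option linter.unusedSimpArgs false

namespace Run7.h143

open AddMonoidAlgebra Pool.Agent.R693.W

/-- Homomorphisms compatible with derivations. -/
lemma lf_der {F : Type*} [Field F] {B : Type*} [CommRing B] [Algebra F B] {C : Type*} [CommRing C]
    [Algebra F C] {κ : Type} [Fintype κ] [DecidableEq κ] (f : B →+* C) (u : κ → Cˣ)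
    (dB : ℤ → Derivation F B B) (dC : Derivation F C C) (l : ℤ) (hf : ∀ b, dC (f b) = f (dB l b))
    (hu : ∀ a, dC (u a : C) = ((u a ^ l : Cˣ) : C)) (S : LP B κ) :
    dC (lf f u S) = lf f u (dd dB l S) := by
  induction S using LP_induction with
  | hC b => rw [lf_C, hf, dd_C, lf_C]
  | hZ i => rw [lf_Z, hu, dd_Z, lf_Zz]
  | hZi i =>
    have h1 : lf f u (((Z i)⁻¹ : (LP B κ)ˣ) : LP B κ) = (((u i)⁻¹ : Cˣ) : C) := by
      have := lf_Zz f u i (-1)
      rwa [zpow_neg_one, zpow_neg_one] at this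
    rw [h1, der_inv, der_inv, map_neg, map_mul, map_mul, h1, dd_Z, lf_Zz, hu]
  | hadd p q hp hq => rw [map_add, map_add, hp, hq, map_add, map_add]
  | hmul p q hp hq =>
    rw [map_mul, Derivation.leibniz, hp, hq, Derivation.leibniz, smul_eq_mul, smul_eq_mul,
      smul_eq_mul, smul_eq_mul, map_add, map_mul, map_mul]

namespace Zd

variable {F : Type*} [Field F] {ι : Type} [DecidableEq ι] [Fintype ι] {O : Type*} [CommRing O]
  [Algebra F O] {s : Sys F ι O} {ν : ℕ} {ζ : Fin ν → ι} {α : Type} [DecidableEq α] [Fintype α]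
  (A : Zd s ζ α)

/-- The algebra of multipliers. -/
noncomputable def G0 : Subalgebra F O := GG (DD s ν) A.p

lemma p_d (a : α) (l : ℤ) (v : O) : A.p a (s.d l v) = s.d l (A.p a v) +
    ((l : O) * ((s.z (A.j a) ^ (l - 1) : Oˣ) : O)) * A.p a v := by
  have h : ⁅A.p a, s.d l⁆ = ((l : O) * ((s.z (A.j a) ^ (l - 1) : Oˣ) : O)) • A.p a := by
    apply A.ext
    · intro m
      rw [Derivation.commutator_apply, s.dx, Derivation.smul_apply, A.px, smul_zero, map_zero,
        sub_zero, Derivation.leibniz, A.px, Derivation.map_intCast, smul_zero, smul_zero, add_zero]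
    · intro i
      rw [Derivation.commutator_apply, s.dz, Derivation.smul_apply, der_zpow, A.pz]
      split_ifs with h
      · rw [h]; simp
      · simp
  have h1 := congrArg (fun D : Derivation F O O => D v) h
  simp only [Derivation.commutator_apply, Derivation.smul_apply, smul_eq_mul] at h1
  exact sub_eq_iff_eq_add'.mp h1

lemma G0_d (l : ℤ) {g : O} (hg : g ∈ A.G0) : s.d l g ∈ A.G0 :=
  GG_d s A.p _ (fun i l v => A.p_d i l v) l hg

lemma G0_x (m : ℤ) : s.x m ∈ A.G0 := GG_x s A.p A.px m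

/-- The good multiplier. -/
noncomputable def hh (s : Sys F ι O) (ζ : Fin ν → ι) : O :=
  ∏ t, xf s.x (ch (fun t => s.z (ζ t)) (Finset.univ.erase t))

lemma hh_mul [Nontrivial O] {g : O} (hg : g ∈ A.G0) : hh s ζ * g ∈ Sb s := GG_mul_mem s ζ A.p A.kill hg

lemma Sb_le : Sb s ≤ A.G0 := by
  unfold Sb
  rw [Algebra.adjoin_le_iff]
  rintro _ ⟨m, rfl⟩
  exact A.G0_x m

include A in
lemma hh_Sb [Nontrivial O] : hh s ζ ∈ Sb s := by
  have := A.hh_mul (Subalgebra.one_mem A.G0)
  rwa [mul_one] at this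

lemma p_G0 (a : α) {g : O} (hg : g ∈ A.G0) : A.p a g = 0 := hg.2 a

lemma chi_lift [CharZero F] [Nontrivial O] :
    ∃ q : LP A.G0 Unit, mp (algebraMap A.G0 O) q = chi s ζ := by
  refine ⟨∑ k : Fin (ν + 1), single 0 ⟨(cp (fun t => s.z (ζ t)) Finset.univ).coeff k,
    GG_coeff s ζ A.p A.kill (fun a t => A.pzζ a t) k⟩ *
      ((yy ^ ((k : ℕ) : ℤ) : (LP A.G0 Unit)ˣ) : LP A.G0 Unit), ?_⟩
  unfold chi
  rw [map_sum, ← pe_cp, pe_eq_sum (n := ν + 1) (by rw [cp_natDegree]; simp)]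
  apply Finset.sum_congr rfl
  intro k _
  rw [map_mul, mp_single, mp_Zz]
  rfl

lemma Stab_Sb {γ : ℤ → O} {I : Submodule F O} (hI : Stab s γ I) {g : O} (hg : g ∈ Sb s) :
    ∀ v ∈ I, g * v ∈ I := by
  unfold Sb at hg
  induction hg using Algebra.adjoin_induction with
  | mem x hx =>
    obtain ⟨m, rfl⟩ := hx
    exact hI.hx m
  | algebraMap r =>
    intro v hv
    rw [← Algebra.smul_def]
    exact I.smul_mem r hv
  | add x y _ _ hx hy =>
    intro v hv
    rw [add_mul]
    exact I.add_mem (hx v hv) (hy v hv)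
  | mul x y _ _ hx hy =>
    intro v hv
    rw [mul_assoc]
    exact hx _ (hy v hv)

lemma hh_xf [Nontrivial O] {γ : ℤ → O} {I : Submodule F O} (hI : Stab s γ I) (q : LP A.G0 Unit)
    {v : O} (hv : v ∈ I) :
    hh s ζ * xf (fun l => s.d l v + γ l * v) (mp (algebraMap A.G0 O) q) ∈ I := by
  induction q using AddMonoidAlgebra.induction_linear with
  | zero => rw [map_zero, map_zero, mul_zero]; exact I.zero_mem
  | add p q hp hq => rw [map_add, map_add, mul_add]; exact I.add_mem hp hq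
  | single n g =>
    rw [mp_single, xf_single, ← mul_assoc]
    exact Stab_Sb hI (A.hh_mul g.2) _ (hI.hd _ v hv)

lemma hh_At [CharZero F] [Nontrivial O] {w : ι → ℤ} {I : Submodule F O}
    (hI : Stab s (wt s w) I) (m : ℤ) {v : O} (hv : v ∈ I) : hh s ζ * (A.loc w).At m v ∈ I := by
  obtain ⟨q, hq⟩ := A.chi_lift
  rw [A.At_eq]
  have h1 : qm s ζ m = mp (algebraMap A.G0 O) (q * (q * ((yy ^ m : (LP A.G0 Unit)ˣ) :
      LP A.G0 Unit))) := by
    rw [map_mul, map_mul, hq, mp_Zz]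
    rfl
  rw [h1]
  exact A.hh_xf hI _ hv

lemma At_mul (w : ι → ℤ) (m : ℤ) {g : O} (hg : g ∈ A.G0) (v : O) :
    (A.loc w).At m (g * v) = g * (A.loc w).At m v := by
  unfold Loc.At
  rw [LinearMap.sum_apply, LinearMap.sum_apply, Finset.mul_sum]
  apply Finset.sum_congr rfl
  intro a _
  rw [Loc.B_mul]
  have : (A.loc w).p a g = 0 := A.p_G0 a hg
  rw [this]
  ring

lemma hh_Ps [CharZero F] [Nontrivial O] {w : ι → ℤ} {I : Submodule F O}
    (hI : Stab s (wt s w) I) (κ : ℕ) {v : O} (hv : v ∈ I) (n : G ℤ) :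
    hh s ζ ^ (2 * κ) * (A.loc w).Ps κ v n ∈ I := by
  induction κ generalizing n with
  | zero => simpa [Loc.Ps] using hv
  | succ κ ih =>
    have hG : ∀ k, hh s ζ ^ k ∈ A.G0 := fun k => Subalgebra.pow_mem _ (A.Sb_le A.hh_Sb) k
    simp only [Loc.Ps]
    rw [Loc.AA_apply, Loc.AA_apply]
    have h1 := A.hh_At hI (n 0) (A.hh_At hI (Loc.tl n 0) (ih (Loc.tl (Loc.tl n))))
    rw [A.At_mul w _ (hG _), ← mul_assoc (hh s ζ), A.At_mul w _ (by
      rw [← pow_succ']; exact hG _)] at h1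
    rw [show 2 * (κ + 1) = 2 * κ + 1 + 1 by ring, pow_succ, pow_succ]
    convert h1 using 1
    ring

/-- The product of the scalars and differences. -/
noncomputable def cz (κ : ℕ) : O := (∏ a, A.eps a ^ 2) *
  ∏ q ∈ (Finset.univ : Finset α).offDiag, ((s.z (A.j q.1) : O) - s.z (A.j q.2)) ^ (8 * (2 * κ + 1))

/-- The differential operator. -/
noncomputable def Dz (w : ι → ℤ) {κ : ℕ} (e0 : Fin κ ≃ α) : O →ₗ[F] O :=
  LinearMap.mulLeft F (∏ a, if w (A.j a) = 0 then (s.z (A.j a) : O) else 1) ∘ₗ (A.loc w).ws e0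

lemma Dz_apply (w : ι → ℤ) {κ : ℕ} (e0 : Fin κ ≃ α) (v : O) : A.Dz w e0 v =
    (∏ a, if w (A.j a) = 0 then (s.z (A.j a) : O) else 1) * (A.loc w).ws e0 v := rfl

/-- The evaluation at permuted points. -/
noncomputable def evσ (σ : Equiv.Perm α) : LP A.G0 α →+* O :=
  lf (algebraMap A.G0 O) (fun a => s.z (A.j (σ a)))

lemma theta0 [CharZero F] [Nontrivial O] {w : ι → ℤ} (hw : ∀ a, w (A.j a) ≠ 1) {I : Submodule F O}
    (hI : Stab s (wt s w) I) {κ : ℕ} (e0 : Fin κ ≃ α) {v : O} (hv : v ∈ I) (S : LP A.G0 α) :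
    hh s ζ ^ (2 * κ + 1) * ((∑ σ ∈ (A.loc w).Gp, A.evσ σ S) * A.cz κ * A.Dz w e0 v) ∈ I := by
  induction S using AddMonoidAlgebra.induction_linear with
  | zero => simp
  | add p q hp hq =>
    have h1 : ∑ σ ∈ (A.loc w).Gp, A.evσ σ (p + q) = ∑ σ ∈ (A.loc w).Gp, A.evσ σ p +
        ∑ σ ∈ (A.loc w).Gp, A.evσ σ q := by
      rw [← Finset.sum_add_distrib]
      exact Finset.sum_congr rfl (fun σ _ => map_add _ _ _)
    rw [h1, add_mul, add_mul, mul_add]
    exact I.add_mem hp hq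
  | single n g =>
    have h1 := (A.loc w).word_main e0 hw (single n 1) v
    have h2 : ∑ σ ∈ (A.loc w).Gp, A.evσ σ (single n g) = (g : O) *
        ∑ σ ∈ (A.loc w).Gp, lf (algebraMap F O) (fun i => (A.loc w).z (σ i)) (single n 1) := by
      rw [Finset.mul_sum]
      apply Finset.sum_congr rfl
      intro σ _
      unfold evσ
      rw [lf_single, lf_single, map_one, one_mul]
      rfl
    rw [h2]
    have h3 : ∀ y ∈ Submodule.span F (Set.range ((A.loc w).Ps κ v)),
        hh s ζ ^ (2 * κ + 1) * ((g : O) * y) ∈ I := by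
      intro y hy
      induction hy using Submodule.span_induction with
      | mem y hy =>
        obtain ⟨n, rfl⟩ := hy
        have h4 := Stab_Sb hI (A.hh_mul g.2) _ (A.hh_Ps hI κ hv n)
        convert h4 using 1
        ring
      | zero => simp
      | add y z _ _ hy hz => rw [mul_add, mul_add]; exact I.add_mem hy hz
      | smul r y _ hy => rw [mul_smul_comm, mul_smul_comm]; exact I.smul_mem r hy
    have h4 := h3 _ h1
    have e1 : A.cz κ = (∏ i, (A.loc w).ε i ^ 2) * (∏ q ∈ (Finset.univ : Finset α).offDiag,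
      (((A.loc w).z q.1 : O) - (A.loc w).z q.2) ^ (8 * (2 * κ + 1))) := rfl
    have e2 : A.Dz w e0 v = ((∏ i, if (A.loc w).w i = 0 then ((A.loc w).z i : O) else 1) *
      (A.loc w).ws e0 v) := rfl
    rw [e1, e2]
    generalize (∏ i, (A.loc w).ε i ^ 2) = T2 at h4 ⊢
    generalize (∏ q ∈ (Finset.univ : Finset α).offDiag,
      (((A.loc w).z q.1 : O) - (A.loc w).z q.2) ^ (8 * (2 * κ + 1))) = T3 at h4 ⊢
    generalize ((∏ i, if (A.loc w).w i = 0 then ((A.loc w).z i : O) else 1) *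
      (A.loc w).ws e0 v) = T4 at h4 ⊢
    convert h4 using 1
    ring

/-- The algebra of symmetric multipliers. -/
noncomputable def Lam : Subalgebra F O where
  carrier := {g | ∃ S : LP A.G0 α, ∀ σ, A.evσ σ S = g}
  mul_mem' := by
    rintro a b ⟨S, hS⟩ ⟨T, hT⟩
    exact ⟨S * T, fun σ => by rw [map_mul, hS, hT]⟩
  add_mem' := by
    rintro a b ⟨S, hS⟩ ⟨T, hT⟩
    exact ⟨S + T, fun σ => by rw [map_add, hS, hT]⟩
  algebraMap_mem' := by
    intro r
    refine ⟨single 0 (algebraMap F A.G0 r), fun σ => ?_⟩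
    unfold evσ
    rw [lf_C]
    rfl

/-- The multiplier. -/
noncomputable def cm (κ : ℕ) : O := hh s ζ ^ (2 * κ + 1) * A.cz κ

lemma Gp_card_ne [CharZero F] (w : ι → ℤ) : (((A.loc w).Gp.card : ℕ) : F) ≠ 0 := by
  rw [Nat.cast_ne_zero]
  apply Finset.card_ne_zero_of_mem (a := 1)
  rw [Loc.mem_Gp]
  intro i
  rfl

theorem theta [CharZero F] [Nontrivial O] {w : ι → ℤ} (hw : ∀ a, w (A.j a) ≠ 1) {κ : ℕ}
    (e0 : Fin κ ≃ α) (I : Submodule F O)
    (hI : Stab s (wt s w) I) {g : O} (hg : g ∈ A.Lam) {v : O} (hv : v ∈ I) :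
    g * A.cm κ * A.Dz w e0 v ∈ I := by
  obtain ⟨S, hS⟩ := hg
  have h1 := A.theta0 hw hI e0 hv S
  have h2 : ∑ σ ∈ (A.loc w).Gp, A.evσ σ S = (((A.loc w).Gp.card : ℕ) : F) • g := by
    rw [Finset.sum_congr rfl (fun σ _ => hS σ), Finset.sum_const, Nat.cast_smul_eq_nsmul]
  rw [h2, smul_mul_assoc, smul_mul_assoc, mul_smul_comm, Submodule.smul_mem_iff _ (A.Gp_card_ne w)]
    at h1
  unfold cm
  convert h1 using 1
  ring

lemma G0_le_Lam : A.G0 ≤ A.Lam := by
  intro g hg
  refine ⟨single 0 ⟨g, hg⟩, fun σ => ?_⟩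
  unfold evσ
  rw [lf_C]
  rfl

/-- The restriction of the derivations to the multipliers. -/
noncomputable def dG (l : ℤ) : Derivation F A.G0 A.G0 :=
  Derivation.mk'
    { toFun := fun g => ⟨s.d l g, A.G0_d l g.2⟩
      map_add' := by intro a b; ext; simp
      map_smul' := by intro r a; ext; simp }
    (by
      intro a b
      ext
      simp [Derivation.leibniz])

lemma Lam_d (l : ℤ) {g : O} (hg : g ∈ A.Lam) : s.d l g ∈ A.Lam := by
  obtain ⟨S, hS⟩ := hg
  refine ⟨dd A.dG l S, fun σ => ?_⟩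
  rw [← hS σ]
  symm
  exact lf_der _ _ A.dG (s.d l) l (fun b => rfl) (fun a => s.dz _ _) S

lemma cm_Lam [CharZero F] [Nontrivial O] (κ : ℕ) : A.cm κ ∈ A.Lam := by
  unfold cm cz
  refine Subalgebra.mul_mem _ (Subalgebra.pow_mem _ (A.G0_le_Lam (A.Sb_le A.hh_Sb)) _)
    (Subalgebra.mul_mem _ ?_ ?_)
  · obtain ⟨q, hq⟩ := A.chi_lift
    refine ⟨∏ a, (io a q : LP A.G0 α) ^ 4, fun σ => ?_⟩
    have h1 : ∀ a, A.evσ σ (io a q : LP A.G0 α) = ev1 (s.z (A.j (σ a))) (chi s ζ) := by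
      intro a
      have h2 : ((A.evσ σ).comp (io a : LP A.G0 Unit →+* LP A.G0 α)) =
          (ev1 (s.z (A.j (σ a)))).comp (mp (algebraMap A.G0 O)) := by
        apply hom_ext
        · intro b
          rw [RingHom.comp_apply, RingHom.comp_apply, io_C, mp_single, ev1_C]
          unfold evσ
          rw [lf_C]
        · intro i
          rw [RingHom.comp_apply, RingHom.comp_apply, mp_Z]
          have h3 := io_yy (O := A.G0) a 1
          rw [zpow_one, zpow_one] at h3
          rw [h3, ev1_y]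
          unfold evσ
          rw [lf_Z]
      have h3 := RingHom.congr_fun h2 q
      rw [RingHom.comp_apply, RingHom.comp_apply, hq] at h3
      exact h3
    rw [map_prod]
    refine Eq.trans ?_ (Equiv.prod_comp σ _)
    apply Finset.prod_congr rfl
    intro a _
    rw [map_pow, h1]
    unfold eps
    ring
  · refine ⟨∏ q ∈ (Finset.univ : Finset α).offDiag, (((Z q.1 : (LP A.G0 α)ˣ) : LP A.G0 α) -
      ((Z q.2 : (LP A.G0 α)ˣ) : LP A.G0 α)) ^ (8 * (2 * κ + 1)), fun σ => ?_⟩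
    rw [map_prod]
    apply Finset.prod_nbij' (fun q => (σ q.1, σ q.2)) (fun q => (σ.symm q.1, σ.symm q.2))
    · rintro ⟨a, b⟩ h
      rw [Finset.mem_offDiag] at h ⊢
      exact ⟨Finset.mem_univ _, Finset.mem_univ _, fun h' => h.2.2 (σ.injective h')⟩
    · rintro ⟨a, b⟩ h
      rw [Finset.mem_offDiag] at h ⊢
      exact ⟨Finset.mem_univ _, Finset.mem_univ _, fun h' => h.2.2 (σ.symm.injective h')⟩
    · intro q _; simp
    · intro q _; simp
    · rintro ⟨a, b⟩ _
      unfold evσ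
      rw [map_pow, map_sub, lf_Z, lf_Z]

/-! ### The differential operator -/

lemma Ord_succ {c : O} {n : ℕ} {T : O →ₗ[F] O} (h : Ord c n T) : Ord c (n + 1) T := by
  have := Ord.comp (Ord.one (F := F) c) h
  rw [LinearMap.id_comp, add_comm] at this
  exact this

lemma Ord_list (c : O) (L : List (Module.End F O)) (h : ∀ T ∈ L, Ord c 2 T) :
    Ord c (2 * L.length + 1) L.prod := by
  induction L with
  | nil => exact Ord.one c
  | cons T L ih =>
    rw [List.prod_cons, List.length_cons]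
    have h1 := Ord.comp (h T List.mem_cons_self)
      (ih (fun T' hT' => h T' (List.mem_cons_of_mem _ hT')))
    rw [show 2 * (L.length + 1) + 1 = 2 + (2 * L.length + 1) by ring]
    exact h1

lemma Ord_Dz (w : ι → ℤ) {κ : ℕ} (e0 : Fin κ ≃ α) (c : O) : ∃ r, Ord c r (A.Dz w e0) := by
  have h1 : Ord c 1 (LinearMap.mulLeft F (∏ a, if w (A.j a) = 0 then (s.z (A.j a) : O) else 1)) := by
    simp only [Ord]
    ext v
    simp only [ad_apply, LinearMap.mulLeft_apply, LinearMap.zero_apply]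
    ring
  have h2 := Ord_list c (List.ofFn (fun a => (A.loc w).Dl (e0 a))) (by
    intro T hT
    rw [List.mem_ofFn] at hT
    obtain ⟨a, rfl⟩ := hT
    unfold Loc.Dl
    split_ifs
    · have := Ord.der c ((A.loc w).p (e0 a)) 1
      have h3 : LinearMap.mulLeft F (1 : O) = LinearMap.id := by ext; simp
      rw [h3, LinearMap.id_comp] at this
      exact this
    · exact Ord_succ (Ord.one c))
  exact ⟨_, Ord.comp h1 h2⟩

lemma Dz_ker (w : ι → ℤ) {κ : ℕ} (e0 : Fin κ ≃ α) (v : O) :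
    v ∈ LinearMap.ker (A.Dz w e0) ↔ (A.loc w).ws e0 v = 0 := by
  rw [LinearMap.mem_ker, Dz_apply]
  have h1 : IsUnit (∏ a, if w (A.j a) = 0 then (s.z (A.j a) : O) else 1) := by
    apply IsUnit.prod_univ_iff.mpr
    intro a
    split_ifs
    · exact Units.isUnit _
    · exact isUnit_one
  rw [h1.mul_right_eq_zero]

lemma ws_mul (w : ι → ℤ) {κ : ℕ} (φ : Fin κ → α) {g : O} (hg : ∀ a, A.p (φ a) g = 0) (v : O) :
    (A.loc w).ws φ (g * v) = g * (A.loc w).ws φ v := by
  induction κ with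
  | zero => simp [Loc.ws]
  | succ κ ih =>
    rw [Loc.ws_succ, Loc.ws_succ, ih _ (fun a => hg a.succ), Loc.Dl_mul _ (hg 0)]

lemma ws_d (w : ι → ℤ) {κ : ℕ} (φ : Fin κ → α) (hφ : Function.Injective φ) (l : ℤ) (v : O) :
    ∃ b : O, (∀ a, (∀ k, φ k ≠ a) → A.p a b = 0) ∧ (A.loc w).ws φ (s.d l v + wt s w l * v) =
      s.d l ((A.loc w).ws φ v) + wt s w l * (A.loc w).ws φ v + b * (A.loc w).ws φ v := by
  induction κ with
  | zero => exact ⟨0, fun a _ => map_zero _, by simp [Loc.ws]⟩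
  | succ κ ih =>
    obtain ⟨b, hb1, hb2⟩ := ih (fun a => φ a.succ) (hφ.comp (Fin.succ_injective κ))
    rw [Loc.ws_succ, hb2, Loc.ws_succ]
    generalize (A.loc w).ws (fun a => φ a.succ) v = y
    have hb0 : A.p (φ 0) b = 0 := hb1 _ (fun k h => (Fin.succ_ne_zero k) (hφ h))
    by_cases hw : w (A.j (φ 0)) = 0
    · have hD : (A.loc w).Dl (φ 0) = (A.p (φ 0) : O →ₗ[F] O) := if_pos hw
      rw [hD, Derivation.coeFn_coe]
      refine ⟨b + (l : O) * ((s.z (A.j (φ 0)) ^ (l - 1) : Oˣ) : O), ?_, ?_⟩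
      · intro a ha
        rw [map_add, hb1 a (fun k => ha k.succ), zero_add, Derivation.leibniz, der_zpow, A.pz,
          if_neg (fun h => ha 0 (A.jinj h).symm), mul_zero, smul_zero, zero_add,
          Derivation.map_intCast, smul_zero]
      · have hwt : A.p (φ 0) (wt s w l) = 0 := by
          unfold wt
          rw [map_sum]
          apply Finset.sum_eq_zero
          intro i _
          rw [Derivation.leibniz, Derivation.leibniz, der_zpow, A.pz, Derivation.map_intCast,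
            Derivation.map_intCast]
          split_ifs with h
          · rw [← h, hw]; simp
          · simp
        rw [map_add, map_add, A.p_d, Derivation.leibniz, hwt, Derivation.leibniz, hb0]
        simp only [smul_zero, add_zero, smul_eq_mul]
        ring
    · have hD : (A.loc w).Dl (φ 0) = 1 := if_neg hw
      rw [hD]
      exact ⟨b, fun a ha => hb1 a (fun k => ha k.succ), rfl⟩

lemma Stab_ker (w : ι → ℤ) {κ : ℕ} (e0 : Fin κ ≃ α) :
    Stab s (wt s w) (LinearMap.ker (A.Dz w e0)) where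
  hx := by
    intro m v hv
    rw [Dz_ker] at hv ⊢
    rw [A.ws_mul w _ (fun a => A.px _ m), hv, mul_zero]
  hd := by
    intro l v hv
    rw [Dz_ker] at hv ⊢
    obtain ⟨b, _, hb⟩ := A.ws_d w e0 e0.injective l v
    rw [hb, hv, map_zero, mul_zero, mul_zero, add_zero, add_zero]

/-- The main step at the level of a system. -/
theorem Zd_main [CharZero F] [Nontrivial O] {w : ι → ℤ} (hw : ∀ a, w (A.j a) ≠ 1)
    {κ : ℕ} (e0 : Fin κ ≃ α) (hN : IsNoetherian A.Lam O) (Ad : AddSubmonoid (ℤ → O))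
    (hwt : wt s w ∈ Ad)
    (hg1 : ∀ i j, i ≠ j → Good s Ad ((s.z i : O) - s.z j))
    (hg2 : ∀ t, Good s Ad (xf s.x (ch (fun t => s.z (ζ t)) (Finset.univ.erase t))))
    (hDg : ∀ f, ∃ q : Polynomial F, q.eval 0 ≠ 0 ∧ A.Dz w e0 (Polynomial.aeval (A.Dz w e0) q f) = 0)
    (hkch : ∀ ch : ℕ → Submodule F O, Monotone ch → (∀ n, Stab s (wt s w) (ch n)) →
      (∀ n, ch n ≤ LinearMap.ker (A.Dz w e0)) → Stz ch) : Ch s (wt s w) ⊥ := by
  have hgood : Good s Ad (A.cm κ) := by
    unfold cm cz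
    refine ((Good.prod (fun t _ => hg2 t)).pow _).mul (Good.mul (Good.prod (fun a _ => ?_))
      (Good.prod (fun q hq => ?_)))
    · apply Good.pow
      unfold eps
      apply Good.pow
      unfold chi
      rw [ev1_ch]
      exact Good.prod (fun t _ => hg1 _ _ (A.jζ a t))
    · apply Good.pow
      rw [Finset.mem_offDiag] at hq
      exact hg1 _ _ (fun h => hq.2.2 (A.jinj h))
  obtain ⟨γc, _, hsc⟩ := hgood.1
  refine main_abs s (wt s w) A.Lam hN (A.cm κ) (A.Dz w e0) (fun l g hg => A.Lam_d l hg) (A.cm_Lam κ)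
    (fun m => A.G0_le_Lam (A.G0_x m)) (fun I hI g hg v hv => A.theta hw e0 I hI hg hv) hsc ?_ hDg
    (A.Ord_Dz w e0 _) (A.Stab_ker w e0) hkch
  intro e
  exact (hgood.pow e).2 _ hwt

end Zd

end Run7.h143
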