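import Pool.Agent.Run7.h143.Word2
import Pool.Agent.Run7.h143.Cond

/-!
The operators at the points which are not roots.
-/

set_option autoImplicit false
set_option linter.unusedSectionVars false
set_option linter.unusedSimpArgs false

namespace Run7.h143

open AddMonoidAlgebra Pool.Agent.R693.W

section der

variable {F : Type*} [Field F] {O : Type*} [CommRing O] [Algebra F O]

/-- The derivation `y ∂/∂y`. -/
noncomputable def Dy : Derivation F (LP O Unit) (LP O Unit) := dd (fun _ => (0 : Derivation F O O)) 1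

lemma Dy_single (n : Unit → ℤ) (b : O) :
    (Dy : Derivation F (LP O Unit) (LP O Unit)) (single n b) = ((n () : ℤ) : LP O Unit) * single n b := by
  unfold Dy
  rw [dd_single, th_apply]
  simp

lemma xf_zmul (x : ℤ → O) (k : ℤ) (t : LP O Unit) : xf x ((k : LP O Unit) * t) = (k : O) * xf x t :=
  E_zmul x k t

lemma der_sum_apply {κ : Type*} (t : Finset κ) (D : κ → Derivation F O O) (v : O) :
    (∑ a ∈ t, D a) v = ∑ a ∈ t, D a v := by
  classical
  induction t using Finset.induction_on with
  | empty => simp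
  | insert a t ha ih => rw [Finset.sum_insert ha, Finset.sum_insert ha, Derivation.add_apply, ih]

lemma xf_diff (x : ℤ → O) (n : ℤ) (q : LP O Unit) :
    xf (fun l => ((n - l : ℤ) : O) * x (n + l - 1)) q =
      xf x ((((n : ℤ) : LP O Unit) * q - (Dy : Derivation F (LP O Unit) (LP O Unit)) q) *
        ((yy ^ (n - 1) : (LP O Unit)ˣ) : LP O Unit)) := by
  induction q using AddMonoidAlgebra.induction_linear with
  | zero => simp
  | add p q hp hq =>
    rw [map_add, hp, hq, ← map_add]
    congr 1
    rw [map_add]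
    ring
  | single k b =>
    rw [xf_single, Dy_single, ← sub_mul, mul_assoc, yy_zpow, single_mul_single, mul_one,
      ← Int.cast_sub, xf_zmul, xf_single, Pi.add_apply]
    rw [show k () + (n - 1) = n + k () - 1 by ring]
    ring

lemma xf_pow (u : Oˣ) (q : LP O Unit) : xf (fun l => ((u ^ l : Oˣ) : O)) q = ev1 u q := by
  induction q using AddMonoidAlgebra.induction_linear with
  | zero => simp
  | add p q hp hq => rw [map_add, map_add, hp, hq]
  | single k b =>
    rw [xf_single]
    unfold ev1
    rw [lf_single]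
    simp

lemma xf_dpow (u : Oˣ) (q : LP O Unit) : xf (fun l => (l : O) * ((u ^ (l - 1) : Oˣ) : O)) q =
    ((u⁻¹ : Oˣ) : O) * ev1 u ((Dy : Derivation F (LP O Unit) (LP O Unit)) q) := by
  induction q using AddMonoidAlgebra.induction_linear with
  | zero => simp
  | add p q hp hq => rw [map_add, map_add, hp, hq, map_add, mul_add]
  | single k b =>
    have h : ev1 u (single k b) = b * ((u ^ k () : Oˣ) : O) := by
      unfold ev1; rw [lf_single]; simp
    rw [xf_single, Dy_single, map_mul, map_intCast, h, zpow_sub_one, Units.val_mul]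
    ring

lemma der_ev1 (p : Derivation F O O) (u : Oˣ) (q : LP O Unit) :
    p (ev1 u q) = ev1 u (mkD p 0 q) + p (u : O) *
      (((u⁻¹ : Oˣ) : O) * ev1 u ((Dy : Derivation F (LP O Unit) (LP O Unit)) q)) := by
  induction q using AddMonoidAlgebra.induction_linear with
  | zero => simp
  | add p q hp hq => rw [map_add, map_add, hp, hq, map_add, map_add, map_add, map_add]; ring
  | single k b =>
    have h : ∀ b, ev1 u (single k b) = b * ((u ^ k () : Oˣ) : O) := by
      intro b; unfold ev1; rw [lf_single]; simp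
    rw [Dy_single, mkD_single, map_mul, map_intCast, h, Derivation.leibniz, der_zpow,
      AddMonoidHom.zero_apply, zero_mul, add_zero, h, zpow_sub_one, Units.val_mul, smul_eq_mul,
      smul_eq_mul]
    ring

lemma ev1_ch {σ : Type*} (u : Oˣ) (r : σ → Oˣ) (T : Finset σ) :
    ev1 u (ch r T) = ∏ t ∈ T, ((u : O) - r t) := by
  unfold ch
  rw [map_prod]
  apply Finset.prod_congr rfl
  intro t _
  rw [map_sub, ev1_y, ev1_C]

end der

/-- The data at the points which are not roots. -/
structure Zd {F : Type*} [Field F] {ι : Type} [DecidableEq ι] {O : Type*} [CommRing O] [Algebra F O]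
    (s : Sys F ι O) {ν : ℕ} (ζ : Fin ν → ι) (α : Type) where
  /-- the points which are not roots -/
  j : α → ι
  jinj : Function.Injective j
  jζ : ∀ a t, j a ≠ ζ t
  jtot : ∀ i, (∃ t, ζ t = i) ∨ ∃ a, j a = i
  kill : Kl s.x (ch (fun t => s.z (ζ t)) Finset.univ)
  /-- the derivations -/
  p : α → Derivation F O O
  px : ∀ a m, p a (s.x m) = 0
  pz : ∀ a i, p a (s.z i : O) = if j a = i then 1 else 0
  ext : ∀ D D' : Derivation F O O, (∀ m, D (s.x m) = D' (s.x m)) →
    (∀ i, D (s.z i : O) = D' (s.z i)) → D = D'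

namespace Zd

variable {F : Type*} [Field F] {ι : Type} [DecidableEq ι] [Fintype ι] {O : Type*} [CommRing O]
  [Algebra F O] {s : Sys F ι O} {ν : ℕ} {ζ : Fin ν → ι} {α : Type} [DecidableEq α] [Fintype α]
  (A : Zd s ζ α)

/-- The polynomial with the given roots. -/
noncomputable def chi (s : Sys F ι O) (ζ : Fin ν → ι) : LP O Unit :=
  ch (fun t => s.z (ζ t)) Finset.univ

/-- The scalars. -/
noncomputable def eps (a : α) : O := ev1 (s.z (A.j a)) (chi s ζ) ^ 2

lemma pzζ (a : α) (t : Fin ν) : A.p a (s.z (ζ t) : O) = 0 := by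
  rw [A.pz, if_neg (A.jζ a t)]

lemma p_chi (a b : α) (h : a ≠ b) : A.p a (ev1 (s.z (A.j b)) (chi s ζ)) = 0 := by
  unfold chi
  rw [ev1_ch, der_prod]
  apply Finset.sum_eq_zero
  intro t _
  rw [map_sub, A.pzζ, A.pz, if_neg (fun h' => h (A.jinj h')), sub_zero, zero_mul]

lemma pp (a b : α) (v : O) : A.p a (A.p b v) = A.p b (A.p a v) := by
  have h : ⁅A.p a, A.p b⁆ = 0 := by
    apply A.ext
    · intro m
      rw [Derivation.commutator_apply, A.px, A.px, map_zero, map_zero, sub_zero,
        Derivation.zero_apply]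
    · intro i
      rw [Derivation.commutator_apply, A.pz, A.pz]
      split_ifs <;> simp
  have h1 := congrArg (fun D : Derivation F O O => D v) h
  simp only [Derivation.commutator_apply, Derivation.zero_apply] at h1
  exact sub_eq_zero.mp h1

/-- The local data. -/
noncomputable def loc (w : ι → ℤ) : Loc F α O where
  z a := s.z (A.j a)
  ε := A.eps
  p := A.p
  pz a b := by
    rw [A.pz]
    by_cases h : a = b
    · rw [if_pos h, if_pos (by rw [h])]
    · rw [if_neg h, if_neg (fun h' => h (A.jinj h'))]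
  pε a b h := by
    unfold eps
    rw [Derivation.leibniz_pow, A.p_chi a b h, smul_zero, smul_zero]
  pp := A.pp
  w a := w (A.j a)

/-- The weight cocycle. -/
noncomputable def _root_.Run7.h143.wt (s : Sys F ι O) (w : ι → ℤ) (l : ℤ) : O :=
  ∑ i, (w i : O) * ((l : O) * ((s.z i ^ (l - 1) : Oˣ) : O))

/-- The combination of the derivations. -/
noncomputable def DQ (s : Sys F ι O) : LP O Unit →ₗ[O] Derivation F O O :=
  lin (fun n => LinearMap.toSpanSingleton O _ (s.d (n ())))

lemma DQ_apply (q : LP O Unit) (v : O) : DQ s q v = xf (fun l => s.d l v) q := by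
  induction q using AddMonoidAlgebra.induction_linear with
  | zero => rw [map_zero, map_zero, Derivation.zero_apply]
  | add p q hp hq => rw [map_add, map_add, Derivation.add_apply, hp, hq]
  | single k b =>
    unfold DQ
    rw [lin_single, LinearMap.toSpanSingleton_apply, Derivation.smul_apply, xf_single, smul_eq_mul]

/-- The element used in the combinations. -/
noncomputable def qm (s : Sys F ι O) (ζ : Fin ν → ι) (m : ℤ) : LP O Unit :=
  chi s ζ * (chi s ζ * ((yy ^ m : (LP O Unit)ˣ) : LP O Unit))

lemma Dy_qm (m : ℤ) : (Dy : Derivation F (LP O Unit) (LP O Unit)) (qm s ζ m) =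
    chi s ζ * ((Dy : Derivation F (LP O Unit) (LP O Unit)) (chi s ζ *
      ((yy ^ m : (LP O Unit)ˣ) : LP O Unit)) + ((yy ^ m : (LP O Unit)ˣ) : LP O Unit) *
        (Dy : Derivation F (LP O Unit) (LP O Unit)) (chi s ζ)) := by
  unfold qm
  rw [Derivation.leibniz, smul_eq_mul, smul_eq_mul]
  ring

lemma ev1_chi_root (t : Fin ν) : ev1 (s.z (ζ t)) (chi s ζ) = 0 := by
  unfold chi
  rw [ev1_ch]
  exact Finset.prod_eq_zero (Finset.mem_univ t) (sub_self _)

lemma mkD_chi (a : α) : mkD (A.p a) 0 (chi s ζ) = 0 := by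
  unfold chi ch
  rw [der_prod]
  apply Finset.sum_eq_zero
  intro t _
  rw [map_sub, mkD_Z, mkD_C, A.pzζ]
  simp

lemma mkD_yy (a : α) (m : ℤ) : mkD (A.p a) 0 ((yy ^ m : (LP O Unit)ˣ) : LP O Unit) = 0 := by
  rw [yy_zpow, mkD_single]
  simp

lemma u_eq (w : ι → ℤ) (a : α) (m : ℤ) : (A.loc w).u a m = ev1 (s.z (A.j a)) (qm s ζ m) := by
  unfold Loc.u qm loc eps
  rw [map_mul, map_mul, ev1_yy]
  ring

lemma p_u_eq (w : ι → ℤ) (a : α) (m : ℤ) : A.p a ((A.loc w).u a m) =
    (((s.z (A.j a))⁻¹ : Oˣ) : O) * ev1 (s.z (A.j a))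
      ((Dy : Derivation F (LP O Unit) (LP O Unit)) (qm s ζ m)) := by
  rw [u_eq, der_ev1, A.pz, if_pos rfl, one_mul]
  have : mkD (A.p a) 0 (qm s ζ m) = 0 := by
    unfold qm
    rw [Derivation.leibniz, Derivation.leibniz, A.mkD_chi, A.mkD_yy]
    simp
  rw [this, map_zero, zero_add]

/-- The total operator is a combination of the twisted derivations. -/
lemma At_eq (w : ι → ℤ) (m : ℤ) (v : O) :
    (A.loc w).At m v = xf (fun l => s.d l v + wt s w l * v) (qm s ζ m) := by
  have h1 : DQ s (qm s ζ m) = ∑ a, (A.loc w).u a m • A.p a := by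
    apply A.ext
    · intro n
      rw [DQ_apply, der_sum_apply]
      have h2 : (fun l => s.d l (s.x n)) = fun l => ((n - l : ℤ) : O) * s.x (n + l - 1) := by
        funext l; exact s.dx l n
      rw [h2, xf_diff (F := F), Dy_qm]
      have h3 : (((n : ℤ) : LP O Unit) * qm s ζ m - chi s ζ *
          ((Dy : Derivation F (LP O Unit) (LP O Unit)) (chi s ζ *
          ((yy ^ m : (LP O Unit)ˣ) : LP O Unit)) + ((yy ^ m : (LP O Unit)ˣ) : LP O Unit) *
          (Dy : Derivation F (LP O Unit) (LP O Unit)) (chi s ζ))) *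
          ((yy ^ (n - 1) : (LP O Unit)ˣ) : LP O Unit) = chi s ζ *
          ((((n : ℤ) : LP O Unit) * (chi s ζ * ((yy ^ m : (LP O Unit)ˣ) : LP O Unit)) -
          ((Dy : Derivation F (LP O Unit) (LP O Unit)) (chi s ζ *
          ((yy ^ m : (LP O Unit)ˣ) : LP O Unit)) + ((yy ^ m : (LP O Unit)ˣ) : LP O Unit) *
          (Dy : Derivation F (LP O Unit) (LP O Unit)) (chi s ζ))) *
          ((yy ^ (n - 1) : (LP O Unit)ˣ) : LP O Unit)) := by
        unfold qm
        ring
      rw [h3]
      have h4 : xf s.x (chi s ζ *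
          ((((n : ℤ) : LP O Unit) * (chi s ζ * ((yy ^ m : (LP O Unit)ˣ) : LP O Unit)) -
          ((Dy : Derivation F (LP O Unit) (LP O Unit)) (chi s ζ *
          ((yy ^ m : (LP O Unit)ˣ) : LP O Unit)) + ((yy ^ m : (LP O Unit)ˣ) : LP O Unit) *
          (Dy : Derivation F (LP O Unit) (LP O Unit)) (chi s ζ))) *
          ((yy ^ (n - 1) : (LP O Unit)ˣ) : LP O Unit))) = 0 := A.kill _
      rw [h4]
      symm
      apply Finset.sum_eq_zero
      intro a _
      rw [Derivation.smul_apply, A.px, smul_zero]
    · intro i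
      rw [DQ_apply, der_sum_apply]
      have h2 : (fun l => s.d l (s.z i : O)) = fun l => ((s.z i ^ l : Oˣ) : O) := by
        funext l; exact s.dz l i
      rw [h2, xf_pow]
      rcases A.jtot i with ⟨t, rfl⟩ | ⟨a, rfl⟩
      · have h3 : ev1 (s.z (ζ t)) (qm s ζ m) = 0 := by
          unfold qm
          rw [map_mul, ev1_chi_root, zero_mul]
        rw [h3]
        symm
        apply Finset.sum_eq_zero
        intro a _
        rw [Derivation.smul_apply, A.pzζ, smul_zero]
      · rw [Finset.sum_eq_single a]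
        · rw [Derivation.smul_apply, A.pz, if_pos rfl, u_eq, smul_eq_mul, mul_one]
        · intro b _ hb
          rw [Derivation.smul_apply, A.pz, if_neg (fun h => hb (A.jinj h)), smul_zero]
        · simp
  have h2 : xf (wt s w) (qm s ζ m) = ∑ a, ((A.loc w).w a : O) * A.p a ((A.loc w).u a m) := by
    have h3 : ∀ q : LP O Unit, xf (wt s w) q = ∑ i, (w i : O) *
        ((((s.z i)⁻¹ : Oˣ) : O) * ev1 (s.z i) ((Dy : Derivation F (LP O Unit) (LP O Unit)) q)) := by
      intro q
      simp_rw [← xf_dpow]
      induction q using AddMonoidAlgebra.induction_linear with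
      | zero => simp
      | add p q hp hq =>
        rw [map_add, hp, hq, ← Finset.sum_add_distrib]
        apply Finset.sum_congr rfl
        intro i _
        rw [map_add]
        ring
      | single k b =>
        rw [xf_single]
        unfold wt
        rw [Finset.mul_sum]
        apply Finset.sum_congr rfl
        intro i _
        rw [xf_single]
        ring
    rw [h3]
    symm
    simp_rw [A.p_u_eq]
    apply Finset.sum_of_injOn A.j A.jinj.injOn
    · intro a _; exact Finset.mem_coe.mpr (Finset.mem_univ _)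
    · intro i _ hi
      rcases A.jtot i with ⟨t, rfl⟩ | ⟨a, rfl⟩
      · rw [Dy_qm, map_mul, ev1_chi_root]
        ring
      · exact absurd ⟨a, Finset.mem_coe.mpr (Finset.mem_univ _), rfl⟩ hi
    · intro a _
      rfl
  have h3 : xf (fun l => s.d l v + wt s w l * v) (qm s ζ m) =
      xf (fun l => s.d l v) (qm s ζ m) + xf (wt s w) (qm s ζ m) * v := by
    generalize qm s ζ m = q
    induction q using AddMonoidAlgebra.induction_linear with
    | zero => simp
    | add p q hp hq => rw [map_add, hp, hq, map_add, map_add]; ring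
    | single k b => rw [xf_single, xf_single, xf_single]; ring
  rw [h3, ← DQ_apply, h1, h2, der_sum_apply, Finset.sum_mul,
    ← Finset.sum_add_distrib]
  unfold Loc.At
  rw [LinearMap.sum_apply]
  apply Finset.sum_congr rfl
  intro a _
  rw [Loc.B_apply, Derivation.smul_apply, smul_eq_mul]
  rfl

end Zd

end Run7.h143
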